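import Mathlib
import Pool.Agent.N990.U.Flt
import Pool.Agent.N990.Slab.Vert

/-!
# The slab, uniformly in the thickness: polynomially bounded families, the lowest eigenvalue
-/

set_option autoImplicit false
set_option linter.unusedSectionVars false
set_option linter.unusedVariables false

open MeasureTheory Finset Function Filter Topology

namespace Pool.Agent.N109.SlabU

open Pool.Agent.N990.Mach (FU Un Un_anti FU_basis fu_iff fu_of fu_fst fu_ev fu_one fu_ge fu_gt fu_pow fu_rpow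
  fu_log fu_lt fu_exp)
open Pool.Agent.N990 (lam0 lam0_pos)

noncomputable section

/-! ### the filter -/

/-- the bound of the constants can be replaced by a power -/
lemma fu_comp {C : ℝ} (hC : 1 ≤ C) (n : ℕ) :
    Tendsto (fun p : ℝ × ℝ => (p.1, C * p.2 ^ n)) FU FU := by
  rw [FU_basis.tendsto_right_iff]
  intro k _
  obtain ⟨m, hm⟩ := exists_nat_ge (C ^ (2 * (k + 1)) + 2 * n * (k + 1) + k)
  have hC0 : 0 ≤ C ^ (2 * (k + 1)) := by positivity
  refine fu_of m fun p hp => ?_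
  obtain ⟨h1, h2, h3⟩ := hp
  have hk0 : (0 : ℝ) ≤ k := Nat.cast_nonneg _
  have hn0 : (0 : ℝ) ≤ 2 * n * (k + 1) := by positivity
  have hX0 : (0 : ℝ) ≤ p.2 := by linarith
  have hβ0 : (0 : ℝ) ≤ p.1 := by
    have : (0 : ℝ) ≤ m := Nat.cast_nonneg _
    linarith
  refine ⟨by simp only; linarith, ?_, ?_⟩
  · show 1 ≤ C * p.2 ^ n
    exact one_le_mul_of_one_le_of_one_le hC (one_le_pow₀ h2)
  · show (C * p.2 ^ n) ^ (k + 1) ≤ p.1
    have e1 : ((C * p.2 ^ n) ^ (k + 1)) ^ 2 = C ^ (2 * (k + 1)) * p.2 ^ (2 * n * (k + 1)) := by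
      rw [mul_pow, mul_pow, ← pow_mul, ← pow_mul, ← pow_mul]
      congr 2 <;> ring
    have e2 : p.2 ^ (2 * n * (k + 1)) ≤ p.1 := by
      refine le_trans (pow_le_pow_right₀ h2 ?_) h3
      have : ((2 * n * (k + 1) : ℕ) : ℝ) ≤ m := by
        push_cast
        linarith
      have h4 : 2 * n * (k + 1) ≤ m := by exact_mod_cast this
      omega
    have e3 : C ^ (2 * (k + 1)) ≤ p.1 := by linarith
    have e4 : ((C * p.2 ^ n) ^ (k + 1)) ^ 2 ≤ p.1 ^ 2 := by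
      rw [e1, sq]
      exact mul_le_mul e3 e2 (by positivity) hβ0
    exact le_of_sq_le_sq e4 hβ0
where
  le_of_sq_le_sq {a b : ℝ} (h : a ^ 2 ≤ b ^ 2) (hb : 0 ≤ b) : a ≤ b :=
    le_of_pow_le_pow_left₀ two_ne_zero hb h

/-! ### polynomially bounded families -/

/-- `f` is bounded by a power of `s` on `P` -/
def Pb {ι : Type*} (s : ι → ℝ) (P : ι → Prop) (f : ι → ℝ) : Prop :=
  ∃ (C : ℝ) (n : ℕ), 1 ≤ C ∧ ∀ i, P i → |f i| ≤ C * s i ^ n

section Pb

variable {ι : Type*} {s : ι → ℝ} {P : ι → Prop} {f g : ι → ℝ}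

lemma Pb.mono (hg : Pb s P g) (h : ∀ i, P i → |f i| ≤ |g i|) : Pb s P f := by
  obtain ⟨C, n, hC, H⟩ := hg
  exact ⟨C, n, hC, fun i hi => (h i hi).trans (H i hi)⟩

lemma Pb.mono0 (hg : Pb s P g) (h0 : ∀ i, P i → 0 ≤ f i) (h : ∀ i, P i → f i ≤ g i) :
    Pb s P f := hg.mono fun i hi => by
  rw [abs_of_nonneg (h0 i hi)]
  exact (h i hi).trans (le_abs_self _)

lemma Pb.cst (c : ℝ) : Pb s P fun _ => c :=
  ⟨|c| + 1, 0, by have := abs_nonneg c; linarith, fun i _ => by rw [pow_zero, mul_one]; linarith⟩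

lemma Pb.sc (hs : ∀ i, P i → 1 ≤ s i) : Pb s P s :=
  ⟨1, 1, le_rfl, fun i hi => by
    rw [pow_one, one_mul, abs_of_nonneg (by linarith [hs i hi])]⟩

lemma Pb.mul (hf : Pb s P f) (hg : Pb s P g) : Pb s P fun i => f i * g i := by
  obtain ⟨C, n, hC, H⟩ := hf
  obtain ⟨C', n', hC', H'⟩ := hg
  refine ⟨C * C', n + n', one_le_mul_of_one_le_of_one_le hC hC', fun i hi => ?_⟩
  rw [abs_mul]
  calc |f i| * |g i| ≤ (C * s i ^ n) * (C' * s i ^ n') :=
        mul_le_mul (H i hi) (H' i hi) (abs_nonneg _) ((abs_nonneg _).trans (H i hi))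
    _ = _ := by ring

lemma Pb.add (hs : ∀ i, P i → 1 ≤ s i) (hf : Pb s P f) (hg : Pb s P g) :
    Pb s P fun i => f i + g i := by
  obtain ⟨C, n, hC, H⟩ := hf
  obtain ⟨C', n', hC', H'⟩ := hg
  refine ⟨C + C', n + n', by linarith, fun i hi => ?_⟩
  have h1 := hs i hi
  have h2 : s i ^ n ≤ s i ^ (n + n') := pow_le_pow_right₀ h1 (by omega)
  have h3 : s i ^ n' ≤ s i ^ (n + n') := pow_le_pow_right₀ h1 (by omega)
  calc |f i + g i| ≤ |f i| + |g i| := abs_add_le _ _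
    _ ≤ C * s i ^ n + C' * s i ^ n' := add_le_add (H i hi) (H' i hi)
    _ ≤ C * s i ^ (n + n') + C' * s i ^ (n + n') :=
        add_le_add (mul_le_mul_of_nonneg_left h2 (by linarith))
          (mul_le_mul_of_nonneg_left h3 (by linarith))
    _ = _ := by ring

lemma Pb.pow (hf : Pb s P f) (k : ℕ) : Pb s P fun i => f i ^ k := by
  obtain ⟨C, n, hC, H⟩ := hf
  refine ⟨C ^ k, n * k, one_le_pow₀ hC, fun i hi => ?_⟩
  rw [abs_pow, pow_mul, ← mul_pow]
  exact pow_le_pow_left₀ (abs_nonneg _) (H i hi) k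

lemma Pb.neg (hf : Pb s P f) : Pb s P fun i => -f i := by
  obtain ⟨C, n, hC, H⟩ := hf
  exact ⟨C, n, hC, fun i hi => by rw [abs_neg]; exact H i hi⟩

lemma Pb.imp {Q : ι → Prop} (hf : Pb s P f) (h : ∀ i, Q i → P i) : Pb s Q f := by
  obtain ⟨C, n, hC, H⟩ := hf
  exact ⟨C, n, hC, fun i hi => H i (h i hi)⟩

/-- powers -/
lemma Pb.ev (hf : Pb s P f) {a b : ℝ} (h : b < a) (hs : ∀ i, P i → 0 ≤ s i) :
    ∀ᶠ p in FU, ∀ i, P i → s i ≤ p.2 → f i * p.1 ^ b ≤ p.1 ^ a := by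
  obtain ⟨C, n, hC, H⟩ := hf
  filter_upwards [fu_rpow (a := a) (b := b) C n h] with p hp i hi hsi
  refine hp _ (((le_abs_self _).trans (H i hi)).trans ?_)
  exact mul_le_mul_of_nonneg_left (pow_le_pow_left₀ (hs i hi) hsi n) (by linarith)

/-- the family is at most a power of the coupling -/
lemma Pb.le (hf : Pb s P f) {a : ℝ} (h : 0 < a) (hs : ∀ i, P i → 0 ≤ s i) :
    ∀ᶠ p in FU, ∀ i, P i → s i ≤ p.2 → f i ≤ p.1 ^ a := by
  filter_upwards [hf.ev h hs] with p hp i hi hsi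
  have := hp i hi hsi
  rwa [Real.rpow_zero, mul_one] at this

/-- logarithms -/
lemma Pb.log (hf : Pb s P f) {a : ℝ} (h : 0 < a) (hs : ∀ i, P i → 0 ≤ s i) :
    ∀ᶠ p in FU, ∀ i, P i → s i ≤ p.2 → f i * Real.log p.1 ≤ p.1 ^ a := by
  obtain ⟨C, n, hC, H⟩ := hf
  filter_upwards [fu_log (a := a) C n h] with p hp i hi hsi
  refine hp _ (((le_abs_self _).trans (H i hi)).trans ?_)
  exact mul_le_mul_of_nonneg_left (pow_le_pow_left₀ (hs i hi) hsi n) (by linarith)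

end Pb

/-! ### the lowest eigenvalue -/

lemma lam0_sin (L : ℕ) : lam0 L = 4 * Real.sin (Real.pi / (2 * L + 1) / 2) ^ 2 := by
  unfold lam0
  have h := Real.cos_two_mul (Real.pi / (2 * L + 1) / 2)
  rw [mul_div_cancel₀ _ (two_ne_zero)] at h
  have h2 := Real.sin_sq_add_cos_sq (Real.pi / (2 * L + 1) / 2)
  rw [h]
  linarith

lemma lam0_ge {L : ℕ} (hL : 1 ≤ L) : 4 / (9 * (L : ℝ) ^ 2) ≤ lam0 L := by
  have hp := Real.pi_pos
  have hL' : (1 : ℝ) ≤ L := by exact_mod_cast hL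
  have h1 : 2 / Real.pi * (Real.pi / (2 * L + 1) / 2) ≤ Real.sin (Real.pi / (2 * L + 1) / 2) := by
    refine Real.mul_le_sin (by positivity) ?_
    rw [div_le_div_iff_of_pos_right (by norm_num)]
    exact div_le_self hp.le (by linarith)
  have h2 : 2 / Real.pi * (Real.pi / (2 * (L : ℝ) + 1) / 2) = 1 / (2 * L + 1) := by
    field_simp
  rw [h2] at h1
  have h3 : 1 / (3 * (L : ℝ)) ≤ 1 / (2 * L + 1) := by
    apply one_div_le_one_div_of_le (by positivity)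
    linarith
  rw [lam0_sin]
  have h4 : (1 / (3 * (L : ℝ))) ^ 2 ≤ Real.sin (Real.pi / (2 * L + 1) / 2) ^ 2 :=
    pow_le_pow_left₀ (by positivity) (h3.trans h1) 2
  calc 4 / (9 * (L : ℝ) ^ 2) = 4 * (1 / (3 * (L : ℝ))) ^ 2 := by
        field_simp
        norm_num
    _ ≤ _ := by linarith

lemma lam0_le_one {L : ℕ} (hL : 1 ≤ L) : lam0 L ≤ 1 := by
  unfold lam0
  have hp := Real.pi_pos
  have hL' : (1 : ℝ) ≤ L := by exact_mod_cast hL
  have h1 : Real.cos (Real.pi / 3) ≤ Real.cos (Real.pi / (2 * L + 1)) := by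
    refine Real.cos_le_cos_of_nonneg_of_le_pi (by positivity) (by linarith) ?_
    exact div_le_div_of_nonneg_left hp.le (by norm_num) (by linarith)
  rw [Real.cos_pi_div_three] at h1
  linarith

/-- the inverse is polynomially bounded -/
lemma inv_lam0_le {L : ℕ} (hL : 1 ≤ L) : 1 / lam0 L ≤ 9 / 4 * (L : ℝ) ^ 2 := by
  have h1 := lam0_ge hL
  have h2 := lam0_pos hL
  have hL' : (1 : ℝ) ≤ L := by exact_mod_cast hL
  have h3 : (0 : ℝ) < 4 / (9 * (L : ℝ) ^ 2) := by positivity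
  refine (one_div_le_one_div_of_le h3 h1).trans (le_of_eq ?_)
  field_simp

/-- the rate of the kernels -/
def alp (L : ℕ) : ℝ := Real.sqrt (lam0 L) / 2

lemma alp_pos {L : ℕ} (hL : 1 ≤ L) : 0 < alp L := by
  unfold alp
  have := Real.sqrt_pos.2 (lam0_pos hL)
  linarith

lemma alp_le {L : ℕ} (hL : 1 ≤ L) : alp L ≤ 1 / 2 := by
  unfold alp
  have := Real.sqrt_le_one.2 (lam0_le_one hL)
  linarith

lemma alp_sq {L : ℕ} (hL : 1 ≤ L) : alp L ^ 2 = lam0 L / 4 := by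
  unfold alp
  rw [div_pow, Real.sq_sqrt (lam0_pos hL).le]
  norm_num

lemma cosh_sub_one_le {x : ℝ} (hx : |x| ≤ 1) : Real.cosh x - 1 ≤ x ^ 2 := by
  have h1 := Real.cosh_le_exp_half_sq x
  have h2 : x ^ 2 ≤ 1 := by
    rw [← sq_abs]
    have := abs_nonneg x
    nlinarith
  have h3 : Real.exp (x ^ 2 / 2) ≤ 1 / (1 - x ^ 2 / 2) := by
    rw [le_div_iff₀ (by linarith)]
    have h4 := Real.add_one_le_exp (-(x ^ 2 / 2))
    have h5 : Real.exp (x ^ 2 / 2) * Real.exp (-(x ^ 2 / 2)) = 1 := by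
      rw [← Real.exp_add, add_neg_cancel, Real.exp_zero]
    have h6 := Real.exp_pos (x ^ 2 / 2)
    nlinarith
  have h7 : 1 / (1 - x ^ 2 / 2) ≤ 1 + x ^ 2 := by
    rw [div_le_iff₀ (by linarith)]
    nlinarith [sq_nonneg x, sq_nonneg (x ^ 2)]
  linarith

lemma alp_gap {L : ℕ} (hL : 1 ≤ L) : 2 * Real.cosh (alp L) - 2 ≤ lam0 L / 2 := by
  have h1 := alp_pos hL
  have h2 := alp_le hL
  have h3 := cosh_sub_one_le (x := alp L) (by rw [abs_of_pos h1]; linarith)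
  have h4 := alp_sq hL
  linarith

lemma alp_lt {L : ℕ} (hL : 1 ≤ L) : 2 * Real.cosh (alp L) - 2 < lam0 L := by
  have h1 := alp_gap hL
  have h2 := lam0_pos hL
  linarith

lemma inv_alp_le {L : ℕ} (hL : 1 ≤ L) : 1 / alp L ≤ 3 * L := by
  have h1 := alp_pos hL
  have h2 := lam0_ge hL
  have hL' : (1 : ℝ) ≤ L := by exact_mod_cast hL
  have h3 : (1 / (3 * (L : ℝ))) ^ 2 ≤ alp L ^ 2 := by
    rw [alp_sq hL]
    have : (1 / (3 * (L : ℝ))) ^ 2 = 4 / (9 * (L : ℝ) ^ 2) / 4 := by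
      field_simp
      norm_num
    rw [this]
    linarith
  have h4 : 1 / (3 * (L : ℝ)) ≤ alp L := le_of_pow_le_pow_left₀ two_ne_zero h1.le h3
  rw [div_le_iff₀ (by positivity)] at h4
  rw [div_le_iff₀ h1]
  linarith

/-! ### the mass -/

lemma le_cosh {x : ℝ} (hx : 0 ≤ x) : 1 + x ^ 2 / 2 ≤ Real.cosh x := by
  have h1 := Real.cosh_two_mul (x / 2)
  rw [mul_div_cancel₀ _ (two_ne_zero), Real.cosh_sq] at h1
  have h2 : x / 2 ≤ Real.sinh (x / 2) := Real.self_le_sinh_iff.2 (by linarith)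
  have h3 : (x / 2) ^ 2 ≤ Real.sinh (x / 2) ^ 2 := pow_le_pow_left₀ (by linarith) h2 2
  rw [h1]
  linarith

/-- bounds of the mass -/
lemma mass_le {L : ℕ} (hL : 1 ≤ L) {m : ℝ} (hm0 : 0 < m) (hm : 2 * Real.cosh m - 2 = lam0 L) :
    m ≤ 1 := by
  have h1 := lam0_le_one hL
  have h2 : 1 + m ^ 2 / 2 ≤ Real.cosh m := le_cosh hm0.le
  nlinarith

lemma mass_sq {L : ℕ} (hL : 1 ≤ L) {m : ℝ} (hm0 : 0 < m) (hm : 2 * Real.cosh m - 2 = lam0 L) :
    lam0 L / 2 ≤ m ^ 2 := by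
  have h1 := mass_le hL hm0 hm
  have h2 := cosh_sub_one_le (x := m) (by rw [abs_of_pos hm0]; exact h1)
  linarith

lemma inv_mass_le {L : ℕ} (hL : 1 ≤ L) {m : ℝ} (hm0 : 0 < m)
    (hm : 2 * Real.cosh m - 2 = lam0 L) : 1 / m ≤ 3 * L := by
  have h2 := lam0_ge hL
  have h5 := mass_sq hL hm0 hm
  have hL' : (1 : ℝ) ≤ L := by exact_mod_cast hL
  have h3 : (1 / (3 * (L : ℝ))) ^ 2 ≤ m ^ 2 := by
    have : (1 / (3 * (L : ℝ))) ^ 2 = 4 / (9 * (L : ℝ) ^ 2) / 4 := by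
      field_simp
      norm_num
    rw [this]
    have h6 := lam0_pos hL
    linarith
  have h4 : 1 / (3 * (L : ℝ)) ≤ m := le_of_pow_le_pow_left₀ two_ne_zero hm0.le h3
  rw [div_le_iff₀ (by positivity)] at h4
  rw [div_le_iff₀ hm0]
  linarith

end

end Pool.Agent.N109.SlabU
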