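import Pool.Agent.N109.Slab.SD3
import Pool.Agent.N109.SlabU.Basic

/-!
# The slab, uniformly in the thickness: the asymptotic inequalities
-/

set_option autoImplicit false
set_option linter.unusedSectionVars false
set_option linter.unusedVariables false

open MeasureTheory Finset Function Filter Topology

namespace Pool.Agent.N109.SlabU

open Pool.Agent.N990 Pool.Agent.N109.Slab
open Pool.Agent.N990.Mach (FU)

noncomputable section

/-- the constants of the asymptotic inequalities -/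
def K1 (D L : ℕ) (κ : ℝ) : ℝ := ((D : ℝ) + 1) * (2 * CB D L + CT D L κ)

def Ka (D L : ℕ) (κ : ℝ) : ℝ := 2 * (D * L) * K1 D L κ ^ 2 + D * L * (κ + 2) +
  2 * (D * L) * K1 D L κ + 2 * (D * L) * ((D : ℝ) + 1) * CB D L

def Kb (D L N : ℕ) : ℝ := ((D : ℝ) + 1) * ((D : ℝ) + 1) * (D * L) * (4 * (D * L) * N + D * L +
  D * L * (2 * N) * (((D : ℝ) + 1) * (CB D L * (2 * N))))

def Kc (D L : ℕ) (κ : ℝ) : ℝ := K1 D L κ ^ 2 + K1 D L κ

def Kd (D L N : ℕ) : ℝ := ((D : ℝ) + 1) * ((D : ℝ) + 1) * (D * L) * (2 +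
  ((D : ℝ) + 1) * (CB D L * (2 * N)))

/-- the asymptotic inequalities -/
lemma asym_core (D L N : ℕ) {κ e : ℝ} (hκ : 0 ≤ κ) (he : 0 < e) (he2 : e ≤ 1 / 10) {β : ℝ}
    (hβ1 : 1 ≤ β)
    (a1 : 4 * β ^ (-1 / 2 - 4 * e) ≤ β ^ (-1 / 2 + e))
    (a2 : κ * β ^ (-1 / 2 - 4 * e) ≤ β ^ (0 : ℝ))
    (a3 : K1 D L κ * β ^ (-(3 * e) + e / 16) ≤ β ^ (0 : ℝ))
    (a4 : 2 * Ka D L κ * β ^ (-e + 3 * e / 16) ≤ β ^ (-(e / 4)))
    (a5 : 2 * Kb D L N * β ^ (-2 + 3 * e / 16) ≤ β ^ (-(e / 4)))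
    (a6 : Real.exp (-β ^ (e / 2)) ≤ β ^ (-4 : ℝ))
    (a7 : 2 * Kc D L κ * β ^ (1 / 2 - 2 * e + 2 * e / 16) ≤ β ^ (1 / 2 - e))
    (a8 : 2 * Kd D L N * β ^ (-2 + 3 * e / 16) ≤ β ^ (1 / 2 - e)) :
    ∀ y : ℝ, 0 ≤ y → y ≤ β ^ (e / 16) → ∀ δ t p0 n : ℝ,
      δ = β ^ (-1 / 2 + e) → t = β ^ (-1 / 2 - 4 * e) → p0 = Real.exp (-β ^ (e / 2)) →
      n = y * (D * L) →
      0 < t ∧ 4 * t ≤ δ ∧ δ ≤ 1 ∧ κ * t ≤ 1 ∧ Dt.xi D L κ β δ t y ≤ 1 ∧
      ((n * (2 * δ)) * Dt.xi D L κ β δ t y ^ 2 + n * ((κ + 2) * δ * t) +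
        (n * (2 * δ)) * Dt.rho D L κ β δ t y +
        (β * t) * ((n * (2 * t)) * ((D + 1) * y * (CB D L * δ)))) +
      ((D + 1) * ((D + 1) * y) * (D * L) * p0) * (2 * (n * (2 * N)) + t * n +
        (β * t) * ((n * (2 * N)) * ((D + 1) * y * (CB D L * (2 * N))))) ≤
        t * β ^ (-(e / 4)) ∧
      (Dt.xi D L κ β δ t y ^ 2 + Dt.rho D L κ β δ t y) +
      ((D + 1) * ((D + 1) * y) * (D * L) * p0) * (2 +
        (β * t) * ((D + 1) * y * (CB D L * (2 * N)))) ≤ t * β ^ (1 / 2 - e) := by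
  obtain ⟨cb, hcb⟩ : ∃ cb, cb = CB D L := ⟨_, rfl⟩
  obtain ⟨ct, hct⟩ : ∃ ct, ct = CT D L κ := ⟨_, rfl⟩
  have hcb0 : 0 ≤ cb := hcb ▸ CB_nonneg
  have hct0 : 0 ≤ ct := hct ▸ Dt.CT_nonneg hκ
  unfold Ka Kb Kd at *
  unfold Kc at *
  unfold K1 at *
  rw [← hcb, ← hct] at a3 a4 a7
  rw [← hcb] at a5 a8
  obtain ⟨K1, hK1⟩ : ∃ K1, K1 = ((D : ℝ) + 1) * (2 * cb + ct) := ⟨_, rfl⟩
  have hK10 : 0 ≤ K1 := by rw [hK1]; positivity
  obtain ⟨DL, hDL⟩ : ∃ DL, DL = (D : ℝ) * L := ⟨_, rfl⟩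
  have hDL0 : 0 ≤ DL := by rw [hDL]; positivity
  have hN0 : (0 : ℝ) ≤ N := Nat.cast_nonneg _
  rw [← hK1] at a3 a4 a7
  rw [← hDL] at a4 a5 a8
  obtain ⟨Ka, hKa⟩ : ∃ Ka, Ka = 2 * DL * K1 ^ 2 + DL * (κ + 2) + 2 * DL * K1 +
    2 * DL * ((D : ℝ) + 1) * cb := ⟨_, rfl⟩
  have hKa0 : 0 ≤ Ka := by rw [hKa]; positivity
  rw [← hKa] at a4
  obtain ⟨Kb, hKb⟩ : ∃ Kb, Kb = ((D : ℝ) + 1) * ((D : ℝ) + 1) * DL * (4 * DL * N + DL +
    DL * (2 * N) * (((D : ℝ) + 1) * (cb * (2 * N)))) := ⟨_, rfl⟩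
  have hKb0 : 0 ≤ Kb := by rw [hKb]; positivity
  rw [← hKb] at a5
  obtain ⟨Kc, hKc⟩ : ∃ Kc, Kc = K1 ^ 2 + K1 := ⟨_, rfl⟩
  have hKc0 : 0 ≤ Kc := by rw [hKc]; positivity
  rw [← hKc] at a7
  obtain ⟨Kd, hKd⟩ : ∃ Kd, Kd = ((D : ℝ) + 1) * ((D : ℝ) + 1) * DL * (2 +
    ((D : ℝ) + 1) * (cb * (2 * N))) := ⟨_, rfl⟩
  have hKd0 : 0 ≤ Kd := by rw [hKd]; positivity
  rw [← hKd] at a8
  intro y hy0 hy δ t p0 n hδ ht hp0 hn
  have hβ0 : 0 < β := by linarith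
  rw [Real.rpow_zero] at a2 a3
  rw [← ht] at a1 a2
  rw [← hδ] at a1
  rw [← hp0] at a6
  have ht0 : 0 < t := by rw [ht]; exact Real.rpow_pos_of_pos hβ0 _
  have hδ0 : 0 < δ := by rw [hδ]; exact Real.rpow_pos_of_pos hβ0 _
  have hδ1 : δ ≤ 1 := by
    rw [hδ]; exact Real.rpow_le_one_of_one_le_of_nonpos hβ1 (by linarith)
  have htδ : t ≤ δ := by linarith
  obtain ⟨u, hu⟩ : ∃ u, u = β ^ (e / 16) := ⟨_, rfl⟩
  rw [← hu] at hy
  have hu1 : 1 ≤ u := by rw [hu]; exact Real.one_le_rpow hβ1 (by linarith)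
  have hu0 : 0 ≤ u := by linarith
  obtain ⟨w12, w23, w13, w02⟩ := pw hu1
  -- monomials
  have m1 : β * t * δ = β ^ (-(3 * e)) := by
    rw [ht, hδ]
    nth_rewrite 1 [← Real.rpow_one β]
    rw [← Real.rpow_add hβ0, ← Real.rpow_add hβ0]
    congr 1; ring
  have m2 : δ * (β ^ (-(3 * e))) ^ 2 = t * β ^ (-e) := by
    rw [ht, hδ, ← Real.rpow_natCast, ← Real.rpow_mul hβ0.le, ← Real.rpow_add hβ0,
      ← Real.rpow_add hβ0]
    congr 1; push_cast; ring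
  have hp00 : 0 ≤ p0 := by rw [hp0]; exact (Real.exp_pos _).le
  -- the bound of xi
  have hxi0 : 0 ≤ Dt.xi D L κ β δ t y := by
    unfold Dt.xi Dt.rho
    rw [← hcb, ← hct]
    positivity
  have hrho : Dt.rho D L κ β δ t y ≤ K1 * y * (β * t * δ) := by
    unfold Dt.rho
    rw [← hcb, ← hct, hK1]
    have e1 := aux_e1 hcb0 hct0 ht0 htδ hδ1
    calc β * (((D : ℝ) + 1) * y * (cb * t ^ 2 + ct * (t * δ ^ 2))) ≤
          β * (((D : ℝ) + 1) * y * ((t * δ) * (cb + ct))) := by gcongr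
      _ = ((D : ℝ) + 1) * (cb + ct) * y * (β * t * δ) := by ring
      _ ≤ ((D : ℝ) + 1) * (2 * cb + ct) * y * (β * t * δ) := by gcongr; linarith
  have hxi : Dt.xi D L κ β δ t y ≤ K1 * y * (β * t * δ) := by
    unfold Dt.xi Dt.rho
    rw [← hcb, ← hct, hK1]
    have e1 := aux_e1 hcb0 hct0 ht0 htδ hδ1
    calc β * t * (((D : ℝ) + 1) * y * (cb * δ)) +
          β * (((D : ℝ) + 1) * y * (cb * t ^ 2 + ct * (t * δ ^ 2))) ≤
          β * t * (((D : ℝ) + 1) * y * (cb * δ)) +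
          β * (((D : ℝ) + 1) * y * ((t * δ) * (cb + ct))) := by gcongr
      _ = ((D : ℝ) + 1) * (2 * cb + ct) * y * (β * t * δ) := by ring
  rw [m1] at hxi hrho
  obtain ⟨s, hs⟩ : ∃ s, s = β ^ (-(3 * e)) := ⟨_, rfl⟩
  rw [← hs] at hxi hrho m1 m2
  have hs0 : 0 ≤ s := by rw [hs]; exact Real.rpow_nonneg hβ0.le _
  have hxiu : Dt.xi D L κ β δ t y ≤ K1 * u * s := by
    refine hxi.trans ?_; gcongr
  have hrhou : Dt.rho D L κ β δ t y ≤ K1 * u * s := by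
    refine hrho.trans ?_; gcongr
  have hus : u * s = β ^ (-(3 * e) + e / 16) := by
    rw [hu, hs, ← Real.rpow_add hβ0]; congr 1; ring
  refine ⟨ht0, a1, hδ1, a2, ?_, ?_, ?_⟩
  · refine hxiu.trans ?_
    rw [mul_assoc, hus]; exact a3
  · -- the main inequality
    have hnu : n ≤ DL * u := by rw [hn, ← hDL, mul_comm]; gcongr
    have hn0 : 0 ≤ n := by rw [hn]; positivity
    have b1 : (n * (2 * δ)) * Dt.xi D L κ β δ t y ^ 2 ≤ (2 * DL * K1 ^ 2) * u ^ 3 * (t * β ^ (-e)) := by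
      calc (n * (2 * δ)) * Dt.xi D L κ β δ t y ^ 2 ≤ (DL * u * (2 * δ)) * (K1 * u * s) ^ 2 := by
            gcongr
        _ = (2 * DL * K1 ^ 2) * u ^ 3 * (δ * s ^ 2) := by ring
        _ = _ := by rw [m2]
    have m3 : δ ≤ β ^ (-e) := by
      rw [hδ]; exact Real.rpow_le_rpow_of_exponent_le hβ1 (by linarith)
    have b2 : n * ((κ + 2) * δ * t) ≤ (DL * (κ + 2)) * u ^ 3 * (t * β ^ (-e)) := by
      calc n * ((κ + 2) * δ * t) ≤ (DL * u) * ((κ + 2) * β ^ (-e) * t) := by gcongr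
        _ = (DL * (κ + 2)) * u * (t * β ^ (-e)) := by ring
        _ ≤ (DL * (κ + 2)) * u ^ 3 * (t * β ^ (-e)) := by
            have h0 : 0 ≤ t * β ^ (-e) := mul_nonneg ht0.le (Real.rpow_nonneg hβ0.le _)
            gcongr
    -- δ * rho
    have m4 : β * (t * δ) ≤ β ^ (-e) := by
      rw [← mul_assoc, m1, hs]; exact Real.rpow_le_rpow_of_exponent_le hβ1 (by linarith)
    have m5 : β * δ ^ 3 ≤ β ^ (-e) := by
      have : β * δ ^ 3 = β ^ (1 + (-1 / 2 + e) * 3) := by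
        rw [hδ, ← Real.rpow_natCast, ← Real.rpow_mul hβ0.le]
        nth_rewrite 1 [← Real.rpow_one β]
        rw [← Real.rpow_add hβ0]
        norm_num
      rw [this]
      exact Real.rpow_le_rpow_of_exponent_le hβ1 (by linarith)
    have hβe : 0 ≤ β ^ (-e) := Real.rpow_nonneg hβ0.le _
    have b3 : (n * (2 * δ)) * Dt.rho D L κ β δ t y ≤ (2 * DL * K1) * u ^ 3 * (t * β ^ (-e)) := by
      have e1 : (n * (2 * δ)) * Dt.rho D L κ β δ t y = 2 * n * (((D : ℝ) + 1) * y) *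
          (t * (cb * (β * (t * δ)) + ct * (β * δ ^ 3))) := by
        unfold Dt.rho; rw [← hcb, ← hct]; ring
      rw [e1]
      calc 2 * n * (((D : ℝ) + 1) * y) * (t * (cb * (β * (t * δ)) + ct * (β * δ ^ 3))) ≤
            2 * (DL * u) * (((D : ℝ) + 1) * u) * (t * (cb * β ^ (-e) + ct * β ^ (-e))) := by
            have : 0 ≤ β * (t * δ) := by positivity
            have : 0 ≤ β * δ ^ 3 := by positivity
            gcongr
        _ = 2 * DL * (((D : ℝ) + 1) * (cb + ct)) * u ^ 2 * (t * β ^ (-e)) := by ring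
        _ ≤ 2 * DL * K1 * u ^ 3 * (t * β ^ (-e)) := by
            have h2 : ((D : ℝ) + 1) * (cb + ct) ≤ K1 := by
              rw [hK1]; gcongr; linarith
            have h0 : 0 ≤ t * β ^ (-e) := by positivity
            gcongr
    have b4 : (β * t) * ((n * (2 * t)) * ((D + 1) * y * (CB D L * δ))) ≤
        (2 * DL * ((D : ℝ) + 1) * cb) * u ^ 3 * (t * β ^ (-e)) := by
      rw [← hcb]
      calc (β * t) * ((n * (2 * t)) * ((D + 1) * y * (cb * δ))) =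
            2 * n * (((D : ℝ) + 1) * y) * cb * (t * (β * (t * δ))) := by ring
        _ ≤ 2 * (DL * u) * (((D : ℝ) + 1) * u) * cb * (t * β ^ (-e)) := by
            have : 0 ≤ β * (t * δ) := by positivity
            gcongr
        _ = (2 * DL * ((D : ℝ) + 1) * cb) * u ^ 2 * (t * β ^ (-e)) := by ring
        _ ≤ _ := by
            have h0 : 0 ≤ t * β ^ (-e) := by positivity
            gcongr
    have b5 : (n * (2 * δ)) * Dt.xi D L κ β δ t y ^ 2 + n * ((κ + 2) * δ * t) +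
        (n * (2 * δ)) * Dt.rho D L κ β δ t y +
        (β * t) * ((n * (2 * t)) * ((D + 1) * y * (CB D L * δ))) ≤ t * β ^ (-(e / 4)) / 2 := by
      have h1 : u ^ 3 * β ^ (-e) = β ^ (-e + 3 * e / 16) := by
        rw [hu, ← Real.rpow_natCast, ← Real.rpow_mul hβ0.le, ← Real.rpow_add hβ0]
        congr 1; push_cast; ring
      have h2 : Ka * u ^ 3 * (t * β ^ (-e)) ≤ t * β ^ (-(e / 4)) / 2 := by
        calc Ka * u ^ 3 * (t * β ^ (-e)) = t * (2 * Ka * (u ^ 3 * β ^ (-e))) / 2 := by ring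
          _ ≤ t * β ^ (-(e / 4)) / 2 := by
              rw [h1]
              exact aux_half ht0.le a4
      refine le_trans ?_ h2
      rw [hKa]
      linarith
    -- the term with p0
    have m6 : 1 ≤ t * β ^ (1 : ℝ) := by
      rw [ht, ← Real.rpow_add hβ0]
      exact Real.one_le_rpow hβ1 (by linarith)
    rw [Real.rpow_one] at m6
    have hbt : β * t ≤ t * β := by rw [mul_comm]
    have b6 : ((D + 1) * ((D + 1) * y) * (D * L) * p0) * (2 * (n * (2 * N)) + t * n +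
        (β * t) * ((n * (2 * N)) * ((D + 1) * y * (CB D L * (2 * N))))) ≤
        t * β ^ (-(e / 4)) / 2 := by
      rw [← hcb, ← hDL]
      have c1 : 2 * (n * (2 * N)) + t * n +
          (β * t) * ((n * (2 * N)) * ((D + 1) * y * (cb * (2 * N)))) ≤
          (4 * DL * N + DL + DL * (2 * N) * (((D : ℝ) + 1) * (cb * (2 * N)))) * u ^ 2 * (t * β) := by
        have d1 : 2 * (n * (2 * N)) ≤ 4 * DL * N * u ^ 2 * (t * β) := by
          calc 2 * (n * (2 * N)) ≤ 2 * (DL * u * (2 * N)) := by gcongr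
            _ = 4 * DL * N * u * 1 := by ring
            _ ≤ 4 * DL * N * u ^ 2 * (t * β) := by
                gcongr
        have d2 : t * n ≤ DL * u ^ 2 * (t * β) := by
          calc t * n ≤ t * (DL * u) := by gcongr
            _ = DL * u * (t * 1) := by ring
            _ ≤ DL * u ^ 2 * (t * β) := by
                gcongr
        have d3 : (β * t) * ((n * (2 * N)) * ((D + 1) * y * (cb * (2 * N)))) ≤
            DL * (2 * N) * (((D : ℝ) + 1) * (cb * (2 * N))) * u ^ 2 * (t * β) := by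
          calc (β * t) * ((n * (2 * N)) * ((D + 1) * y * (cb * (2 * N)))) ≤
                (β * t) * ((DL * u * (2 * N)) * ((D + 1) * u * (cb * (2 * N)))) := by gcongr
            _ = _ := by ring
        calc _ ≤ 4 * DL * N * u ^ 2 * (t * β) + DL * u ^ 2 * (t * β) +
              DL * (2 * N) * (((D : ℝ) + 1) * (cb * (2 * N))) * u ^ 2 * (t * β) :=
              add_le_add (add_le_add d1 d2) d3
          _ = _ := by ring
      have c2 : ((D : ℝ) + 1) * ((D + 1) * y) * DL * p0 ≤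
          ((D : ℝ) + 1) * ((D + 1) * u) * DL * β ^ (-4 : ℝ) := by gcongr
      have c3 : u ^ 3 * (β ^ (-4 : ℝ) * β) ≤ β ^ (-2 + 3 * e / 16) := by
        have h1 : β ^ (-4 : ℝ) * β = β ^ (-3 : ℝ) := by
          nth_rewrite 2 [← Real.rpow_one β]
          rw [← Real.rpow_add hβ0]; norm_num
        rw [h1, hu, ← Real.rpow_natCast, ← Real.rpow_mul hβ0.le, ← Real.rpow_add hβ0]
        refine Real.rpow_le_rpow_of_exponent_le hβ1 ?_
        push_cast; linarith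
      calc _ ≤ (((D : ℝ) + 1) * ((D + 1) * u) * DL * β ^ (-4 : ℝ)) *
            ((4 * DL * N + DL + DL * (2 * N) * (((D : ℝ) + 1) * (cb * (2 * N)))) * u ^ 2 *
              (t * β)) := by
            gcongr
        _ = t * (2 * Kb * (u ^ 3 * (β ^ (-4 : ℝ) * β))) / 2 := by rw [hKb]; ring
        _ ≤ t * (2 * Kb * β ^ (-2 + 3 * e / 16)) / 2 := by gcongr
        _ ≤ t * β ^ (-(e / 4)) / 2 := by gcongr
    linarith
  · -- the inequality for the constant observable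
    have m7 : s ^ 2 ≤ t * β ^ (1 / 2 - 2 * e) := by
      rw [hs, ht, ← Real.rpow_natCast, ← Real.rpow_mul hβ0.le, ← Real.rpow_add hβ0]
      refine Real.rpow_le_rpow_of_exponent_le hβ1 ?_
      push_cast; linarith
    have b1 : Dt.xi D L κ β δ t y ^ 2 ≤ K1 ^ 2 * u ^ 2 * (t * β ^ (1 / 2 - 2 * e)) := by
      calc Dt.xi D L κ β δ t y ^ 2 ≤ (K1 * u * s) ^ 2 := by gcongr
        _ = K1 ^ 2 * u ^ 2 * s ^ 2 := by ring
        _ ≤ _ := by gcongr
    have m8 : β * t ≤ β ^ (1 / 2 - 2 * e) := by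
      rw [ht]
      nth_rewrite 1 [← Real.rpow_one β]
      rw [← Real.rpow_add hβ0]
      exact Real.rpow_le_rpow_of_exponent_le hβ1 (by linarith)
    have m9 : β * δ ^ 2 ≤ β ^ (1 / 2 - 2 * e) := by
      have : β * δ ^ 2 = β ^ (2 * e) := by
        rw [hδ, ← Real.rpow_natCast, ← Real.rpow_mul hβ0.le]
        nth_rewrite 1 [← Real.rpow_one β]
        rw [← Real.rpow_add hβ0]
        congr 1; push_cast; ring
      rw [this]
      exact Real.rpow_le_rpow_of_exponent_le hβ1 (by linarith)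
    have b2 : Dt.rho D L κ β δ t y ≤ K1 * u ^ 2 * (t * β ^ (1 / 2 - 2 * e)) := by
      have e1 : Dt.rho D L κ β δ t y = (((D : ℝ) + 1) * y) *
          (t * (cb * (β * t) + ct * (β * δ ^ 2))) := by
        unfold Dt.rho; rw [← hcb, ← hct]; ring
      rw [e1]
      calc (((D : ℝ) + 1) * y) * (t * (cb * (β * t) + ct * (β * δ ^ 2))) ≤
            (((D : ℝ) + 1) * u) * (t * (cb * β ^ (1 / 2 - 2 * e) + ct * β ^ (1 / 2 - 2 * e))) := by
            gcongr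
        _ = (((D : ℝ) + 1) * (cb + ct)) * u * (t * β ^ (1 / 2 - 2 * e)) := by ring
        _ ≤ K1 * u ^ 2 * (t * β ^ (1 / 2 - 2 * e)) := by
            have h2 : ((D : ℝ) + 1) * (cb + ct) ≤ K1 := by
              rw [hK1]; gcongr; linarith
            have h0 : 0 ≤ t * β ^ (1 / 2 - 2 * e) :=
              mul_nonneg ht0.le (Real.rpow_nonneg hβ0.le _)
            gcongr
    have b3 : Dt.xi D L κ β δ t y ^ 2 + Dt.rho D L κ β δ t y ≤ t * β ^ (1 / 2 - e) / 2 := by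
      have h1 : u ^ 2 * β ^ (1 / 2 - 2 * e) = β ^ (1 / 2 - 2 * e + 2 * e / 16) := by
        rw [hu, ← Real.rpow_natCast, ← Real.rpow_mul hβ0.le, ← Real.rpow_add hβ0]
        congr 1; push_cast; ring
      calc _ ≤ K1 ^ 2 * u ^ 2 * (t * β ^ (1 / 2 - 2 * e)) +
            K1 * u ^ 2 * (t * β ^ (1 / 2 - 2 * e)) := add_le_add b1 b2
        _ = t * (2 * Kc * (u ^ 2 * β ^ (1 / 2 - 2 * e))) / 2 := by rw [hKc]; ring
        _ ≤ t * β ^ (1 / 2 - e) / 2 := by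
            rw [h1]
            exact aux_half ht0.le a7
    have m6 : 1 ≤ t * β ^ (1 : ℝ) := by
      rw [ht, ← Real.rpow_add hβ0]
      exact Real.one_le_rpow hβ1 (by linarith)
    rw [Real.rpow_one] at m6
    have b6 : ((D + 1) * ((D + 1) * y) * (D * L) * p0) * (2 +
        (β * t) * ((D + 1) * y * (CB D L * (2 * N)))) ≤ t * β ^ (1 / 2 - e) / 2 := by
      rw [← hcb, ← hDL]
      have c1 : 2 + (β * t) * ((D + 1) * y * (cb * (2 * N))) ≤
          (2 + (((D : ℝ) + 1) * (cb * (2 * N)))) * u ^ 2 * (t * β) := by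
        have d1 : (2 : ℝ) ≤ 2 * u ^ 2 * (t * β) := aux_two w02 m6
        have d3 : (β * t) * ((D + 1) * y * (cb * (2 * N))) ≤
            (((D : ℝ) + 1) * (cb * (2 * N))) * u ^ 2 * (t * β) := by
          calc (β * t) * ((D + 1) * y * (cb * (2 * N))) ≤
                (β * t) * ((D + 1) * u * (cb * (2 * N))) := by gcongr
            _ = (((D : ℝ) + 1) * (cb * (2 * N))) * u * (t * β) := by ring
            _ ≤ _ := by
                gcongr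
        calc _ ≤ 2 * u ^ 2 * (t * β) + (((D : ℝ) + 1) * (cb * (2 * N))) * u ^ 2 * (t * β) :=
              add_le_add d1 d3
          _ = _ := by ring
      have c2 : ((D : ℝ) + 1) * ((D + 1) * y) * DL * p0 ≤
          ((D : ℝ) + 1) * ((D + 1) * u) * DL * β ^ (-4 : ℝ) := by gcongr
      have c3 : u ^ 3 * (β ^ (-4 : ℝ) * β) ≤ β ^ (-2 + 3 * e / 16) := by
        have h1 : β ^ (-4 : ℝ) * β = β ^ (-3 : ℝ) := by
          nth_rewrite 2 [← Real.rpow_one β]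
          rw [← Real.rpow_add hβ0]; norm_num
        rw [h1, hu, ← Real.rpow_natCast, ← Real.rpow_mul hβ0.le, ← Real.rpow_add hβ0]
        refine Real.rpow_le_rpow_of_exponent_le hβ1 ?_
        push_cast; linarith
      calc _ ≤ (((D : ℝ) + 1) * ((D + 1) * u) * DL * β ^ (-4 : ℝ)) *
            ((2 + (((D : ℝ) + 1) * (cb * (2 * N)))) * u ^ 2 * (t * β)) := by
            gcongr
        _ = t * (2 * Kd * (u ^ 3 * (β ^ (-4 : ℝ) * β))) / 2 := by rw [hKd]; ring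
        _ ≤ t * (2 * Kd * β ^ (-2 + 3 * e / 16)) / 2 := by gcongr
        _ ≤ t * β ^ (1 / 2 - e) / 2 := by gcongr
    linarith

/-! ### polynomial bounds of the constants -/

/-- functions of the thickness -/
abbrev PL (f : ℕ → ℝ) : Prop := Pb (fun L : ℕ => (L : ℝ)) (fun L => 1 ≤ L) f

lemma hs1 : ∀ L : ℕ, 1 ≤ L → 1 ≤ (L : ℝ) := fun L hL => by exact_mod_cast hL

lemma PL_id : PL fun L => (L : ℝ) := Pb.sc hs1

lemma PL_CB (D : ℕ) : PL fun L => CB D L := by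
  unfold CB
  exact Pb.add hs1 ((Pb.cst 4).mul ((Pb.cst (D : ℝ)).mul PL_id))
    ((Pb.cst 16).mul ((Pb.cst ((D : ℝ) * D)).mul PL_id))

lemma PL_CT (D : ℕ) (κ : ℝ) : PL fun L => CT D L κ := by
  unfold CT
  exact (Pb.add hs1 ((Pb.cst (D : ℝ)).mul PL_id) ((Pb.cst ((D : ℝ) * D)).mul PL_id)).mul
    (Pb.cst (48 * κ + 304))

lemma PL_K1 (D : ℕ) (κ : ℝ) : PL fun L => K1 D L κ := by
  unfold K1
  exact (Pb.cst ((D : ℝ) + 1)).mul (Pb.add hs1 ((Pb.cst 2).mul (PL_CB D)) (PL_CT D κ))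

lemma PL_DL (D : ℕ) : PL fun L => (D : ℝ) * L := (Pb.cst (D : ℝ)).mul PL_id

lemma PL_Ka (D : ℕ) (κ : ℝ) : PL fun L => Ka D L κ := by
  unfold Ka
  exact Pb.add hs1 (Pb.add hs1 (Pb.add hs1 (((Pb.cst 2).mul (PL_DL D)).mul ((PL_K1 D κ).pow 2))
    ((PL_DL D).mul (Pb.cst (κ + 2)))) (((Pb.cst 2).mul (PL_DL D)).mul (PL_K1 D κ)))
    ((((Pb.cst 2).mul (PL_DL D)).mul (Pb.cst ((D : ℝ) + 1))).mul (PL_CB D))

lemma PL_Kb (D N : ℕ) : PL fun L => Kb D L N := by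
  unfold Kb
  exact ((Pb.cst (((D : ℝ) + 1) * ((D : ℝ) + 1))).mul (PL_DL D)).mul
    (Pb.add hs1 (Pb.add hs1 (((Pb.cst 4).mul (PL_DL D)).mul (Pb.cst (N : ℝ))) (PL_DL D))
      (((PL_DL D).mul (Pb.cst (2 * (N : ℝ)))).mul
        ((Pb.cst ((D : ℝ) + 1)).mul ((PL_CB D).mul (Pb.cst (2 * (N : ℝ)))))))

lemma PL_Kc (D : ℕ) (κ : ℝ) : PL fun L => Kc D L κ := by
  unfold Kc
  exact Pb.add hs1 ((PL_K1 D κ).pow 2) (PL_K1 D κ)

lemma PL_Kd (D N : ℕ) : PL fun L => Kd D L N := by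
  unfold Kd
  exact ((Pb.cst (((D : ℝ) + 1) * ((D : ℝ) + 1))).mul (PL_DL D)).mul
    (Pb.add hs1 (Pb.cst 2) ((Pb.cst ((D : ℝ) + 1)).mul ((PL_CB D).mul (Pb.cst (2 * (N : ℝ))))))

/-- **The asymptotic inequalities, uniformly in the thickness.** -/
lemma asymU (D N : ℕ) {κ e : ℝ} (hκ : 0 ≤ κ) (he : 0 < e) (he2 : e ≤ 1 / 10) :
    ∀ᶠ p in FU, ∀ L : ℕ, 1 ≤ L → (L : ℝ) ≤ p.2 →
      ∀ y : ℝ, 0 ≤ y → y ≤ p.1 ^ (e / 16) → ∀ δ t p0 n : ℝ,
      δ = p.1 ^ (-1 / 2 + e) → t = p.1 ^ (-1 / 2 - 4 * e) → p0 = Real.exp (-p.1 ^ (e / 2)) →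
      n = y * (D * L) →
      0 < t ∧ 4 * t ≤ δ ∧ δ ≤ 1 ∧ κ * t ≤ 1 ∧ Dt.xi D L κ p.1 δ t y ≤ 1 ∧
      ((n * (2 * δ)) * Dt.xi D L κ p.1 δ t y ^ 2 + n * ((κ + 2) * δ * t) +
        (n * (2 * δ)) * Dt.rho D L κ p.1 δ t y +
        (p.1 * t) * ((n * (2 * t)) * ((D + 1) * y * (CB D L * δ)))) +
      ((D + 1) * ((D + 1) * y) * (D * L) * p0) * (2 * (n * (2 * N)) + t * n +
        (p.1 * t) * ((n * (2 * N)) * ((D + 1) * y * (CB D L * (2 * N))))) ≤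
        t * p.1 ^ (-(e / 4)) ∧
      (Dt.xi D L κ p.1 δ t y ^ 2 + Dt.rho D L κ p.1 δ t y) +
      ((D + 1) * ((D + 1) * y) * (D * L) * p0) * (2 +
        (p.1 * t) * ((D + 1) * y * (CB D L * (2 * N)))) ≤ t * p.1 ^ (1 / 2 - e) := by
  have hs : ∀ L : ℕ, 1 ≤ L → 0 ≤ (L : ℝ) := fun L _ => Nat.cast_nonneg L
  have A1 := Pool.Agent.N990.Mach.fu_ev (evr (a := -1 / 2 + e) (b := -1 / 2 - 4 * e) 4 (by linarith))
  have A2 := Pool.Agent.N990.Mach.fu_ev (evr (a := 0) (b := -1 / 2 - 4 * e) κ (by linarith))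
  have A3 := (PL_K1 D κ).ev (a := 0) (b := -(3 * e) + e / 16) (by linarith) hs
  have A4 := ((Pb.cst 2).mul (PL_Ka D κ)).ev (a := -(e / 4)) (b := -e + 3 * e / 16) (by linarith) hs
  have A5 := ((Pb.cst 2).mul (PL_Kb D N)).ev (a := -(e / 4)) (b := -2 + 3 * e / 16) (by linarith) hs
  have A6 := Pool.Agent.N990.Mach.fu_ev (Pool.Agent.N109.Slab.ev_exp (a := e / 2) 4 (by linarith))
  have A7 := ((Pb.cst 2).mul (PL_Kc D κ)).ev (a := 1 / 2 - e) (b := 1 / 2 - 2 * e + 2 * e / 16)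
    (by linarith) hs
  have A8 := ((Pb.cst 2).mul (PL_Kd D N)).ev (a := 1 / 2 - e) (b := -2 + 3 * e / 16)
    (by linarith) hs
  filter_upwards [A1, A2, A3, A4, A5, A6, A7, A8, Pool.Agent.N990.Mach.fu_ge 1] with p a1 a2 a3 a4
    a5 a6 a7 a8 a9 L hL hLX
  exact asym_core D L N hκ he he2 a9 a1 a2 (a3 L hL hLX) (a4 L hL hLX) (a5 L hL hLX) a6
    (a7 L hL hLX) (a8 L hL hLX)

end

end Pool.Agent.N109.SlabU
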