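import Pool.Agent.N109.Slab.SDcore

/-!
# The central limit theorem for linear observables: abstract part
-/

set_option autoImplicit false
set_option linter.unusedSectionVars false
set_option linter.unusedVariables false

open MeasureTheory Filter Topology

namespace Pool.Agent.N109.SlabU

open Pool.Agent.N109.Slab

noncomputable section

/-- abstract Schwinger-Dyson inequality for nonlinear observables -/
theorem sd_core2 {Ω : Type*} [MeasurableSpace Ω] {μ : Measure Ω} [IsProbabilityMeasure μ]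
    {F F' F1 B X : Ω → ℝ} {Gd Gd' : Set Ω} (hG : MeasurableSet Gd) (hG' : MeasurableSet Gd')
    (mF : Measurable F) (mB : Measurable B) (mF' : Measurable F') (mX : Measurable X)
    (mF1 : Measurable F1)
    {M M1 MB m r1 r2 ρ ξ bB b t p : ℝ}
    (hid : ∫ ω in Gd', F ω ∂μ = ∫ ω in Gd, F' ω * Real.exp (-X ω) ∂μ)
    (hF : ∀ ω, |F ω| ≤ M) (hF1 : ∀ ω, |F1 ω| ≤ M1) (hB : ∀ ω, |B ω| ≤ MB)
    (hF' : ∀ ω ∈ Gd, |F' ω| ≤ m) (h1 : ∀ ω ∈ Gd, |F' ω - F ω - t * F1 ω| ≤ r1)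
    (h2 : ∀ ω ∈ Gd, |F' ω - F ω| ≤ r2)
    (hX : ∀ ω ∈ Gd, |X ω - b * B ω| ≤ ρ) (hX2 : ∀ ω ∈ Gd, |X ω| ≤ ξ) (hξ : ξ ≤ 1)
    (hBG : ∀ ω ∈ Gd, |B ω| ≤ bB) (hb : 0 ≤ b) (ht : 0 ≤ t)
    (hM : 0 ≤ M) (hM1 : 0 ≤ M1) (hMB : 0 ≤ MB) (hm : 0 ≤ m) (hr1 : 0 ≤ r1) (hr2 : 0 ≤ r2)
    (hρ : 0 ≤ ρ) (hbB : 0 ≤ bB)
    (hp : μ.real Gdᶜ ≤ p) (hp' : μ.real Gd'ᶜ ≤ p) :
    |b * ∫ ω, F ω * B ω ∂μ - t * ∫ ω, F1 ω ∂μ| ≤
      (m * ξ ^ 2 + r1 + m * ρ + b * (r2 * bB)) + p * (2 * M + t * M1 + b * (M * MB)) := by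
  set r : ℝ := m * ξ ^ 2 + r1 + m * ρ + b * (r2 * bB) with hr
  -- integrability
  have iF : Integrable F μ :=
    Integrable.of_bound mF.aestronglyMeasurable M (Filter.Eventually.of_forall hF)
  have iF1 : Integrable F1 μ :=
    Integrable.of_bound mF1.aestronglyMeasurable M1 (Filter.Eventually.of_forall hF1)
  have iFB : Integrable (fun ω => F ω * B ω) μ := by
    refine Integrable.of_bound (mF.mul mB).aestronglyMeasurable (M * MB)
      (Filter.Eventually.of_forall fun ω => ?_)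
    rw [Real.norm_eq_abs, abs_mul]
    exact mul_le_mul (hF ω) (hB ω) (abs_nonneg _) hM
  set g : Ω → ℝ := fun ω => F ω + t * F1 ω - b * (F ω * B ω) with hg
  have ig : Integrable g μ := (iF.add (iF1.const_mul t)).sub (iFB.const_mul b)
  have hgb : ∀ ω, |g ω| ≤ M + t * M1 + b * (M * MB) := by
    intro ω
    have a1 := hF ω
    have a1' := hF1 ω
    have a2 : |F ω * B ω| ≤ M * MB := by
      rw [abs_mul]; exact mul_le_mul (hF ω) (hB ω) (abs_nonneg _) hM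
    have a3 : |g ω| ≤ |F ω| + |t * F1 ω| + |b * (F ω * B ω)| := by
      rw [hg]
      simp only
      have := abs_sub (F ω + t * F1 ω) (b * (F ω * B ω))
      have := abs_add_le (F ω) (t * F1 ω)
      linarith
    rw [abs_mul t, abs_of_nonneg ht, abs_mul b, abs_of_nonneg hb] at a3
    have := mul_le_mul_of_nonneg_left a2 hb
    have := mul_le_mul_of_nonneg_left a1' ht
    linarith
  -- pointwise comparison on the good set
  have hpt : ∀ ω ∈ Gd, |F' ω * Real.exp (-X ω) - g ω| ≤ r := by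
    intro ω hω
    have e1 := exp_second ((hX2 ω hω).trans hξ)
    have e2 : X ω ^ 2 ≤ ξ ^ 2 := by
      rw [← sq_abs (X ω)]
      exact pow_le_pow_left₀ (abs_nonneg _) (hX2 ω hω) 2
    have e3 : F' ω * Real.exp (-X ω) - g ω =
        F' ω * (Real.exp (-X ω) - (1 - X ω)) + (F' ω - F ω - t * F1 ω) -
        F' ω * (X ω - b * B ω) - b * ((F' ω - F ω) * B ω) := by
      rw [hg]; ring
    rw [e3]
    have b1 : |F' ω * (Real.exp (-X ω) - (1 - X ω))| ≤ m * ξ ^ 2 := by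
      rw [abs_mul]
      exact mul_le_mul (hF' ω hω) (e1.trans e2) (abs_nonneg _) hm
    have b2 := h1 ω hω
    have b3 : |F' ω * (X ω - b * B ω)| ≤ m * ρ := by
      rw [abs_mul]
      exact mul_le_mul (hF' ω hω) (hX ω hω) (abs_nonneg _) hm
    have b4 : |b * ((F' ω - F ω) * B ω)| ≤ b * (r2 * bB) := by
      rw [abs_mul, abs_of_nonneg hb, abs_mul]
      exact mul_le_mul_of_nonneg_left (mul_le_mul (h2 ω hω) (hBG ω hω) (abs_nonneg _) hr2) hb
    have c1 := abs_sub (F' ω * (Real.exp (-X ω) - (1 - X ω)) + (F' ω - F ω - t * F1 ω) -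
        F' ω * (X ω - b * B ω)) (b * ((F' ω - F ω) * B ω))
    have c2 := abs_sub (F' ω * (Real.exp (-X ω) - (1 - X ω)) + (F' ω - F ω - t * F1 ω))
        (F' ω * (X ω - b * B ω))
    have c3 := abs_add_le (F' ω * (Real.exp (-X ω) - (1 - X ω))) (F' ω - F ω - t * F1 ω)
    rw [hr]
    linarith
  have iE : IntegrableOn (fun ω => F' ω * Real.exp (-X ω)) Gd μ := by
    have : IntegrableOn (fun ω => (F' ω * Real.exp (-X ω) - g ω) + g ω) Gd μ := by
      refine Integrable.add ?_ ig.integrableOn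
      refine Integrable.of_bound (C := r) ?_ ?_
      · have mg : Measurable g := by
          rw [hg]; exact (mF.add (mF1.const_mul t)).sub ((mF.mul mB).const_mul b)
        exact ((mF'.mul mX.neg.exp).sub mg).aestronglyMeasurable
      · filter_upwards [ae_restrict_mem hG] with ω hω
        exact hpt ω hω
    simpa using this
  have hr0 : 0 ≤ r := by rw [hr]; positivity
  -- integrated comparison
  have hint : |∫ ω in Gd', F ω ∂μ - ∫ ω in Gd, g ω ∂μ| ≤ r := by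
    rw [hid, ← integral_sub iE ig.integrableOn]
    have := norm_setIntegral_le_of_norm_le_const (μ := μ) (s := Gd) (C := r)
      (f := fun ω => F' ω * Real.exp (-X ω) - g ω) (measure_lt_top μ _)
      (fun ω hω => hpt ω hω)
    rw [Real.norm_eq_abs] at this
    refine this.trans ?_
    have h9 : μ.real Gd ≤ 1 := measureReal_le_one
    nlinarith
  have s1 : ∫ ω, F ω ∂μ = ∫ ω in Gd', F ω ∂μ + ∫ ω in Gd'ᶜ, F ω ∂μ :=
    (integral_add_compl hG' iF).symm
  have s2 : ∫ ω, g ω ∂μ = ∫ ω in Gd, g ω ∂μ + ∫ ω in Gdᶜ, g ω ∂μ :=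
    (integral_add_compl hG ig).symm
  have t1 : |∫ ω in Gd'ᶜ, F ω ∂μ| ≤ M * p := by
    have := norm_setIntegral_le_of_norm_le_const (μ := μ) (s := Gd'ᶜ) (C := M)
      (f := F) (measure_lt_top μ _) (fun ω _ => hF ω)
    exact this.trans (mul_le_mul_of_nonneg_left hp' hM)
  have t2 : |∫ ω in Gdᶜ, g ω ∂μ| ≤ (M + t * M1 + b * (M * MB)) * p := by
    have := norm_setIntegral_le_of_norm_le_const (μ := μ) (s := Gdᶜ)
      (C := M + t * M1 + b * (M * MB))
      (f := g) (measure_lt_top μ _) (fun ω _ => hgb ω)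
    exact this.trans (mul_le_mul_of_nonneg_left hp (by positivity))
  have s3 : ∫ ω, g ω ∂μ = ∫ ω, F ω ∂μ + t * ∫ ω, F1 ω ∂μ - b * ∫ ω, F ω * B ω ∂μ := by
    have i1 : Integrable (fun ω => F ω + t * F1 ω) μ := iF.add (iF1.const_mul t)
    have i2 : Integrable (fun ω => b * (F ω * B ω)) μ := iFB.const_mul b
    calc ∫ ω, g ω ∂μ = ∫ ω, ((F ω + t * F1 ω) - b * (F ω * B ω)) ∂μ := rfl
      _ = ∫ ω, (F ω + t * F1 ω) ∂μ - ∫ ω, b * (F ω * B ω) ∂μ := integral_sub i1 i2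
      _ = (∫ ω, F ω ∂μ + ∫ ω, t * F1 ω ∂μ) - ∫ ω, b * (F ω * B ω) ∂μ := by
          rw [integral_add iF (iF1.const_mul t)]
      _ = _ := by
          rw [integral_const_mul, integral_const_mul]
  have key : b * ∫ ω, F ω * B ω ∂μ - t * ∫ ω, F1 ω ∂μ =
      (∫ ω in Gd', F ω ∂μ - ∫ ω in Gd, g ω ∂μ) + ∫ ω in Gd'ᶜ, F ω ∂μ -
      ∫ ω in Gdᶜ, g ω ∂μ := by
    linarith
  rw [key]
  have c1 := abs_sub ((∫ ω in Gd', F ω ∂μ - ∫ ω in Gd, g ω ∂μ) + ∫ ω in Gd'ᶜ, F ω ∂μ)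
    (∫ ω in Gdᶜ, g ω ∂μ)
  have c2 := abs_add_le (∫ ω in Gd', F ω ∂μ - ∫ ω in Gd, g ω ∂μ) (∫ ω in Gd'ᶜ, F ω ∂μ)
  nlinarith

/-! ### the differential inequality -/

lemma ode {h h' : ℝ → ℝ} {C η : ℝ} (hC : 0 ≤ C) (hη : 0 ≤ η)
    (hd : ∀ s, HasDerivAt h (h' s) s)
    (hb : ∀ s, 0 ≤ s → s ≤ 1 → |h' s + s * C * h s| ≤ η) :
    |h 1 - h 0 * Real.exp (-(C / 2))| ≤ η := by
  obtain ⟨φ, hφ⟩ : ∃ φ : ℝ → ℝ, φ = fun s => Real.exp (C * s ^ 2 / 2) * h s := ⟨_, rfl⟩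
  have hφd : ∀ s, HasDerivAt φ (Real.exp (C * s ^ 2 / 2) * (h' s + s * C * h s)) s := by
    intro s
    have h1 : HasDerivAt (fun s : ℝ => C * s ^ 2 / 2) (C * s) s := by
      have := ((hasDerivAt_pow 2 s).const_mul C).div_const 2
      refine this.congr_deriv ?_
      push_cast
      ring
    have h2 := h1.exp.mul (hd s)
    rw [hφ]
    refine h2.congr_deriv ?_
    ring
  have h1 : ‖φ 1 - φ 0‖ ≤ (Real.exp (C / 2) * η) * ‖(1 : ℝ) - 0‖ := by
    refine Convex.norm_image_sub_le_of_norm_hasDerivWithin_le (s := Set.Icc (0 : ℝ) 1)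
      (f' := fun s => Real.exp (C * s ^ 2 / 2) * (h' s + s * C * h s))
      (fun s hs => (hφd s).hasDerivWithinAt) (fun s hs => ?_) (convex_Icc 0 1)
      (Set.left_mem_Icc.2 zero_le_one) (Set.right_mem_Icc.2 zero_le_one)
    rw [Real.norm_eq_abs, abs_mul, Real.abs_exp]
    refine mul_le_mul (Real.exp_le_exp.2 ?_) (hb s hs.1 hs.2) (abs_nonneg _) (Real.exp_pos _).le
    have : s ^ 2 ≤ 1 := pow_le_one₀ hs.1 hs.2
    nlinarith
  rw [sub_zero, norm_one, mul_one, Real.norm_eq_abs] at h1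
  have h2 : h 1 - h 0 * Real.exp (-(C / 2)) = Real.exp (-(C / 2)) * (φ 1 - φ 0) := by
    rw [hφ]
    simp only [one_pow, mul_one, ne_eq, OfNat.ofNat_ne_zero, not_false_eq_true, zero_pow, mul_zero,
      zero_div, Real.exp_zero, one_mul]
    have e1 : Real.exp (-(C / 2)) * Real.exp (C / 2) = 1 := by
      rw [← Real.exp_add, neg_add_cancel, Real.exp_zero]
    linear_combination (-(h 1)) * e1
  rw [h2, abs_mul, Real.abs_exp]
  calc Real.exp (-(C / 2)) * |φ 1 - φ 0| ≤ Real.exp (-(C / 2)) * (Real.exp (C / 2) * η) :=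
        mul_le_mul_of_nonneg_left h1 (Real.exp_pos _).le
    _ = η := by
        rw [← mul_assoc, ← Real.exp_add, neg_add_cancel, Real.exp_zero, one_mul]

/-! ### derivatives of the characteristic function -/

section deriv

variable {Ω : Type*} [MeasurableSpace Ω] {μ : Measure Ω} [IsProbabilityMeasure μ] {Φ : Ω → ℝ}
  {M : ℝ}

lemma deriv_cos (mΦ : Measurable Φ) (hΦ : ∀ ω, |Φ ω| ≤ M) (s : ℝ) :
    HasDerivAt (fun s : ℝ => ∫ ω, Real.cos (s * Φ ω) ∂μ) (-∫ ω, Real.sin (s * Φ ω) * Φ ω ∂μ) s := by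
  have h := hasDerivAt_integral_of_dominated_loc_of_deriv_le (μ := μ) (bound := fun _ => M)
    (F := fun s ω => Real.cos (s * Φ ω)) (F' := fun s ω => -(Real.sin (s * Φ ω) * Φ ω))
    (x₀ := s) (s := Set.univ) univ_mem
    (Filter.Eventually.of_forall fun x =>
      (Real.measurable_cos.comp (mΦ.const_mul x)).aestronglyMeasurable) ?_ ?_ ?_
      (integrable_const M) ?_
  · have h2 := h.2
    rwa [integral_neg] at h2
  · refine Integrable.of_bound
      (Real.measurable_cos.comp (mΦ.const_mul s)).aestronglyMeasurable 1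
      (Filter.Eventually.of_forall fun ω => Real.abs_cos_le_one _)
  · exact (((Real.measurable_sin.comp (mΦ.const_mul s)).mul mΦ).neg).aestronglyMeasurable
  · refine Filter.Eventually.of_forall fun ω x _ => ?_
    rw [norm_neg, Real.norm_eq_abs, abs_mul]
    calc |Real.sin (x * Φ ω)| * |Φ ω| ≤ 1 * M :=
          mul_le_mul (Real.abs_sin_le_one _) (hΦ ω) (abs_nonneg _) zero_le_one
      _ = M := one_mul M
  · refine Filter.Eventually.of_forall fun ω x _ => ?_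
    have h1 : HasDerivAt (fun x : ℝ => x * Φ ω) (Φ ω) x := by
      have := (hasDerivAt_id x).mul_const (Φ ω)
      rwa [one_mul] at this
    refine h1.cos.congr_deriv ?_
    ring

lemma deriv_sin (mΦ : Measurable Φ) (hΦ : ∀ ω, |Φ ω| ≤ M) (s : ℝ) :
    HasDerivAt (fun s : ℝ => ∫ ω, Real.sin (s * Φ ω) ∂μ) (∫ ω, Real.cos (s * Φ ω) * Φ ω ∂μ) s := by
  have h := hasDerivAt_integral_of_dominated_loc_of_deriv_le (μ := μ) (bound := fun _ => M)
    (F := fun s ω => Real.sin (s * Φ ω)) (F' := fun s ω => Real.cos (s * Φ ω) * Φ ω)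
    (x₀ := s) (s := Set.univ) univ_mem
    (Filter.Eventually.of_forall fun x =>
      (Real.measurable_sin.comp (mΦ.const_mul x)).aestronglyMeasurable) ?_ ?_ ?_
      (integrable_const M) ?_
  · exact h.2
  · refine Integrable.of_bound
      (Real.measurable_sin.comp (mΦ.const_mul s)).aestronglyMeasurable 1
      (Filter.Eventually.of_forall fun ω => Real.abs_sin_le_one _)
  · exact ((Real.measurable_cos.comp (mΦ.const_mul s)).mul mΦ).aestronglyMeasurable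
  · refine Filter.Eventually.of_forall fun ω x _ => ?_
    rw [Real.norm_eq_abs, abs_mul]
    calc |Real.cos (x * Φ ω)| * |Φ ω| ≤ 1 * M :=
          mul_le_mul (Real.abs_cos_le_one _) (hΦ ω) (abs_nonneg _) zero_le_one
      _ = M := one_mul M
  · refine Filter.Eventually.of_forall fun ω x _ => ?_
    have h1 : HasDerivAt (fun x : ℝ => x * Φ ω) (Φ ω) x := by
      have := (hasDerivAt_id x).mul_const (Φ ω)
      rwa [one_mul] at this
    exact h1.sin

/-- **The characteristic function from the Schwinger-Dyson inequalities.** -/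
theorem char_of_sd (mΦ : Measurable Φ) (hΦ : ∀ ω, |Φ ω| ≤ M) {C η : ℝ} (hC : 0 ≤ C) (hη : 0 ≤ η)
    (hs : ∀ s, 0 ≤ s → s ≤ 1 →
      |∫ ω, Real.sin (s * Φ ω) * Φ ω ∂μ - s * C * ∫ ω, Real.cos (s * Φ ω) ∂μ| ≤ η)
    (hc : ∀ s, 0 ≤ s → s ≤ 1 →
      |∫ ω, Real.cos (s * Φ ω) * Φ ω ∂μ + s * C * ∫ ω, Real.sin (s * Φ ω) ∂μ| ≤ η) :
    ‖∫ ω, Complex.exp (Complex.I * (Φ ω : ℂ)) ∂μ - Complex.exp (-((C / 2 : ℝ) : ℂ))‖ ≤ 2 * η := by
  have h1 := ode (h := fun s : ℝ => ∫ ω, Real.cos (s * Φ ω) ∂μ)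
    (h' := fun s : ℝ => -∫ ω, Real.sin (s * Φ ω) * Φ ω ∂μ) hC hη (deriv_cos mΦ hΦ)
    (fun s h0 h1 => by
      have := hs s h0 h1
      rw [← abs_neg] at this
      refine le_trans (le_of_eq ?_) this
      congr 1
      ring)
  have h2 := ode (h := fun s : ℝ => ∫ ω, Real.sin (s * Φ ω) ∂μ)
    (h' := fun s : ℝ => ∫ ω, Real.cos (s * Φ ω) * Φ ω ∂μ) hC hη (deriv_sin mΦ hΦ) hc
  simp only [zero_mul, Real.cos_zero, Real.sin_zero, integral_const, probReal_univ, smul_eq_mul,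
    mul_one, one_mul, mul_zero, sub_zero] at h1 h2
  have mc : Integrable (fun ω => Real.cos (Φ ω)) μ :=
    Integrable.of_bound (Real.measurable_cos.comp mΦ).aestronglyMeasurable 1
      (Filter.Eventually.of_forall fun ω => Real.abs_cos_le_one _)
  have ms : Integrable (fun ω => Real.sin (Φ ω)) μ :=
    Integrable.of_bound (Real.measurable_sin.comp mΦ).aestronglyMeasurable 1
      (Filter.Eventually.of_forall fun ω => Real.abs_sin_le_one _)
  have e1 : ∫ ω, Complex.exp (Complex.I * (Φ ω : ℂ)) ∂μ =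
      ((∫ ω, Real.cos (Φ ω) ∂μ : ℝ) : ℂ) + ((∫ ω, Real.sin (Φ ω) ∂μ : ℝ) : ℂ) * Complex.I := by
    have i1 : ∫ ω, ((Real.cos (Φ ω) : ℝ) : ℂ) ∂μ = ((∫ ω, Real.cos (Φ ω) ∂μ : ℝ) : ℂ) :=
      integral_ofReal
    have i2 : ∫ ω, ((Real.sin (Φ ω) : ℝ) : ℂ) ∂μ = ((∫ ω, Real.sin (Φ ω) ∂μ : ℝ) : ℂ) :=
      integral_ofReal
    have m1 : Integrable (fun ω => ((Real.cos (Φ ω) : ℝ) : ℂ)) μ := mc.ofReal
    have m2 : Integrable (fun ω => ((Real.sin (Φ ω) : ℝ) : ℂ) * Complex.I) μ :=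
      ms.ofReal.mul_const _
    rw [← i1, ← i2, ← integral_mul_const, ← integral_add m1 m2]
    refine integral_congr_ae (Filter.Eventually.of_forall fun ω => ?_)
    show Complex.exp (Complex.I * (Φ ω : ℂ)) = _
    rw [mul_comm, Complex.exp_mul_I, ← Complex.ofReal_cos, ← Complex.ofReal_sin]
  have e2 : Complex.exp (-((C / 2 : ℝ) : ℂ)) = ((Real.exp (-(C / 2)) : ℝ) : ℂ) := by
    rw [← Complex.ofReal_neg, ← Complex.ofReal_exp]
  rw [e1, e2]
  have e3 : ((∫ ω, Real.cos (Φ ω) ∂μ : ℝ) : ℂ) + ((∫ ω, Real.sin (Φ ω) ∂μ : ℝ) : ℂ) * Complex.I -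
      ((Real.exp (-(C / 2)) : ℝ) : ℂ) =
      (((∫ ω, Real.cos (Φ ω) ∂μ) - Real.exp (-(C / 2)) : ℝ) : ℂ) +
        ((∫ ω, Real.sin (Φ ω) ∂μ : ℝ) : ℂ) * Complex.I := by
    push_cast
    ring
  rw [e3]
  refine (norm_add_le _ _).trans ?_
  rw [norm_mul, Complex.norm_I, mul_one, Complex.norm_real, Complex.norm_real, Real.norm_eq_abs,
    Real.norm_eq_abs]
  linarith

end deriv

end

end Pool.Agent.N109.SlabU
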