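import Pool.Agent.N109.Slab.Lim
import Pool.Agent.N109.SlabU.AsymU

/-!
# The slab, uniformly in the thickness: bounds of the variance
-/

set_option autoImplicit false
set_option linter.unusedSectionVars false
set_option linter.unusedVariables false

open MeasureTheory Finset Function Filter Topology

namespace Pool.Agent.N109.SlabU

open Pool.Agent.N990 Pool.Agent.N109.Slab
open Pool.Agent.N990.Mach (FU)

noncomputable section

variable {N D L : ℕ} {G : Subgroup (UU N)} [MeasurableSpace G] [BorelSpace G]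

/-- **The Schwinger-Dyson limit**, uniformly in the thickness. -/
theorem sd_limU {D : ℕ} {X : Mt N} {γ : ℝ → G} {κ : ℝ} (h1 : OneP X γ κ) {e : ℝ} (he : 0 < e)
    (he2 : e ≤ 1 / 10) :
    ∀ᶠ p in FU, ∀ L : ℕ, 1 ≤ L → (L : ℝ) ≤ p.2 → ∀ μ : Measure (Cf G D L), Stt G D L e p.1 μ →
      ∀ (V : Finset (Site D)) (ω c : SF D L), (V.card : ℝ) ≤ p.1 ^ (e / 16) →
      (∀ x a, |ω x a| ≤ 1) → (∀ x, x ∉ V → ω x = 0) → (∀ x a, |c x a| ≤ 1) →
      |p.1 * ∫ σ, pr V c (sc X σ) * Bf V ω (sc X σ) ∂μ - pr V c ω| ≤ p.1 ^ (-(e / 4)) ∧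
      |p.1 * ∫ σ, Bf V ω (sc X σ) ∂μ| ≤ p.1 ^ (1 / 2 - e) := by
  filter_upwards [asymU D N h1.hκ he he2, Pool.Agent.N990.Mach.fu_ge 1] with ⟨β, Y⟩ H hβ1 L hL hLX
    μ hμ V ω c hV hω1 hω0 hc
  dsimp only at H hβ1 hLX hμ hV ⊢
  have hβ0 : 0 ≤ β := by linarith
  obtain ⟨t0, t1, t2, t3, t4, t5, t6⟩ := H L hL hLX V.card (Nat.cast_nonneg _) hV _ _ _
    (V.card * (D * L)) rfl rfl rfl rfl
  set δ := β ^ (-1 / 2 + e) with hδ
  set t := β ^ (-1 / 2 - 4 * e) with ht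
  have hd : Dt G D L β μ X γ κ δ t (Real.exp (-β ^ (e / 2))) V ω :=
    ⟨hμ.shf, h1, hβ0, t0, t1, t2, t3, hω1, hω0, hμ.mb⟩
  have m1 := hd.main hc t4 (Real.exp_pos _).le rfl
  have m2 := hd.main1 t4 (Real.exp_pos _).le
  have n1 := m1.trans t5
  have n2 := m2.trans t6
  constructor
  · have e1 : (β * t) * ∫ σ, pr V c (sc X σ) * Dt.BB X V ω σ ∂μ - t * pr V c ω =
        t * (β * ∫ σ, pr V c (sc X σ) * Bf V ω (sc X σ) ∂μ - pr V c ω) := by
      have : ∀ σ : Cf G D L, Dt.BB X V ω σ = Bf V ω (sc X σ) := fun σ => rfl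
      simp only [this]; ring
    rw [e1, abs_mul, abs_of_pos t0] at n1
    exact le_of_mul_le_mul_left n1 t0
  · have e1 : (β * t) * ∫ σ, Dt.BB X V ω σ ∂μ = t * (β * ∫ σ, Bf V ω (sc X σ) ∂μ) := by
      have : ∀ σ : Cf G D L, Dt.BB X V ω σ = Bf V ω (sc X σ) := fun σ => rfl
      simp only [this]; ring
    rw [e1, abs_mul, abs_of_pos t0] at n2
    exact le_of_mul_le_mul_left n2 t0

/-! ### Green functions -/

/-- the constant of the Green function -/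
def Cgr (D L : ℕ) (α : ℝ) (R0 : ℕ) : ℝ := ((box D R0).card * (D * L)) *
  (1 / (lam0 L - (2 * Real.cosh α - 2)) * Real.exp (2 * α))

lemma Cgr_nonneg {α : ℝ} (h : 2 * Real.cosh α - 2 < lam0 L) (R0 : ℕ) : 0 ≤ Cgr D L α R0 := by
  have hδ : 0 < lam0 L - (2 * Real.cosh α - 2) := by linarith
  unfold Cgr
  positivity

/-- The approximate solution in a box with source `g` in a smaller box. -/
lemma exists_green {α : ℝ} (hα : 0 < α) (h : 2 * Real.cosh α - 2 < lam0 L) (R0 : ℕ) :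
    ∀ (g : SF D L), (∀ x, x ∉ box D R0 → g x = 0) → (∀ x a, |g x a| ≤ 1) →
      ∀ R : ℕ, R0 ≤ R → ∃ ω : SF D L, (∀ x, x ∉ box D R → ω x = 0) ∧
        (∀ χ : SF D L, (∀ x, x ∉ box D R → χ x = 0) →
          Bf (box D R) χ ω = pr (box D R) g χ) ∧
        (∀ x a, |ω x a| ≤ Cgr D L α R0 * (Real.exp (α * R0) * Real.exp (-(α * dd x 0)))) := by
  classical
  have hL : 0 < lam0 L := by
    have := Real.one_le_cosh α; linarith
  have hδ : 0 < lam0 L - (2 * Real.cosh α - 2) := by linarith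
  obtain ⟨C0, hC0⟩ : ∃ C0, C0 = 1 / (lam0 L - (2 * Real.cosh α - 2)) * Real.exp (2 * α) :=
    ⟨_, rfl⟩
  have hC00 : 0 ≤ C0 := by rw [hC0]; positivity
  intro g hg hg1 R hR
  -- point sources
  have hpt : ∀ y : Site D, ∀ b : Lab D L, ∃ k : SF D L, (∀ x, x ∉ box D R → k x = 0) ∧
      (∀ χ : SF D L, (∀ x, x ∉ box D R → χ x = 0) → Bf (box D R) χ k = χ y b) ∧
      ∀ x a, |k x a| ≤ C0 * Real.exp (-(α * dd x y)) := by
    intro y b
    obtain ⟨k, hk, hk2⟩ := exists_sol_gen hL (box D R)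
      ((LinearMap.proj b : (Lab D L → ℝ) →ₗ[ℝ] ℝ) ∘ₗ
        (LinearMap.proj y : (Site D → Lab D L → ℝ) →ₗ[ℝ] (Lab D L → ℝ)))
    refine ⟨k, hk, hk2, fun x a => ?_⟩
    have := decay_gen (C1 := 1) zero_le_one hα.le h (box D R) y k hk (fun χ M hχ hM hM2 => by
      rw [hk2 χ hχ, one_mul]
      exact hM2 y (by rw [dd_le]; intro i; simp) b) x a
    rw [hC0]; exact this
  choose k hk1 hk2 hk3 using hpt
  refine ⟨∑ y ∈ box D R0, ∑ b, g y b • k y b, fun x hx => ?_, fun χ hχ => ?_, fun x a => ?_⟩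
  · simp only [Finset.sum_apply, Pi.smul_apply]
    refine Finset.sum_eq_zero fun y _ => Finset.sum_eq_zero fun b _ => ?_
    rw [hk1 y b x hx, smul_zero]
  · simp only [map_sum, map_smul, smul_eq_mul, hk2 _ _ χ hχ]
    unfold pr
    refine Finset.sum_subset (fun x hx => ?_) fun x _ hx => ?_
    · rw [mem_box] at hx ⊢
      intro i
      have := hx i
      have h2 : (R0 : ℤ) ≤ R := by exact_mod_cast hR
      constructor <;> linarith [this.1, this.2]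
    · rw [hg x hx]; simp
  · simp only [Finset.sum_apply, Pi.smul_apply, smul_eq_mul]
    calc |∑ y ∈ box D R0, ∑ b, g y b * k y b x a| ≤
          ∑ y ∈ box D R0, ∑ b : Lab D L, C0 * (Real.exp (α * R0) * Real.exp (-(α * dd x 0))) := by
          refine (Finset.abs_sum_le_sum_abs _ _).trans (Finset.sum_le_sum fun y hy => ?_)
          refine (Finset.abs_sum_le_sum_abs _ _).trans (Finset.sum_le_sum fun b _ => ?_)
          rw [abs_mul]
          have h1 : Real.exp (-(α * dd x y)) ≤ Real.exp (α * R0) * Real.exp (-(α * dd x 0)) := by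
            rw [← Real.exp_add]
            apply Real.exp_le_exp.2
            have h2 : dd x 0 ≤ dd x y + R0 := by
              refine (dd_tri x y 0).trans (Nat.add_le_add_left ?_ _)
              rw [dd_le]; intro i
              have := mem_box.1 hy i
              rw [abs_le]; simp only [Pi.zero_apply, sub_zero]; exact this
            have h3 : (dd x 0 : ℝ) ≤ dd x y + R0 := by exact_mod_cast h2
            nlinarith
          calc |g y b| * |k y b x a| ≤ 1 * (C0 * Real.exp (-(α * dd x y))) :=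
                mul_le_mul (hg1 y b) (hk3 y b x a) (abs_nonneg _) zero_le_one
            _ ≤ _ := by rw [one_mul]; exact mul_le_mul_of_nonneg_left h1 hC00
      _ = _ := by
          unfold Cgr
          rw [← hC0, Finset.sum_const, Finset.sum_const, Finset.card_univ, nsmul_eq_mul, nsmul_eq_mul,
            Fintype.card_prod, Fintype.card_fin, Fintype.card_fin]
          push_cast; ring

lemma rad_ge' {α β : ℝ} (hα : 0 < α) (hβ : 1 ≤ β) (R0 : ℕ) :
    Real.exp (α * R0 + -(α * rad α R0 β)) ≤ β ^ (-2 : ℝ) := by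
  have h1 : 2 / α * Real.log β + R0 ≤ rad α R0 β := by
    unfold rad
    push_cast
    have := Nat.le_ceil (2 / α * Real.log β)
    linarith
  have e : β ^ (-2 : ℝ) = Real.exp (Real.log β * (-2)) := Real.rpow_def_of_pos (by linarith) _
  rw [e]
  apply Real.exp_le_exp.2
  have h2 := mul_le_mul_of_nonneg_left h1 hα.le
  have h3 : α * (2 / α * Real.log β + R0) = 2 * Real.log β + α * R0 := by field_simp
  linarith

/-- the constants of the bound of the variance -/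
def n0 (D L N R0 : ℕ) : ℝ := ((box D R0).card * (D * L)) * (1 * (2 * N))

def KK (D L N : ℕ) (α : ℝ) (R0 : ℕ) : ℝ := (((D : ℝ) + 1) * (D + 1)) * (D * L) *
    (((D + 1) * (4 * (D * L) + 16 * (D * D * L))) * Cgr D L α R0 * (2 * N))

/-- the bound for normalised observables -/
lemma var_core {X : Mt N} {γ : ℝ → G} {κ : ℝ} (h1 : OneP X γ κ) {e : ℝ} (he : 0 < e)
    (he2 : e ≤ 1 / 10) (hL : 0 < lam0 L) {R0 : ℕ} {ε : ℝ} (hε : 0 < ε) {α : ℝ} (hα : 0 < α)
    (hαL : 2 * Real.cosh α - 2 < lam0 L) {β : ℝ} (hβ1 : 1 ≤ β) {μ : Measure (Cf G D L)}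
    (hμ : Stt G D L e β μ)
    (H : ∀ (V : Finset (Site D)) (ω c : SF D L), (V.card : ℝ) ≤ β ^ (e / 16) →
      (∀ x a, |ω x a| ≤ 1) → (∀ x, x ∉ V → ω x = 0) → (∀ x a, |c x a| ≤ 1) →
      |β * ∫ σ, pr V c (sc X σ) * Bf V ω (sc X σ) ∂μ - pr V c ω| ≤ β ^ (-(e / 4)) ∧
      |β * ∫ σ, Bf V ω (sc X σ) ∂μ| ≤ β ^ (1 / 2 - e))
    (a1 : (2 * (rad α R0 β : ℝ) + 1) ^ D ≤ β ^ (e / 16))
    (a2 : (2 * (rad α R0 β : ℝ) + 1) ^ D ≤ β ^ (1 / 2 : ℝ))
    (a3 : 2 / ε * β ^ (-(e / 4)) ≤ 1)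
    (a4 : 2 * (n0 D L N R0 * KK D L N α R0) / ε * β ^ (-1 / 2 : ℝ) ≤ 1)
    (a5 : 2 * KK D L N α R0 / ε * β ^ (-1 : ℝ) ≤ 1)
    (a6 : 2 / ε * β ^ (-e) ≤ 1) {g : SF D L} (hg0 : ∀ x, x ∉ box D R0 → g x = 0)
    (hg1 : ∀ x a, |g x a| ≤ 1) (hg2 : nsq (box D R0) g ≤ lam0 L ^ 2) :
      β * ∫ σ, pr (box D R0) g (sc X σ) ^ 2 ∂μ ≤ nsq (box D R0) g / lam0 L + ε ∧
      |β * ∫ σ, pr (box D R0) g (sc X σ) ∂μ| ≤ ε * β ^ (1 / 2 : ℝ) := by
  classical
  have hC := exists_green (D := D) hα hαL R0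
  obtain ⟨C, hCd⟩ : ∃ C, C = Cgr D L α R0 := ⟨_, rfl⟩
  have hC0 : 0 ≤ C := by rw [hCd]; exact Cgr_nonneg hαL R0
  rw [← hCd] at hC
  -- constants
  obtain ⟨n0, hn0⟩ : ∃ n0 : ℝ, n0 = ((box D R0).card * (D * L)) * (1 * (2 * N)) := ⟨_, rfl⟩
  have hn00 : 0 ≤ n0 := by rw [hn0]; positivity
  obtain ⟨K, hK⟩ : ∃ K : ℝ, K = (((D : ℝ) + 1) * (D + 1)) * (D * L) *
    (((D + 1) * (4 * (D * L) + 16 * (D * D * L))) * C * (2 * N)) := ⟨_, rfl⟩
  have hK0 : 0 ≤ K := by rw [hK]; positivity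
  have hKK : KK D L N α R0 = K := by rw [hK, hCd]; rfl
  have hnn : SlabU.n0 D L N R0 = n0 := by rw [hn0]; rfl
  rw [hKK] at a4 a5
  rw [hnn] at a4
  have hβ0 : 0 < β := by linarith
  have := hμ.shf.prob
  set R : ℕ := rad α R0 β with hR
  have hRR : R0 ≤ R := by rw [hR]; unfold rad; omega
  obtain ⟨ω, hω0, hω2, hω3⟩ := hC g hg0 hg1 R hRR
  have hVc : ((box D R).card : ℝ) ≤ β ^ (e / 16) := by
    rw [box_card]; push_cast; exact a1
  have hprg : ∀ φ : SF D L, pr (box D R) g φ = pr (box D R0) g φ := fun φ =>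
    pr_mono (box_mono hRR) hg0 φ
  have hnsq : nsq (box D R) g = nsq (box D R0) g := by
    unfold nsq
    symm
    refine Finset.sum_subset (box_mono hRR) fun x _ hx => ?_
    rw [hg0 x hx]; simp
  obtain ⟨en1, en2⟩ := sol_energy hL hω0 hω2
  rw [hnsq] at en1 en2
  have hω1 : ∀ x a, |ω x a| ≤ 1 := by
    intro x a
    by_cases hx : x ∈ box D R
    · have h2 : ω x a ^ 2 ≤ 1 := by
        calc ω x a ^ 2 ≤ ∑ a, ω x a ^ 2 :=
              Finset.single_le_sum (f := fun a => ω x a ^ 2) (fun _ _ => by positivity)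
                (Finset.mem_univ a)
          _ ≤ nsq (box D R) ω := Finset.single_le_sum (f := fun x => ∑ a, ω x a ^ 2)
              (fun _ _ => Finset.sum_nonneg fun _ _ => by positivity) hx
          _ ≤ nsq (box D R0) g / lam0 L ^ 2 := en2
          _ ≤ 1 := by rw [div_le_one (by positivity)]; exact hg2
      exact abs_le_one_iff_mul_self_le_one.2 (by nlinarith)
    · rw [hω0 x hx]; simp
  obtain ⟨s1, s2⟩ := H (box D R) ω g hVc hω1 hω0 hg1
  -- the boundary term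
  set bd : Cf G D L → ℝ := fun σ => pr (bdA (box D R)) (fun y b => Bf (box D R) ω (dl y b))
    (sc X σ) with hbd
  have hBf : ∀ σ : Cf G D L, Bf (box D R) ω (sc X σ) = pr (box D R0) g (sc X σ) + bd σ := by
    intro σ
    rw [Bf_sol hω2, hprg]
  have hcoef : ∀ y ∈ bdA (box D R), ∀ b, |Bf (box D R) ω (dl y b)| ≤
      ((D + 1) * (4 * (D * L) + 16 * (D * D * L))) * (C * β ^ (-2 : ℝ)) := by
    intro y hy b
    have hy' : y ∉ box D R := (mem_bdA.1 hy).2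
    refine Bf_dl_le (box D R) y b ω (by positivity) fun x hx a => ?_
    refine (hω3 x a).trans (mul_le_mul_of_nonneg_left ?_ hC0)
    refine le_trans ?_ (rad_ge' hα hβ1 R0)
    rw [← Real.exp_add]
    apply Real.exp_le_exp.2
    have h2 : R ≤ dd x 0 := by
      by_contra hlt
      push Not at hlt
      apply hy'
      rw [mem_box]
      intro i
      have h3 := dd_le.1 (Nat.le_sub_one_of_lt hlt) i
      have h4 := dd_le.1 hx i
      rw [Pi.zero_apply, sub_zero] at h3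
      have h5 : ((R - 1 : ℕ) : ℤ) ≤ (R : ℤ) - 1 := by omega
      have h6 := abs_le.1 h3
      have h7 := abs_le.1 h4
      push_cast at h7
      constructor <;> linarith [h6.1, h6.2, h7.1, h7.2]
    have h3 : (R : ℝ) ≤ dd x 0 := by exact_mod_cast h2
    have := mul_le_mul_of_nonneg_left h3 hα.le
    rw [← hR]
    linarith
  have hbdle : ∀ σ, |bd σ| ≤ K * β ^ (-3 / 2 : ℝ) := by
    intro σ
    have h2 := pr_le' (V := bdA (box D R)) (c := fun y b => Bf (box D R) ω (dl y b))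
      (φ := sc X σ) (m := 2 * N) (q := ((D + 1) * (4 * (D * L) + 16 * (D * D * L))) *
        (C * β ^ (-2 : ℝ))) (by positivity) (by positivity) hcoef
      (fun x _ a => (sc_le h1.nX σ x a).trans (Yf_le σ x a))
    refine h2.trans ?_
    have h3 : ((bdA (box D R)).card : ℝ) ≤ ((D : ℝ) + 1) * ((D + 1) * β ^ (1 / 2 : ℝ)) := by
      refine (bdA_card _).trans ?_
      have : ((box D R).card : ℝ) ≤ β ^ (1 / 2 : ℝ) := by
        rw [box_card]; push_cast; exact a2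
      gcongr
    calc _ ≤ (((D : ℝ) + 1) * ((D + 1) * β ^ (1 / 2 : ℝ)) * (D * L)) *
          (((D + 1) * (4 * (D * L) + 16 * (D * D * L))) * (C * β ^ (-2 : ℝ)) * (2 * N)) := by
          gcongr
      _ = K * (β ^ (1 / 2 : ℝ) * β ^ (-2 : ℝ)) := by rw [hK]; ring
      _ = _ := by rw [← Real.rpow_add hβ0]; norm_num
  have hΦle : ∀ σ : Cf G D L, |pr (box D R0) g (sc X σ)| ≤ n0 := by
    intro σ
    rw [hn0]
    exact pr_le' (by positivity) zero_le_one (fun x _ a => hg1 x a)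
      (fun x _ a => (sc_le h1.nX σ x a).trans (Yf_le σ x a))
  have mΦ : Measurable fun σ : Cf G D L => pr (box D R0) g (sc X σ) := pr_meas X _ g
  have mbd : Measurable bd := pr_meas X _ _
  have iΦ : Integrable (fun σ : Cf G D L => pr (box D R0) g (sc X σ)) μ :=
    Integrable.of_bound mΦ.aestronglyMeasurable n0 (Filter.Eventually.of_forall hΦle)
  have ibd : Integrable bd μ :=
    Integrable.of_bound mbd.aestronglyMeasurable _ (Filter.Eventually.of_forall hbdle)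
  have iΦ2 : Integrable (fun σ : Cf G D L => pr (box D R0) g (sc X σ) ^ 2) μ := by
    refine Integrable.of_bound (mΦ.pow_const 2).aestronglyMeasurable (n0 ^ 2)
      (Filter.Eventually.of_forall fun σ => ?_)
    rw [Real.norm_eq_abs, abs_pow]
    exact pow_le_pow_left₀ (abs_nonneg _) (hΦle σ) 2
  have iΦb : Integrable (fun σ : Cf G D L => pr (box D R0) g (sc X σ) * bd σ) μ := by
    refine Integrable.of_bound (mΦ.mul mbd).aestronglyMeasurable (n0 * (K * β ^ (-3 / 2 : ℝ)))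
      (Filter.Eventually.of_forall fun σ => ?_)
    rw [Real.norm_eq_abs, abs_mul]
    exact mul_le_mul (hΦle σ) (hbdle σ) (abs_nonneg _) hn00
  have hint : ∀ f : Cf G D L → ℝ, ∀ M : ℝ, (∀ σ, |f σ| ≤ M) → |∫ σ, f σ ∂μ| ≤ M := by
    intro f M hM
    have := norm_integral_le_of_norm_le_const (μ := μ) (C := M) (f := f)
      (Filter.Eventually.of_forall hM)
    simpa using this
  have hββ : β * β ^ (-3 / 2 : ℝ) = β ^ (-1 / 2 : ℝ) := by
    nth_rewrite 1 [← Real.rpow_one β]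
    rw [← Real.rpow_add hβ0]; norm_num
  constructor
  · have e1 : ∫ σ, pr (box D R) g (sc X σ) * Bf (box D R) ω (sc X σ) ∂μ =
        ∫ σ, pr (box D R0) g (sc X σ) ^ 2 ∂μ + ∫ σ, pr (box D R0) g (sc X σ) * bd σ ∂μ := by
      rw [← integral_add iΦ2 iΦb]
      refine integral_congr_ae (Filter.Eventually.of_forall fun σ => ?_)
      simp only
      rw [hBf, hprg]; ring
    rw [e1] at s1
    have b1 : |∫ σ, pr (box D R0) g (sc X σ) * bd σ ∂μ| ≤ n0 * (K * β ^ (-3 / 2 : ℝ)) :=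
      hint _ _ fun σ => by
        rw [abs_mul]
        exact mul_le_mul (hΦle σ) (hbdle σ) (abs_nonneg _) hn00
    have b2 : β * |∫ σ, pr (box D R0) g (sc X σ) * bd σ ∂μ| ≤ ε / 2 := by
      calc β * |∫ σ, pr (box D R0) g (sc X σ) * bd σ ∂μ| ≤ β * (n0 * (K * β ^ (-3 / 2 : ℝ))) :=
            mul_le_mul_of_nonneg_left b1 hβ0.le
        _ = (2 * (n0 * K) / ε * β ^ (-1 / 2 : ℝ)) * (ε / 2) := by
            rw [← hββ]; field_simp
        _ ≤ 1 * (ε / 2) := mul_le_mul_of_nonneg_right a4 (by positivity)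
        _ = _ := one_mul _
    have b3 : β ^ (-(e / 4)) ≤ ε / 2 := by
      calc β ^ (-(e / 4)) = (2 / ε * β ^ (-(e / 4))) * (ε / 2) := by field_simp
        _ ≤ 1 * (ε / 2) := mul_le_mul_of_nonneg_right a3 (by positivity)
        _ = _ := one_mul _
    have b4 := (abs_le.1 s1).2
    have b5 := neg_abs_le (∫ σ, pr (box D R0) g (sc X σ) * bd σ ∂μ)
    have b6 := mul_le_mul_of_nonneg_left b5 hβ0.le
    rw [mul_add] at b4
    linarith
  · have e1 : ∫ σ, Bf (box D R) ω (sc X σ) ∂μ =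
        ∫ σ, pr (box D R0) g (sc X σ) ∂μ + ∫ σ, bd σ ∂μ := by
      rw [← integral_add iΦ ibd]
      exact integral_congr_ae (Filter.Eventually.of_forall fun σ => hBf σ)
    rw [e1] at s2
    have b1 := hint bd _ hbdle
    have hβh : 1 ≤ β ^ (1 / 2 : ℝ) := Real.one_le_rpow hβ1 (by norm_num)
    have b2 : β * |∫ σ, bd σ ∂μ| ≤ ε / 2 * β ^ (1 / 2 : ℝ) := by
      calc β * |∫ σ, bd σ ∂μ| ≤ β * (K * β ^ (-3 / 2 : ℝ)) :=
            mul_le_mul_of_nonneg_left b1 hβ0.le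
        _ = (2 * K / ε * β ^ (-1 : ℝ)) * (ε / 2) * β ^ (1 / 2 : ℝ) := by
            have : β ^ (-1 : ℝ) * β ^ (1 / 2 : ℝ) = β * β ^ (-3 / 2 : ℝ) := by
              rw [hββ, ← Real.rpow_add hβ0]; norm_num
            calc β * (K * β ^ (-3 / 2 : ℝ)) = K * (β * β ^ (-3 / 2 : ℝ)) := by ring
              _ = K * (β ^ (-1 : ℝ) * β ^ (1 / 2 : ℝ)) := by rw [this]
              _ = _ := by field_simp
        _ ≤ 1 * (ε / 2) * β ^ (1 / 2 : ℝ) := by
            refine mul_le_mul_of_nonneg_right ?_ (by positivity)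
            exact mul_le_mul_of_nonneg_right a5 (by positivity)
        _ = _ := by ring
    have b3 : β ^ (1 / 2 - e) ≤ ε / 2 * β ^ (1 / 2 : ℝ) := by
      have : β ^ (1 / 2 - e) = β ^ (-e) * β ^ (1 / 2 : ℝ) := by
        rw [← Real.rpow_add hβ0]; congr 1; ring
      rw [this]
      refine mul_le_mul_of_nonneg_right ?_ (by positivity)
      calc β ^ (-e) = (2 / ε * β ^ (-e)) * (ε / 2) := by field_simp
        _ ≤ 1 * (ε / 2) := mul_le_mul_of_nonneg_right a6 (by positivity)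
        _ = _ := one_mul _
    have e2 : β * ∫ σ, pr (box D R0) g (sc X σ) ∂μ =
        β * (∫ σ, pr (box D R0) g (sc X σ) ∂μ + ∫ σ, bd σ ∂μ) - β * ∫ σ, bd σ ∂μ := by ring
    rw [e2]
    refine (abs_sub _ _).trans ?_
    rw [abs_mul β (∫ σ, bd σ ∂μ), abs_of_pos hβ0]
    linarith

/-! ### polynomial bounds -/

/-- the parameters: thickness, radius of the observable, error, bound -/
def Pq (i : ℕ × ℕ × ℝ × ℝ) : Prop :=
  1 ≤ i.1 ∧ (i.1 : ℝ) ≤ i.2.2.2 ∧ (i.2.1 : ℝ) + 1 ≤ i.2.2.2 ∧ 0 < i.2.2.1 ∧ 1 / i.2.2.1 ≤ i.2.2.2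

/-- polynomially bounded families -/
abbrev P4 (f : ℕ × ℕ × ℝ × ℝ → ℝ) : Prop := Pb (fun i => i.2.2.2) Pq f

lemma Pq1 : ∀ i, Pq i → 1 ≤ i.2.2.2 := fun i hi => by
  have h1 : (1 : ℝ) ≤ i.1 := by exact_mod_cast hi.1
  exact h1.trans hi.2.1

lemma P4_L : P4 fun i => (i.1 : ℝ) :=
  (Pb.sc Pq1).mono0 (fun i _ => Nat.cast_nonneg _) fun i hi => hi.2.1

lemma P4_R : P4 fun i => (i.2.1 : ℝ) :=
  (Pb.sc Pq1).mono0 (fun i _ => Nat.cast_nonneg _) fun i hi => by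
    have := hi.2.2.1
    linarith

lemma P4_ε : P4 fun i => 1 / i.2.2.1 :=
  (Pb.sc Pq1).mono0 (fun i hi => by have := hi.2.2.2.1; positivity) fun i hi => hi.2.2.2.2

lemma P4_box (D : ℕ) : P4 fun i => ((box D i.2.1).card : ℝ) := by
  have h : (fun i : ℕ × ℕ × ℝ × ℝ => ((box D i.2.1).card : ℝ)) =
      fun i => (2 * (i.2.1 : ℝ) + 1) ^ D := by
    funext i
    rw [box_card]
    push_cast
    rfl
  rw [h]
  exact (Pb.add Pq1 ((Pb.cst 2).mul P4_R) (Pb.cst 1)).pow D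

lemma P4_n0 (D N : ℕ) : P4 fun i => n0 D i.1 N i.2.1 := by
  unfold n0
  exact ((P4_box D).mul ((Pb.cst (D : ℝ)).mul P4_L)).mul (Pb.cst (1 * (2 * (N : ℝ))))

lemma inv_gap_le {L : ℕ} (hL : 1 ≤ L) :
    1 / (lam0 L - (2 * Real.cosh (alp L) - 2)) ≤ 9 / 2 * (L : ℝ) ^ 2 := by
  have h1 := alp_gap hL
  have h2 := lam0_pos hL
  have h3 := inv_lam0_le hL
  have h4 : 1 / (lam0 L - (2 * Real.cosh (alp L) - 2)) ≤ 1 / (lam0 L / 2) :=
    one_div_le_one_div_of_le (by positivity) (by linarith)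
  have h5 : 1 / (lam0 L / 2) = 2 * (1 / lam0 L) := by field_simp
  linarith

lemma P4_Cgr (D : ℕ) : P4 fun i => Cgr D i.1 (alp i.1) i.2.1 := by
  unfold Cgr
  refine ((P4_box D).mul ((Pb.cst (D : ℝ)).mul P4_L)).mul (Pb.mul ?_ ?_)
  · refine ((Pb.cst (9 / 2)).mul (P4_L.pow 2)).mono0 (fun i hi => ?_) fun i hi => inv_gap_le hi.1
    have := alp_lt hi.1
    have : 0 < lam0 i.1 - (2 * Real.cosh (alp i.1) - 2) := by linarith
    positivity
  · refine (Pb.cst (Real.exp 1)).mono0 (fun i hi => (Real.exp_pos _).le) fun i hi =>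
      Real.exp_le_exp.2 ?_
    have := alp_le hi.1
    linarith

lemma P4_KK (D N : ℕ) : P4 fun i => KK D i.1 N (alp i.1) i.2.1 := by
  unfold KK
  exact ((Pb.cst (((D : ℝ) + 1) * (D + 1))).mul ((Pb.cst (D : ℝ)).mul P4_L)).mul
    ((((Pb.cst ((D : ℝ) + 1)).mul (Pb.add Pq1 ((Pb.cst 4).mul ((Pb.cst (D : ℝ)).mul P4_L))
      ((Pb.cst 16).mul ((Pb.cst ((D : ℝ) * D)).mul P4_L)))).mul (P4_Cgr D)).mul
        (Pb.cst (2 * (N : ℝ))))

/-- powers of the radius are small -/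
lemma radU (D : ℕ) {a : ℝ} (ha : 0 < a) :
    ∀ᶠ p in FU, ∀ L R0 : ℕ, 1 ≤ L → (L : ℝ) ≤ p.2 → (R0 : ℝ) + 1 ≤ p.2 →
      (2 * (rad (alp L) R0 p.1 : ℝ) + 1) ^ D ≤ p.1 ^ a := by
  obtain ⟨b, hb⟩ : ∃ b : ℝ, b = a / (2 * (D + 1)) := ⟨_, rfl⟩
  have hn : (0 : ℝ) < 2 * (D + 1) := by positivity
  have hb0 : 0 < b := hb ▸ div_pos ha hn
  have hb1 : b * D < a := by
    have h1 : b * (2 * (D + 1)) = a := by rw [hb]; exact div_mul_cancel₀ _ hn.ne'
    have : (0 : ℝ) ≤ D := Nat.cast_nonneg _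
    nlinarith
  have h1 := Pool.Agent.N990.Mach.fu_log (a := b) 24 1 hb0
  have h2 := Pool.Agent.N990.Mach.fu_rpow (a := b) (b := 0) 6 1 hb0
  filter_upwards [h1, h2, Pool.Agent.N990.Mach.fu_ge 1] with ⟨β, Y⟩ h1 h2 h4 L R0 hL hLY hR
  dsimp only at h1 h2 h4 hLY hR ⊢
  have hL1 : (1 : ℝ) ≤ L := by exact_mod_cast hL
  have hα := alp_pos hL
  have hα1 := inv_alp_le hL
  have h1' := h1 (24 * Y) (by rw [pow_one])
  have h2' := h2 (6 * Y) (by rw [pow_one])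
  rw [Real.rpow_zero, mul_one] at h2'
  have h5 : (rad (alp L) R0 β : ℝ) ≤ 6 * Y * Real.log β + Y := by
    unfold rad
    push_cast
    have h6 := (Nat.ceil_lt_add_one (mul_nonneg (by positivity : 0 ≤ 2 / alp L)
      (Real.log_nonneg h4))).le
    have h7 : 2 / alp L * Real.log β ≤ 6 * Y * Real.log β := by
      refine mul_le_mul_of_nonneg_right ?_ (Real.log_nonneg h4)
      have : 2 / alp L = 2 * (1 / alp L) := by ring
      rw [this]
      linarith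
    linarith
  have h6 : 2 * (rad (alp L) R0 β : ℝ) + 1 ≤ β ^ b := by
    have h8 : 1 ≤ Y := hL1.trans hLY
    linarith
  calc (2 * (rad (alp L) R0 β : ℝ) + 1) ^ D ≤ (β ^ b) ^ D := by gcongr
    _ = β ^ (b * D) := by rw [← Real.rpow_natCast, ← Real.rpow_mul (by linarith)]
    _ ≤ β ^ a := Real.rpow_le_rpow_of_exponent_le h4 hb1.le

/-- **Bound of the variance and the mean**, uniformly. -/
theorem var_bd1U {D : ℕ} {X : Mt N} {γ : ℝ → G} {κ : ℝ} (h1 : OneP X γ κ) {e : ℝ} (he : 0 < e)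
    (he2 : e ≤ 1 / 10) :
    ∀ᶠ p in FU, ∀ (L R0 : ℕ) (ε : ℝ), 1 ≤ L → (L : ℝ) ≤ p.2 → (R0 : ℝ) + 1 ≤ p.2 → 0 < ε →
      1 / ε ≤ p.2 → ∀ μ : Measure (Cf G D L), Stt G D L e p.1 μ → ∀ g : SF D L,
      (∀ x, x ∉ box D R0 → g x = 0) → (∀ x a, |g x a| ≤ 1) →
      nsq (box D R0) g ≤ lam0 L ^ 2 →
      p.1 * ∫ σ, pr (box D R0) g (sc X σ) ^ 2 ∂μ ≤ nsq (box D R0) g / lam0 L + ε ∧
      |p.1 * ∫ σ, pr (box D R0) g (sc X σ) ∂μ| ≤ ε * p.1 ^ (1 / 2 : ℝ) := by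
  have hs : ∀ i : ℕ × ℕ × ℝ × ℝ, Pq i → 0 ≤ i.2.2.2 := fun i hi => by linarith [Pq1 i hi]
  have A1 := radU D (a := e / 16) (by linarith)
  have A2 := radU D (a := 1 / 2) (by norm_num)
  have A3 := ((Pb.cst 2).mul P4_ε).ev (a := 0) (b := -(e / 4)) (by linarith) hs
  have A4 := (((Pb.cst 2).mul ((P4_n0 D N).mul (P4_KK D N))).mul P4_ε).ev (a := 0) (b := -1 / 2)
    (by norm_num) hs
  have A5 := (((Pb.cst 2).mul (P4_KK D N)).mul P4_ε).ev (a := 0) (b := -1) (by norm_num) hs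
  have A6 := ((Pb.cst 2).mul P4_ε).ev (a := 0) (b := -e) (by linarith) hs
  filter_upwards [sd_limU (D := D) h1 he he2, A1, A2, A3, A4, A5, A6,
    Pool.Agent.N990.Mach.fu_ge 1] with ⟨β, Y⟩ H a1 a2 a3 a4 a5 a6 hβ1 L R0 ε hL hLY hR hε hεY μ hμ
    g hg0 hg1 hg2
  dsimp only at H a1 a2 a3 a4 a5 a6 hβ1 hLY hR hεY hμ ⊢
  have hP : Pq (L, R0, ε, Y) := ⟨hL, hLY, hR, hε, hεY⟩
  have b3 := a3 (L, R0, ε, Y) hP le_rfl
  have b4 := a4 (L, R0, ε, Y) hP le_rfl
  have b5 := a5 (L, R0, ε, Y) hP le_rfl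
  have b6 := a6 (L, R0, ε, Y) hP le_rfl
  dsimp only at b3 b4 b5 b6
  rw [Real.rpow_zero] at b3 b4 b5 b6
  rw [mul_one_div] at b3 b4 b5 b6
  exact var_core h1 he he2 (lam0_pos hL) hε (alp_pos hL) (alp_lt hL) hβ1 hμ (H L hL hLY μ hμ)
    (a1 L R0 hL hLY hR) (a2 L R0 hL hLY hR) b3 b4 b5 b6 hg0 hg1 hg2

end

end Pool.Agent.N109.SlabU
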