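import Pool.Agent.N109.Slab.Ratio
import Pool.Agent.N109.SlabU.VarU

/-!
# The slab, uniformly in the thickness: bounds of the variance of general observables
-/

set_option autoImplicit false
set_option linter.unusedSectionVars false
set_option linter.unusedVariables false

open MeasureTheory Finset Function Filter Topology

namespace Pool.Agent.N109.SlabU

open Pool.Agent.N990 Pool.Agent.N109.Slab
open Pool.Agent.N990.Mach (FU)

noncomputable section

variable {N D L : ℕ} {G : Subgroup (UU N)} [MeasurableSpace G] [BorelSpace G]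

lemma le_pow' {Y : ℝ} (h : 1 ≤ Y) {C : ℝ} (hC : 1 ≤ C) {n : ℕ} (hn : 1 ≤ n) : Y ≤ C * Y ^ n := by
  have h1 : Y ≤ Y ^ n := le_self_pow₀ h (by omega)
  have h2 : Y ^ n ≤ C * Y ^ n := le_mul_of_one_le_left (by positivity) hC
  exact h1.trans h2

/-- **Uniform bounds of the variance and of the mean.** -/
theorem var_bdU {D : ℕ} {X : Mt N} {γ : ℝ → G} {κ : ℝ} (h1 : OneP X γ κ) {e : ℝ} (he : 0 < e)
    (he2 : e ≤ 1 / 10) :
    ∀ᶠ p in FU, ∀ (L R0 : ℕ) (ε : ℝ), 1 ≤ L → (L : ℝ) ≤ p.2 → (R0 : ℝ) + 1 ≤ p.2 → 0 < ε →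
      1 / ε ≤ p.2 → ∀ μ : Measure (Cf G D L), Stt G D L e p.1 μ → ∀ g : SF D L,
      (∀ x, x ∉ box D R0 → g x = 0) → nsq (box D R0) g ≤ p.2 →
      p.1 * ∫ σ, pr (box D R0) g (sc X σ) ^ 2 ∂μ ≤ nsq (box D R0) g / lam0 L + ε ∧
      |p.1 * ∫ σ, pr (box D R0) g (sc X σ) ∂μ| ≤ ε * p.1 ^ (1 / 2 : ℝ) := by
  have H := (fu_comp (C := 11) (by norm_num) 6).eventually (var_bd1U (D := D) h1 he he2)
  filter_upwards [H, Pool.Agent.N990.Mach.fu_ge 1] with ⟨β, Y⟩ H hβ1 L R0 ε hL hLY hR hε hεY μ hμ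
    g hg0 hgY
  dsimp only at H hβ1 hLY hR hεY hμ hgY ⊢
  have hlam : 0 < lam0 L := lam0_pos hL
  have hlam1 := lam0_le_one hL
  have hL1 : (1 : ℝ) ≤ L := by exact_mod_cast hL
  have hY1 : 1 ≤ Y := hL1.trans hLY
  -- the scale
  have hn0 := nsq_nonneg (box D R0) g
  have hgle : ∀ x a, g x a ^ 2 ≤ nsq (box D R0) g := by
    intro x a
    by_cases hx : x ∈ box D R0
    · calc g x a ^ 2 ≤ ∑ a, g x a ^ 2 :=
            Finset.single_le_sum (f := fun a => g x a ^ 2) (fun _ _ => by positivity)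
              (Finset.mem_univ a)
        _ ≤ nsq (box D R0) g := Finset.single_le_sum (f := fun x => ∑ a, g x a ^ 2)
            (fun _ _ => Finset.sum_nonneg fun _ _ => by positivity) hx
    · rw [hg0 x hx]; simpa using hn0
  obtain ⟨s, hs⟩ : ∃ s : ℝ, s = lam0 L / Real.sqrt (nsq (box D R0) g + 1) := ⟨_, rfl⟩
  have hs0 : 0 < s := by rw [hs]; positivity
  have hs2 : s ^ 2 = lam0 L ^ 2 / (nsq (box D R0) g + 1) := by
    rw [hs, div_pow, Real.sq_sqrt (by positivity)]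
  have hs3 : s ^ 2 * nsq (box D R0) g ≤ lam0 L ^ 2 := by
    rw [hs2, div_mul_eq_mul_div, div_le_iff₀ (by positivity)]
    have h2 : 0 ≤ lam0 L ^ 2 := by positivity
    nlinarith
  have hlam2 : lam0 L ^ 2 ≤ 1 := pow_le_one₀ hlam.le hlam1
  have hs4 : s ^ 2 ≤ 1 := by
    rw [hs2, div_le_one (by positivity)]
    linarith
  have hs5 : s ≤ 1 := by
    by_contra hcon
    rw [not_le] at hcon
    nlinarith
  have hs6 : 1 / (s ^ 2 * ε) ≤ 11 * Y ^ 6 := by
    have e1 : 1 / (s ^ 2 * ε) = (nsq (box D R0) g + 1) * (1 / lam0 L) ^ 2 * (1 / ε) := by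
      rw [hs2]
      field_simp
    rw [e1]
    have e2 : 1 / lam0 L ≤ 9 / 4 * Y ^ 2 := (inv_lam0_le hL).trans (by gcongr)
    have e3 : nsq (box D R0) g + 1 ≤ 2 * Y := by linarith
    calc (nsq (box D R0) g + 1) * (1 / lam0 L) ^ 2 * (1 / ε) ≤
          (2 * Y) * (9 / 4 * Y ^ 2) ^ 2 * Y := by gcongr
      _ = 81 / 8 * Y ^ 6 := by ring
      _ ≤ 11 * Y ^ 6 := by
          have : 0 ≤ Y ^ 6 := by positivity
          linarith
  have hYY : Y ≤ 11 * Y ^ 6 := le_pow' hY1 (by norm_num) (by norm_num)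
  obtain ⟨a1, a2⟩ := H L R0 (s ^ 2 * ε) hL (hLY.trans hYY) (hR.trans hYY) (by positivity) hs6 μ hμ
    (fun x a => s * g x a) (fun x hx => by funext a; simp [hg0 x hx])
    (fun x a => by
      have h3 : (s * g x a) ^ 2 ≤ 1 := by
        calc (s * g x a) ^ 2 = s ^ 2 * g x a ^ 2 := by ring
          _ ≤ s ^ 2 * nsq (box D R0) g := mul_le_mul_of_nonneg_left (hgle x a) (by positivity)
          _ ≤ 1 := hs3.trans hlam2
      exact abs_le_one_iff_mul_self_le_one.2 (by nlinarith))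
    (by rw [nsq_smul]; exact hs3)
  have hβ0 : 0 < β := by linarith
  simp only [pr_smul, nsq_smul, mul_pow] at a1 a2
  rw [integral_const_mul] at a1 a2
  constructor
  · have h3 : s ^ 2 * (β * ∫ σ, pr (box D R0) g (sc X σ) ^ 2 ∂μ) ≤
        s ^ 2 * (nsq (box D R0) g / lam0 L + ε) := by
      calc s ^ 2 * (β * ∫ σ, pr (box D R0) g (sc X σ) ^ 2 ∂μ) =
            β * (s ^ 2 * ∫ σ, pr (box D R0) g (sc X σ) ^ 2 ∂μ) := by ring
        _ ≤ s ^ 2 * nsq (box D R0) g / lam0 L + s ^ 2 * ε := a1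
        _ = _ := by ring
    exact le_of_mul_le_mul_left h3 (by positivity)
  · have h3 : s * |β * ∫ σ, pr (box D R0) g (sc X σ) ∂μ| ≤ s * (ε * β ^ (1 / 2 : ℝ)) := by
      calc s * |β * ∫ σ, pr (box D R0) g (sc X σ) ∂μ| =
            |β * (s * ∫ σ, pr (box D R0) g (sc X σ) ∂μ)| := by
            rw [show β * (s * ∫ σ, pr (box D R0) g (sc X σ) ∂μ) =
              s * (β * ∫ σ, pr (box D R0) g (sc X σ) ∂μ) by ring, abs_mul s, abs_of_pos hs0]
        _ ≤ s ^ 2 * ε * β ^ (1 / 2 : ℝ) := a2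
        _ = s * (s * ε * β ^ (1 / 2 : ℝ)) := by ring
        _ ≤ s * (ε * β ^ (1 / 2 : ℝ)) := by
            have h7 : s * ε ≤ ε := mul_le_of_le_one_left hε.le hs5
            exact mul_le_mul_of_nonneg_left
              (mul_le_mul_of_nonneg_right h7 (Real.rpow_nonneg hβ0.le _)) hs0.le
    exact le_of_mul_le_mul_left h3 hs0

end

end Pool.Agent.N109.SlabU
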