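import Pool.Agent.N109.SlabU.CltA
import Pool.Agent.N109.SlabU.VarB

/-!
# The central limit theorem for linear observables: the Schwinger-Dyson inequality
-/

set_option autoImplicit false
set_option linter.unusedSectionVars false
set_option linter.unusedVariables false

open MeasureTheory Finset Function Filter Topology
open scoped Matrix.Norms.Frobenius

namespace Pool.Agent.N109.SlabU

open Pool.Agent.N990 Pool.Agent.N109.Slab
open Pool.Agent.N990.Mach (FU)

noncomputable section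

/-! ### Taylor expansion of bounded functions -/

lemma lipg {g g1 : ℝ → ℝ} (hd : ∀ x, HasDerivAt g (g1 x) x) (h1 : ∀ x, |g1 x| ≤ 1) (a h : ℝ) :
    |g (a + h) - g a| ≤ |h| := by
  have := Convex.norm_image_sub_le_of_norm_hasDerivWithin_le (s := Set.univ) (C := 1)
    (fun x _ => (hd x).hasDerivWithinAt) (fun x _ => h1 x) convex_univ (Set.mem_univ a)
    (Set.mem_univ (a + h))
  rw [one_mul, add_sub_cancel_left] at this
  exact this

lemma tayg {g g1 g2 : ℝ → ℝ} (hd : ∀ x, HasDerivAt g (g1 x) x) (hd1 : ∀ x, HasDerivAt g1 (g2 x) x)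
    (h2 : ∀ x, |g2 x| ≤ 1) (a h : ℝ) : |g (a + h) - g a - h * g1 a| ≤ h ^ 2 := by
  have h3 : ∀ u : ℝ, HasDerivAt (fun u => g (a + u) - u * g1 a) (g1 (a + u) - g1 a) u := by
    intro u
    have e1 : HasDerivAt (fun u => g (a + u)) (g1 (a + u)) u := by
      have := (hd (a + u)).comp u ((hasDerivAt_id u).const_add a)
      rw [mul_one] at this
      exact this
    have e2 : HasDerivAt (fun u : ℝ => u * g1 a) (g1 a) u := by
      have := (hasDerivAt_id u).mul_const (g1 a)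
      rw [one_mul] at this
      exact this
    exact e1.sub e2
  have := Convex.norm_image_sub_le_of_norm_hasDerivWithin_le (s := Set.uIcc 0 h) (C := |h|)
    (fun x _ => (h3 x).hasDerivWithinAt) (fun x hx => ?_) (convex_uIcc 0 h)
    Set.left_mem_uIcc Set.right_mem_uIcc
  · rw [sub_zero, Real.norm_eq_abs, Real.norm_eq_abs, add_zero, zero_mul, sub_zero] at this
    have e1 : g (a + h) - g a - h * g1 a = g (a + h) - h * g1 a - g a := by ring
    rw [e1]
    refine this.trans (le_of_eq ?_)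
    rw [← abs_mul, abs_mul_self, sq]
  · have h4 : |x| ≤ |h| := by
      have := Set.abs_sub_left_of_mem_uIcc hx
      simpa using this
    exact (lipg hd1 h2 a x).trans h4

variable {N D L : ℕ} {G : Subgroup (UU N)} [MeasurableSpace G]

/-- the linear observable with several components -/
def Ph {n : ℕ} (S : ℝ) (V : Finset (Site D)) (X : Fin n → Mt N) (f : Fin n → SF D L)
    (σ : Cf G D L) : ℝ := S * ∑ j, pr V (f j) (sc (X j) σ)

lemma Ph_le {n : ℕ} {S : ℝ} (hS : 0 ≤ S) (V : Finset (Site D)) {X : Fin n → Mt N}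
    (hX : ∀ i, ‖X i‖ = 1) {f : Fin n → SF D L} {Fm : ℝ} (hFm : 0 ≤ Fm)
    (hf : ∀ i x a, |f i x a| ≤ Fm) (σ : Cf G D L) :
    |Ph S V X f σ| ≤ S * (n * ((V.card * (D * L)) * (Fm * (2 * N)))) := by
  unfold Ph
  rw [abs_mul, abs_of_nonneg hS]
  refine mul_le_mul_of_nonneg_left ?_ hS
  refine (Finset.abs_sum_le_sum_abs _ _).trans ?_
  refine (Finset.sum_le_sum (g := fun _ => (V.card * (D * L)) * (Fm * (2 * N))) fun i _ => ?_).trans
    (le_of_eq ?_)
  · exact pr_le' (by positivity) hFm (fun x _ a => hf i x a)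
      fun x _ a => (sc_le (hX i) σ x a).trans (Yf_le σ x a)
  · rw [Finset.sum_const, Finset.card_univ, Fintype.card_fin, nsmul_eq_mul]

lemma Ph_diff {n : ℕ} {X : Fin n → Mt N} {γ : ℝ → G} {κ δ t p0 β S Fm : ℝ}
    {μ : Measure (Cf G D L)} {V : Finset (Site D)} {ω : SF D L} {j : Fin n}
    (hX : ∀ i, ‖X i‖ = 1) (hort : ∀ i, ip (X i) (X j) = if i = j then 1 else 0)
    (h : Dt G D L β μ (X j) γ κ δ t p0 V ω) (hS : 0 ≤ S) {f : Fin n → SF D L}
    (hFm : 0 ≤ Fm) (hf : ∀ i x a, |f i x a| ≤ Fm) {σ : Cf G D L}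
    (hσ : σ ∈ Gds G D L δ (clA V)) :
    |Ph S V X f (Dt.vv γ t ω * σ) - Ph S V X f σ - t * (S * pr V (f j) ω)| ≤
      S * (n * ((V.card * (D * L)) * (Fm * ((κ + 2) * δ * t)))) := by
  have hδ := h.δ0
  have ht := h.ht
  have hκ := h.one.hκ
  have hdiff : ∀ i, ∀ x ∈ V, ∀ a,
      |sc (X i) (Dt.vv γ t ω * σ) x a - sc (X i) σ x a -
        (if i = j then 1 else 0) * (t * ω x a)| ≤ (κ + 2) * δ * t := by
    intro i x hx a
    have hsm := h.sm (σ := σ) (x := x) (hσ x (Ns_clA V (sub_Ns V hx))) a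
    have e2 : sc (X i) (Dt.vv γ t ω * σ) x a - sc (X i) σ x a -
        (if i = j then 1 else 0) * (t * ω x a) =
        ip (X i) (mt (Dt.vv γ t ω x a * σ x a) - mt (σ x a) - (t * ω x a) • X j) := by
      rw [ip_sub_right _ _ ((t * ω x a) • X j), ip_smul_right, hort i]
      unfold sc Yf
      rw [← ip_sub_right]
      have : mt ((Dt.vv γ t ω * σ) x a) - 1 - (mt (σ x a) - 1) =
          mt (Dt.vv γ t ω x a * σ x a) - mt (σ x a) := by
        simp only [Pi.mul_apply]; abel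
      rw [this]
      ring
    rw [e2]
    refine (ip_le _ _).trans ?_
    rw [hX i, one_mul]
    exact hsm.rem
  have e1 : Ph S V X f (Dt.vv γ t ω * σ) - Ph S V X f σ - t * (S * pr V (f j) ω) =
      S * ∑ i, pr V (f i) (fun x a => sc (X i) (Dt.vv γ t ω * σ) x a - sc (X i) σ x a -
        (if i = j then 1 else 0) * (t * ω x a)) := by
    have e3 : ∀ i, pr V (f i) (fun x a => sc (X i) (Dt.vv γ t ω * σ) x a - sc (X i) σ x a -
        (if i = j then 1 else 0) * (t * ω x a)) = pr V (f i) (sc (X i) (Dt.vv γ t ω * σ)) -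
          pr V (f i) (sc (X i) σ) - if i = j then t * pr V (f i) ω else 0 := by
      intro i
      unfold pr
      rw [Finset.mul_sum, ← Finset.sum_sub_distrib]
      by_cases hij : i = j
      · rw [if_pos hij, if_pos hij, ← Finset.sum_sub_distrib]
        refine Finset.sum_congr rfl fun x _ => ?_
        rw [Finset.mul_sum, ← Finset.sum_sub_distrib, ← Finset.sum_sub_distrib]
        refine Finset.sum_congr rfl fun a _ => ?_
        ring
      · rw [if_neg hij, if_neg hij, sub_zero]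
        refine Finset.sum_congr rfl fun x _ => ?_
        rw [← Finset.sum_sub_distrib]
        refine Finset.sum_congr rfl fun a _ => ?_
        ring
    simp only [e3]
    rw [Finset.sum_sub_distrib, Finset.sum_sub_distrib, Finset.sum_ite_eq' Finset.univ j,
      if_pos (Finset.mem_univ j)]
    unfold Ph
    ring
  rw [e1, abs_mul, abs_of_nonneg hS]
  refine mul_le_mul_of_nonneg_left ?_ hS
  refine (Finset.abs_sum_le_sum_abs _ _).trans ?_
  refine (Finset.sum_le_sum (g := fun _ => (V.card * (D * L)) * (Fm * ((κ + 2) * δ * t)))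
    fun i _ => ?_).trans (le_of_eq ?_)
  · exact pr_le' (by positivity) hFm (fun x _ a => hf i x a) fun x hx a => hdiff i x hx a
  · rw [Finset.sum_const, Finset.card_univ, Fintype.card_fin, nsmul_eq_mul]

variable [BorelSpace G]

lemma Ph_meas {n : ℕ} (S : ℝ) (V : Finset (Site D)) (X : Fin n → Mt N) (f : Fin n → SF D L) :
    Measurable (Ph (G := G) S V X f) := by
  unfold Ph
  exact (Finset.measurable_fun_sum _ fun i _ => pr_meas (X i) V (f i)).const_mul S

/-- the errors -/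
def Ee (n D L : ℕ) (κ δ t S Fm y : ℝ) : ℝ := S * (n * ((y * (D * L)) * (Fm * ((κ + 2) * δ * t))))

def La (D L : ℕ) (S Fm y : ℝ) : ℝ := S * ((y * (D * L)) * (Fm * 1))

def Rr (n D L N : ℕ) (κ β δ t p0 S Fm y : ℝ) : ℝ :=
  (1 * Dt.xi D L κ β δ t y ^ 2 + (Ee n D L κ δ t S Fm y +
    (t * La D L S Fm y + Ee n D L κ δ t S Fm y) ^ 2) + 1 * Dt.rho D L κ β δ t y +
    (β * t) * ((t * La D L S Fm y + Ee n D L κ δ t S Fm y) * ((D + 1) * y * (CB D L * δ)))) +
  ((D + 1) * ((D + 1) * y) * (D * L) * p0) * (2 * 1 + t * La D L S Fm y +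
    (β * t) * (1 * ((D + 1) * y * (CB D L * (2 * N)))))

/-- the Schwinger-Dyson inequality for a shift in the direction `X j` -/
theorem sd_j {n : ℕ} {X : Fin n → Mt N} {γ : ℝ → G} {κ δ t p0 β S Fm : ℝ}
    {μ : Measure (Cf G D L)} {V : Finset (Site D)} {ω : SF D L} {j : Fin n}
    (hX : ∀ i, ‖X i‖ = 1) (hort : ∀ i, ip (X i) (X j) = if i = j then 1 else 0)
    (h : Dt G D L β μ (X j) γ κ δ t p0 V ω) (hS : 0 ≤ S) {f : Fin n → SF D L}
    (hFm : 0 ≤ Fm) (hf : ∀ i x a, |f i x a| ≤ Fm)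
    (hξ : Dt.xi D L κ β δ t V.card ≤ 1) (hp0 : 0 ≤ p0)
    {g g1 : ℝ → ℝ} (mg : Measurable g) (mg1 : Measurable g1) (hg : ∀ a, |g a| ≤ 1)
    (hg1 : ∀ a, |g1 a| ≤ 1) (hd1 : ∀ a h, |g (a + h) - g a - h * g1 a| ≤ h ^ 2)
    (hd2 : ∀ a h, |g (a + h) - g a| ≤ |h|) {s : ℝ} (hs0 : 0 ≤ s) (hs1 : s ≤ 1) :
    |(β * t) * ∫ σ, g (s * Ph S V X f σ) * Dt.BB (X j) V ω σ ∂μ -
      t * ∫ σ, s * (S * pr V (f j) ω) * g1 (s * Ph S V X f σ) ∂μ| ≤
      Rr n D L N κ β δ t p0 S Fm V.card := by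
  have := h.shf.prob
  have hδ := h.δ0
  have ht := h.ht
  have hκ := h.one.hκ
  have hCB := CB_nonneg (D := D) (L := L)
  have mX := Dt.XX_meas β V (Dt.vv γ t ω)
  have mP := Ph_meas (G := G) S V X f
  have hid := h.shf.set (V := V) (v := Dt.vv γ t ω) (fun x hx => h.vv_out hx)
    (F := fun σ => g (s * Ph S V X f σ)) (mg.comp (mP.const_mul s)) (Gds_meas δ (clA V))
  have hE0 : 0 ≤ Ee n D L κ δ t S Fm V.card := by unfold Ee; positivity
  have hL0 : 0 ≤ La D L S Fm V.card := by unfold La; positivity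
  have hlam : |S * pr V (f j) ω| ≤ La D L S Fm V.card := by
    rw [abs_mul, abs_of_nonneg hS]
    unfold La
    exact mul_le_mul_of_nonneg_left (pr_le' zero_le_one hFm (fun x _ a => hf j x a)
      fun x _ a => h.ω1 x a) hS
  have hDel : ∀ σ ∈ Gds G D L δ (clA V), |s * Ph S V X f (Dt.vv γ t ω * σ) - s * Ph S V X f σ| ≤
      t * La D L S Fm V.card + Ee n D L κ δ t S Fm V.card := by
    intro σ hσ
    have h3 := Ph_diff hX hort h hS hFm hf hσ
    rw [← mul_sub, abs_mul, abs_of_nonneg hs0]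
    have h4 : |Ph S V X f (Dt.vv γ t ω * σ) - Ph S V X f σ| ≤
        t * La D L S Fm V.card + Ee n D L κ δ t S Fm V.card := by
      have e1 : Ph S V X f (Dt.vv γ t ω * σ) - Ph S V X f σ = t * (S * pr V (f j) ω) +
        (Ph S V X f (Dt.vv γ t ω * σ) - Ph S V X f σ - t * (S * pr V (f j) ω)) := by ring
      rw [e1]
      refine (abs_add_le _ _).trans (add_le_add ?_ h3)
      rw [abs_mul, abs_of_pos ht]
      exact mul_le_mul_of_nonneg_left hlam ht.le
    have h5 := abs_nonneg (Ph S V X f (Dt.vv γ t ω * σ) - Ph S V X f σ)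
    nlinarith
  have core := sd_core2 (μ := μ) (F := fun σ => g (s * Ph S V X f σ))
    (F' := fun σ => g (s * Ph S V X f (Dt.vv γ t ω * σ)))
    (F1 := fun σ => s * (S * pr V (f j) ω) * g1 (s * Ph S V X f σ))
    (B := Dt.BB (X j) V ω) (X := Dt.XX β V (Dt.vv γ t ω))
    (Gd := Gds G D L δ (clA V)) (Gd' := {σ : Cf G D L | (Dt.vv γ t ω)⁻¹ * σ ∈ Gds G D L δ (clA V)})
    (M := 1) (M1 := La D L S Fm V.card) (MB := (D + 1) * V.card * (CB D L * (2 * N))) (m := 1)
    (r1 := Ee n D L κ δ t S Fm V.card +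
      (t * La D L S Fm V.card + Ee n D L κ δ t S Fm V.card) ^ 2)
    (r2 := t * La D L S Fm V.card + Ee n D L κ δ t S Fm V.card) (ρ := Dt.rho D L κ β δ t V.card)
    (ξ := Dt.xi D L κ β δ t V.card) (bB := (D + 1) * V.card * (CB D L * δ)) (b := β * t) (t := t)
    (p := (D + 1) * ((D + 1) * V.card) * (D * L) * p0)
    (Gds_meas δ _) ((mulv_meas _) (Gds_meas δ _)) (mg.comp (mP.const_mul s))
    (Dt.BB_meas (X j) V ω) (mg.comp ((mP.comp (mulv_meas _)).const_mul s)) mX
    ((mg1.comp (mP.const_mul s)).const_mul _) hid (fun σ => hg _)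
    (fun σ => by
      rw [abs_mul, abs_mul, abs_of_nonneg hs0]
      have h5 := abs_nonneg (S * pr V (f j) ω)
      have h6 := hg1 (s * Ph S V X f σ)
      have h7 := abs_nonneg (g1 (s * Ph S V X f σ))
      calc s * |S * pr V (f j) ω| * |g1 (s * Ph S V X f σ)| ≤
            1 * La D L S Fm V.card * 1 := by gcongr
        _ = La D L S Fm V.card := by ring)
    h.B_le' (fun σ _ => hg _)
    (fun σ hσ => by
      have h3 := Ph_diff hX hort h hS hFm hf hσ
      have h4 := hDel σ hσ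
      obtain ⟨d, hd⟩ : ∃ d, d = s * Ph S V X f (Dt.vv γ t ω * σ) - s * Ph S V X f σ := ⟨_, rfl⟩
      rw [← hd] at h4
      have e1 : s * Ph S V X f (Dt.vv γ t ω * σ) = s * Ph S V X f σ + d := by rw [hd]; ring
      have e2 : g (s * Ph S V X f (Dt.vv γ t ω * σ)) - g (s * Ph S V X f σ) -
          t * (s * (S * pr V (f j) ω) * g1 (s * Ph S V X f σ)) =
          (g (s * Ph S V X f σ + d) - g (s * Ph S V X f σ) - d * g1 (s * Ph S V X f σ)) +
          s * (Ph S V X f (Dt.vv γ t ω * σ) - Ph S V X f σ - t * (S * pr V (f j) ω)) *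
            g1 (s * Ph S V X f σ) := by
        rw [e1, hd]; ring
      rw [e2]
      refine (abs_add_le _ _).trans ?_
      rw [add_comm]
      refine add_le_add ?_ ?_
      · rw [abs_mul, abs_mul, abs_of_nonneg hs0]
        have h6 := hg1 (s * Ph S V X f σ)
        have h7 := abs_nonneg (g1 (s * Ph S V X f σ))
        calc s * |Ph S V X f (Dt.vv γ t ω * σ) - Ph S V X f σ - t * (S * pr V (f j) ω)| *
              |g1 (s * Ph S V X f σ)| ≤ 1 * Ee n D L κ δ t S Fm V.card * 1 := by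
              gcongr
              exact h3
          _ = _ := by ring
      · refine (hd1 _ _).trans ?_
        rw [← sq_abs]
        exact pow_le_pow_left₀ (abs_nonneg _) h4 2)
    (fun σ hσ => by
      have h4 := hDel σ hσ
      have e1 : s * Ph S V X f (Dt.vv γ t ω * σ) = s * Ph S V X f σ +
        (s * Ph S V X f (Dt.vv γ t ω * σ) - s * Ph S V X f σ) := by ring
      show |g (s * Ph S V X f (Dt.vv γ t ω * σ)) - g (s * Ph S V X f σ)| ≤ _
      rw [e1]
      exact (hd2 _ _).trans h4)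
    (fun σ hσ => h.X_le hσ) (fun σ hσ => h.X_le2 hσ) hξ (fun σ hσ => h.B_le hσ)
    (mul_nonneg h.hβ ht.le) ht.le zero_le_one hL0 (by positivity) zero_le_one
    (by positivity) (by positivity) h.rho_nonneg (by positivity) h.pG h.pG'
  exact core

/-- the Schwinger-Dyson inequality for the Green function of the component `j` -/
theorem sd_j' {n : ℕ} {X : Fin n → Mt N} {γ : ℝ → G} {κ δ t p0 β S Fm W Bd : ℝ}
    {μ : Measure (Cf G D L)} {V : Finset (Site D)} {ω : SF D L} {j : Fin n}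
    (hX : ∀ i, ‖X i‖ = 1) (hort : ∀ i, ip (X i) (X j) = if i = j then 1 else 0)
    (hW : 0 < W) (h : Dt G D L β μ (X j) γ κ δ t p0 V (W⁻¹ • ω)) (hS : 0 < S) (hSβ : S ^ 2 = β)
    {f : Fin n → SF D L}
    (hFm : 0 ≤ Fm) (hf : ∀ i x a, |f i x a| ≤ Fm)
    (hω : ∀ χ : SF D L, (∀ x, x ∉ V → χ x = 0) → Bf V χ ω = pr V (f j) χ)
    (hBd : ∀ σ : Cf G D L, |pr (bdA V) (fun y b => Bf V ω (dl y b)) (sc (X j) σ)| ≤ Bd)
    (hξ : Dt.xi D L κ β δ t V.card ≤ 1) (hp0 : 0 ≤ p0)
    {g g1 : ℝ → ℝ} (mg : Measurable g) (mg1 : Measurable g1) (hg : ∀ a, |g a| ≤ 1)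
    (hg1 : ∀ a, |g1 a| ≤ 1) (hd1 : ∀ a h, |g (a + h) - g a - h * g1 a| ≤ h ^ 2)
    (hd2 : ∀ a h, |g (a + h) - g a| ≤ |h|) {s : ℝ} (hs0 : 0 ≤ s) (hs1 : s ≤ 1) :
    |∫ σ, g (s * Ph S V X f σ) * (S * pr V (f j) (sc (X j) σ)) ∂μ -
      s * pr V (f j) ω * ∫ σ, g1 (s * Ph S V X f σ) ∂μ| ≤
      W / (t * S) * Rr n D L N κ β δ t p0 S Fm V.card + S * Bd := by
  have := h.shf.prob
  have ht := h.ht
  have key := sd_j hX hort h hS.le hFm hf hξ hp0 mg mg1 hg hg1 hd1 hd2 hs0 hs1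
  have mP := Ph_meas (G := G) S V X f
  have mgs : Measurable fun σ : Cf G D L => g (s * Ph S V X f σ) := mg.comp (mP.const_mul s)
  have mpr : Measurable fun σ : Cf G D L => pr V (f j) (sc (X j) σ) := pr_meas (X j) V (f j)
  set bd : Cf G D L → ℝ := fun σ => pr (bdA V) (fun y b => Bf V ω (dl y b)) (sc (X j) σ) with hbd
  have mbd : Measurable bd := pr_meas (X j) _ _
  have eBB : ∀ σ : Cf G D L, Dt.BB (X j) V (W⁻¹ • ω) σ =
      W⁻¹ * (pr V (f j) (sc (X j) σ) + bd σ) := by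
    intro σ
    have e1 : Dt.BB (X j) V (W⁻¹ • ω) σ = Bf V (W⁻¹ • ω) (sc (X j) σ) := rfl
    rw [e1, map_smul, LinearMap.smul_apply, smul_eq_mul, Bf_sol hω]
  have epr : pr V (f j) (W⁻¹ • ω) = W⁻¹ * pr V (f j) ω := by
    unfold pr
    rw [Finset.mul_sum]
    refine Finset.sum_congr rfl fun x _ => ?_
    rw [Finset.mul_sum]
    refine Finset.sum_congr rfl fun a _ => ?_
    simp only [Pi.smul_apply, smul_eq_mul]
    ring
  have i1 : Integrable (fun σ : Cf G D L => g (s * Ph S V X f σ) * pr V (f j) (sc (X j) σ)) μ := by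
    refine Integrable.of_bound (mgs.mul mpr).aestronglyMeasurable
      (1 * ((V.card * (D * L)) * (Fm * (2 * N)))) (Filter.Eventually.of_forall fun σ => ?_)
    rw [Real.norm_eq_abs, abs_mul]
    exact mul_le_mul (hg _) (pr_le' (by positivity) hFm (fun x _ a => hf j x a)
      fun x _ a => (sc_le (hX j) σ x a).trans (Yf_le σ x a)) (abs_nonneg _) zero_le_one
  have hb1 : ∀ σ : Cf G D L, |g (s * Ph S V X f σ) * bd σ| ≤ Bd := by
    intro σ
    rw [abs_mul]
    have h1 := hg (s * Ph S V X f σ)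
    have h2 := hBd σ
    have h3 := abs_nonneg (bd σ)
    have h4 := abs_nonneg (g (s * Ph S V X f σ))
    calc |g (s * Ph S V X f σ)| * |bd σ| ≤ 1 * Bd := mul_le_mul h1 h2 h3 zero_le_one
      _ = Bd := one_mul _
  have i2 : Integrable (fun σ : Cf G D L => g (s * Ph S V X f σ) * bd σ) μ :=
    Integrable.of_bound (mgs.mul mbd).aestronglyMeasurable Bd (Filter.Eventually.of_forall hb1)
  have hb2 : |∫ σ, g (s * Ph S V X f σ) * bd σ ∂μ| ≤ Bd := by
    have := norm_integral_le_of_norm_le_const (μ := μ) (C := Bd)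
      (f := fun σ : Cf G D L => g (s * Ph S V X f σ) * bd σ) (Filter.Eventually.of_forall hb1)
    simpa using this
  have e2 : ∫ σ, g (s * Ph S V X f σ) * Dt.BB (X j) V (W⁻¹ • ω) σ ∂μ =
      W⁻¹ * (∫ σ, g (s * Ph S V X f σ) * pr V (f j) (sc (X j) σ) ∂μ +
        ∫ σ, g (s * Ph S V X f σ) * bd σ ∂μ) := by
    rw [← integral_add i1 i2, ← integral_const_mul]
    refine integral_congr_ae (Filter.Eventually.of_forall fun σ => ?_)
    simp only
    rw [eBB]
    ring
  have e3 : ∫ σ, g (s * Ph S V X f σ) * (S * pr V (f j) (sc (X j) σ)) ∂μ =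
      S * ∫ σ, g (s * Ph S V X f σ) * pr V (f j) (sc (X j) σ) ∂μ := by
    rw [← integral_const_mul]
    refine integral_congr_ae (Filter.Eventually.of_forall fun σ => ?_)
    simp only
    ring
  rw [e2, integral_const_mul, epr] at key
  rw [e3]
  obtain ⟨A, hA⟩ : ∃ A, A = ∫ σ, g (s * Ph S V X f σ) * pr V (f j) (sc (X j) σ) ∂μ := ⟨_, rfl⟩
  obtain ⟨B, hB⟩ : ∃ B, B = ∫ σ, g (s * Ph S V X f σ) * bd σ ∂μ := ⟨_, rfl⟩
  obtain ⟨J, hJ⟩ : ∃ J, J = ∫ σ, g1 (s * Ph S V X f σ) ∂μ := ⟨_, rfl⟩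
  rw [← hA, ← hB, ← hJ] at key
  rw [← hB] at hb2
  rw [← hA, ← hJ]
  have htS : 0 < t * S := mul_pos ht hS
  have e4 : (β * t) * (W⁻¹ * (A + B)) - t * (s * (S * (W⁻¹ * pr V (f j) ω)) * J) =
      (t * S / W) * (S * A - s * pr V (f j) ω * J + S * B) := by
    rw [← hSβ]; field_simp; ring
  rw [e4, abs_mul, abs_of_pos (by positivity)] at key
  have h5 : |S * A - s * pr V (f j) ω * J + S * B| ≤
      W / (t * S) * Rr n D L N κ β δ t p0 S Fm V.card := by
    rw [div_mul_eq_mul_div, le_div_iff₀ htS]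
    rw [div_mul_eq_mul_div, div_le_iff₀ hW] at key
    linarith
  have h6 : S * A - s * pr V (f j) ω * J = (S * A - s * pr V (f j) ω * J + S * B) - S * B := by
    ring
  rw [h6]
  refine (abs_sub _ _).trans (add_le_add h5 ?_)
  rw [abs_mul, abs_of_pos hS]
  exact mul_le_mul_of_nonneg_left hb2 hS.le

end

end Pool.Agent.N109.SlabU
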