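import Pool.Agent.N109.SlabU.RatioU
import Pool.Agent.N109.Slab.Upper

/-!
# The slab, uniformly in the thickness: the upper bound of the mass gap
-/

set_option autoImplicit false
set_option linter.unusedSectionVars false
set_option linter.unusedVariables false
set_option linter.style.haveILetI false

open MeasureTheory Matrix Finset Filter
open scoped Matrix.Norms.Frobenius ENNReal

namespace Pool.Agent.N109.SlabU

open Pool.Agent.N109.Slab
open Pool.Agent.N986.SL
open Pool.Agent.N990.Mach (FU)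

noncomputable section

variable {N D : ℕ} {G : Subgroup (N990.UU N)} [MeasurableSpace G] [BorelSpace G]

/-- the tail bound, uniformly in the thickness -/
def MbU (D : ℕ) (μ : Measure G) : Prop := ∀ e > (0 : ℝ), ∀ᶠ p in FU, ∀ L : ℕ, 1 ≤ L →
  (L : ℝ) ≤ p.2 → ∀ Q : Measure (Cf G D L), AxGibbs μ chi p.1 Q → ∀ y a,
      Q.real {σ : Cf G D L | p.1 ^ (-1 / 2 + e) / 2 < ‖N990.Yf σ y a‖} ≤
        Real.exp (-p.1 ^ (e / 2))

/-- **The upper bound of the mass gap**, uniformly in the thickness. -/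
theorem upperU_of (hG : IsClosed (G : Set (N990.UU N))) [Infinite G] (μ : Measure G)
    [IsProbabilityMeasure μ] [μ.IsMulLeftInvariant] (hM : MbU D μ) {ε : ℝ} (hε : 0 < ε)
    (hε1 : ε ≤ 1) :
    ∀ᶠ p in FU, ∀ L : ℕ, 1 ≤ L → (L : ℝ) ≤ p.2 → ∀ {i0 i1 : Fin D}, i0 ≠ i1 → ∀ {m : ℝ}, 0 < m →
      2 * Real.cosh m - 2 = N990.lam0 L →
    ∃ F : (Link D L → G) → ℝ, Half i0 F ∧ (∀ U, F (refl i0 U) = F U) ∧
      (∀ g : (Fin D → ℤ) → ℕ → G, (∀ x, g x 0 = 1) → ∀ U, F (gt g U) = F U) ∧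
      ∀ P : Measure (Link D L → G), Dlr μ chi p.1 P →
        0 < corr i0 P F 0 ∧
        Real.exp (-(2 * ((1 + ε) * m))) * corr i0 P F 0 ≤ corr i0 P F 2 := by
  obtain ⟨X, γ, κ, hone⟩ : ∃ (X : N990.Mt N) (γ : ℝ → G) (κ : ℝ), OneP X γ κ := by
    obtain ⟨X, γ, h⟩ := exists_oneP hG
    exact ⟨X, γ, _, h⟩
  have H1 := hM (1 / 10) (by norm_num)
  have H2 := ratioU (D := D) hone (e := 1 / 10) (by norm_num) le_rfl hε hε1
  filter_upwards [H1, H2] with ⟨β, Y⟩ H1 H2 L hL hLY i0 i1 h01 m hm0 hm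
  dsimp only at H1 H2 hLY ⊢
  obtain ⟨R, hR, H3⟩ := H2 L hL hLY h01 hm0 hm
  have hX := hone.nX
  refine ⟨Ob X i0 i1 R, Ob_half X hX h01 R, Ob_refl X h01 R, fun g hg U => Ob_gt X i0 i1 R hg U,
    fun P hP => ?_⟩
  have : CompactSpace G := isCompact_iff_compactSpace.1 hG.isCompact
  have : SecondCountableTopology (N990.UU N) := sctU
  have : SecondCountableTopology G := sctG
  have : μ.IsMulRightInvariant := right_invariant μ
  have h1 := (Dlr.gibbs chi_cont hP).axial chi_conj chi_cont.measurable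
    (b := 2 * N) (fun p => ?_)
  · obtain ⟨a1, a2, a3⟩ := H3 _ ⟨shf_of_ax h1, H1 L hL hLY _ h1⟩
    have m0 : Measurable fun σ : Cf G D L =>
        pr (Slab.box D (R + 1)) (fR i0 i1 R 0) (sc X σ) := pr_meas X _ _
    have m2 : Measurable fun σ : Cf G D L =>
        pr (Slab.box D (R + 1)) (fR i0 i1 R 2) (sc X σ) := pr_meas X _ _
    have i1' := integral_map (μ := P) (φ := ax) (f := fun σ : Cf G D L =>
      pr (Slab.box D (R + 1)) (fR i0 i1 R 0) (sc X σ) ^ 2) ax_meas.aemeasurable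
      (m0.pow_const 2).aestronglyMeasurable
    have i2' := integral_map (μ := P) (φ := ax) (f := fun σ : Cf G D L =>
      pr (Slab.box D (R + 1)) (fR i0 i1 R 0) (sc X σ)) ax_meas.aemeasurable
      m0.aestronglyMeasurable
    have i3' := integral_map (μ := P) (φ := ax) (f := fun σ : Cf G D L =>
      pr (Slab.box D (R + 1)) (fR i0 i1 R 2) (sc X σ) * pr (Slab.box D (R + 1)) (fR i0 i1 R 0) (sc X σ))
      ax_meas.aemeasurable (m2.mul m0).aestronglyMeasurable
    rw [i1', i2'] at a1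
    rw [i1', i2', i3'] at a3
    have c0 : corr i0 P (Ob X i0 i1 R) 0 =
        ∫ U, pr (Slab.box D (R + 1)) (fR i0 i1 R 0) (sc X (ax U)) ^ 2 ∂P -
          (∫ U, pr (Slab.box D (R + 1)) (fR i0 i1 R 0) (sc X (ax U)) ∂P) ^ 2 := by
      unfold corr
      have e0 : ∀ U : Link D L → G, shift (0 • e i0) U = U := by
        intro U
        funext l
        show U (l.1 + 0 • e i0, l.2) = U l
        rw [zero_smul, add_zero]
      simp only [e0, Ob_refl X h01, Ob_eq]
      simp only [sq]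
    have c2 : corr i0 P (Ob X i0 i1 R) 2 =
        ∫ U, pr (Slab.box D (R + 1)) (fR i0 i1 R 2) (sc X (ax U)) *
          pr (Slab.box D (R + 1)) (fR i0 i1 R 0) (sc X (ax U)) ∂P -
          (∫ U, pr (Slab.box D (R + 1)) (fR i0 i1 R 0) (sc X (ax U)) ∂P) *
            ∫ U, pr (Slab.box D (R + 1)) (fR i0 i1 R 0) (sc X (ax U)) ∂P := by
      unfold corr
      simp only [Ob_refl X h01, Ob_shift X hR]
      simp only [Ob_eq, sq]
      congr 1
      refine integral_congr_ae (Filter.Eventually.of_forall fun U => ?_)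
      show _ * _ = _ * _
      rw [mul_comm]
    rw [c0, c2]
    exact ⟨a1, a3⟩
  · have h2 := N990.norm_mt_sub_one_sq p
    have h3 := chi_mul_inv (p) (1 : G)
    rw [inv_one, mul_one, N990.mt_one] at h3
    have h4 : ‖N990.mt p - 1‖ ^ 2 ≤ 4 * N := by
      have h5 := N990.norm_mt_sub_one_sq p
      have : ‖N990.mt p - 1‖ ≤ ‖N990.mt p‖ + ‖(1 : N990.Mt N)‖ :=
        norm_sub_le _ _
      have h6 := N990.norm_mt_sq p
      have h7 := N990.norm_mt_sq (1 : G)
      rw [N990.mt_one] at h7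
      have h8 : ‖N990.mt p - 1‖ ^ 2 ≤
          (‖N990.mt p‖ + ‖(1 : N990.Mt N)‖) ^ 2 :=
        pow_le_pow_left₀ (norm_nonneg _) this 2
      have h9 : 0 ≤ (‖N990.mt p‖ - ‖(1 : N990.Mt N)‖) ^ 2 := sq_nonneg _
      nlinarith
    rw [h3, abs_of_nonneg (by positivity)]
    linarith

end

end Pool.Agent.N109.SlabU
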