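import Pool.Agent.N109.SlabU.CltB
import Pool.Agent.N109.SlabU.UpperU

/-!
# The central limit theorem for linear observables of the axial field, uniformly in the thickness
-/

set_option autoImplicit false
set_option linter.unusedSectionVars false
set_option linter.unusedVariables false

open MeasureTheory Finset Function Filter Topology
open scoped Matrix.Norms.Frobenius

namespace Pool.Agent.N109.SlabU

open Pool.Agent.N990 hiding CB CB_nonneg
open Pool.Agent.N109.Slab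
open Pool.Agent.N990.Mach (FU)

noncomputable section

/-! ### the asymptotic inequality -/

def KEc (n D L : ℕ) (κ Fm : ℝ) : ℝ := n * (D * L) * Fm * (κ + 2)

def KFc (n D L : ℕ) (κ Fm : ℝ) : ℝ := (D * L) * Fm + KEc n D L κ Fm

def KAc (n D L N : ℕ) (κ Fm : ℝ) : ℝ := K1 D L κ ^ 2 + (KEc n D L κ Fm + KFc n D L κ Fm ^ 2) +
  K1 D L κ + KFc n D L κ Fm * (((D : ℝ) + 1) * CB D L) +
  ((D : ℝ) + 1) * ((D : ℝ) + 1) * (D * L) * (2 + D * L * Fm + ((D : ℝ) + 1) * (CB D L * (2 * N)))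

lemma KEc_nonneg {n D L : ℕ} {κ Fm : ℝ} (hκ : 0 ≤ κ) (hF : 0 ≤ Fm) : 0 ≤ KEc n D L κ Fm := by
  unfold KEc; positivity

lemma KFc_nonneg {n D L : ℕ} {κ Fm : ℝ} (hκ : 0 ≤ κ) (hF : 0 ≤ Fm) : 0 ≤ KFc n D L κ Fm := by
  have := KEc_nonneg (n := n) (D := D) (L := L) hκ hF
  unfold KFc; positivity

lemma K1_nonneg {D L : ℕ} {κ : ℝ} (hκ : 0 ≤ κ) : 0 ≤ K1 D L κ := by
  have h1 := CB_nonneg (D := D) (L := L)
  have h2 := Dt.CT_nonneg (D := D) (L := L) hκ
  unfold K1; positivity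

lemma KAc_nonneg {n D L N : ℕ} {κ Fm : ℝ} (hκ : 0 ≤ κ) (hF : 0 ≤ Fm) : 0 ≤ KAc n D L N κ Fm := by
  have h1 := KEc_nonneg (n := n) (D := D) (L := L) hκ hF
  have h2 := KFc_nonneg (n := n) (D := D) (L := L) hκ hF
  have h3 := CB_nonneg (D := D) (L := L)
  have h4 := K1_nonneg (D := D) (L := L) hκ
  unfold KAc; positivity

/-- the algebraic core -/
lemma asym_alg {n D L N : ℕ} {κ Fm β y δ t p0 S z q : ℝ} (hκ : 0 ≤ κ) (hF : 0 ≤ Fm)
    (hβ : 1 ≤ β) (hy0 : 0 ≤ y) (hyq : y ≤ q) (hq1 : 1 ≤ q) (hz0 : 0 < z) (hz1 : z ≤ 1)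
    (hqz : q ^ 2 * z ≤ 1) (ht : 0 < t) (hδ0 : 0 < δ) (hδ : δ ≤ 1) (htδ : t ≤ δ) (hS : 0 < S)
    (hS1 : 1 ≤ S) (e1 : t * S = z ^ 4) (e2 : β * t * δ = z ^ 3) (e3 : β * t ^ 2 = z ^ 8)
    (e4 : β * (t * δ ^ 2) ≤ z ^ 8) (e5 : S * (δ * t) ≤ z ^ 8) (hp : 0 ≤ p0) (e6 : p0 * S ≤ z ^ 8)
    (e7 : β * t ≤ S) :
    Rr n D L N κ β δ t p0 S Fm y ≤ KAc n D L N κ Fm * (t * S * z) := by
  have hKE := KEc_nonneg (n := n) (D := D) (L := L) hκ hF
  have hKF := KFc_nonneg (n := n) (D := D) (L := L) hκ hF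
  have hCB := CB_nonneg (D := D) (L := L)
  have hCT := Dt.CT_nonneg (D := D) (L := L) hκ
  have hK1 := K1_nonneg (D := D) (L := L) hκ
  have hβ0 : 0 < β := by linarith
  have hq0 : 0 ≤ q := by linarith
  have hqq : q ≤ q ^ 2 := by nlinarith
  have z86 : z ^ 8 ≤ z ^ 6 := pow_le_pow_of_le_one hz0.le hz1 (by norm_num)
  have z76 : z ^ 7 ≤ z ^ 6 := pow_le_pow_of_le_one hz0.le hz1 (by norm_num)
  have z84 : z ^ 8 ≤ z ^ 4 := pow_le_pow_of_le_one hz0.le hz1 (by norm_num)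
  have hz6 : 0 ≤ z ^ 6 := by positivity
  -- rho
  have hrho : Dt.rho D L κ β δ t y ≤ K1 D L κ * q * z ^ 8 := by
    unfold Dt.rho K1
    calc β * (((D : ℝ) + 1) * y * (CB D L * t ^ 2 + CT D L κ * (t * δ ^ 2))) =
          ((D : ℝ) + 1) * y * (CB D L * (β * t ^ 2) + CT D L κ * (β * (t * δ ^ 2))) := by ring
      _ ≤ ((D : ℝ) + 1) * q * (CB D L * z ^ 8 + CT D L κ * z ^ 8) := by
          have : 0 ≤ β * (t * δ ^ 2) := by positivity
          gcongr
          exact e3.le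
      _ = ((D : ℝ) + 1) * (CB D L + CT D L κ) * q * z ^ 8 := by ring
      _ ≤ ((D : ℝ) + 1) * (2 * CB D L + CT D L κ) * q * z ^ 8 := by
          gcongr; linarith
  have hrho0 : 0 ≤ Dt.rho D L κ β δ t y := by unfold Dt.rho; positivity
  -- xi
  have hxi0 : 0 ≤ Dt.xi D L κ β δ t y := by unfold Dt.xi; positivity
  have hxi : Dt.xi D L κ β δ t y ≤ K1 D L κ * q * z ^ 3 := by
    have z83 : z ^ 8 ≤ z ^ 3 := pow_le_pow_of_le_one hz0.le hz1 (by norm_num)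
    unfold Dt.xi Dt.rho K1
    calc β * t * (((D : ℝ) + 1) * y * (CB D L * δ)) +
          β * (((D : ℝ) + 1) * y * (CB D L * t ^ 2 + CT D L κ * (t * δ ^ 2))) =
          ((D : ℝ) + 1) * y * (CB D L * (β * t * δ) + CB D L * (β * t ^ 2) +
            CT D L κ * (β * (t * δ ^ 2))) := by ring
      _ ≤ ((D : ℝ) + 1) * q * (CB D L * z ^ 3 + CB D L * z ^ 3 + CT D L κ * z ^ 3) := by
          have h1 : 0 ≤ β * (t * δ ^ 2) := by positivity
          have h2 : β * (t * δ ^ 2) ≤ z ^ 3 := e4.trans z83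
          have h3 : β * t ^ 2 ≤ z ^ 3 := e3.le.trans z83
          gcongr
          exact e2.le
      _ = _ := by ring
  have b1 : Dt.xi D L κ β δ t y ^ 2 ≤ K1 D L κ ^ 2 * (q ^ 2 * z ^ 6) := by
    calc Dt.xi D L κ β δ t y ^ 2 ≤ (K1 D L κ * q * z ^ 3) ^ 2 := by gcongr
      _ = _ := by ring
  -- E
  have hE0 : 0 ≤ Ee n D L κ δ t S Fm y := by unfold Ee; positivity
  have hE : Ee n D L κ δ t S Fm y ≤ KEc n D L κ Fm * (q * z ^ 8) := by
    unfold Ee KEc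
    calc S * (n * ((y * (D * L)) * (Fm * ((κ + 2) * δ * t)))) =
          n * (D * L) * Fm * (κ + 2) * (y * (S * (δ * t))) := by ring
      _ ≤ n * (D * L) * Fm * (κ + 2) * (q * z ^ 8) := by gcongr
  have hE2 : Ee n D L κ δ t S Fm y ≤ KEc n D L κ Fm * (q ^ 2 * z ^ 6) := by
    refine hE.trans ?_
    gcongr
  -- t Λ
  have hL0 : 0 ≤ t * La D L S Fm y := by unfold La; positivity
  have hLa : t * La D L S Fm y ≤ ((D * L) * Fm) * (q * z ^ 4) := by
    unfold La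
    calc t * (S * ((y * (D * L)) * (Fm * 1))) = ((D * L) * Fm) * (y * (t * S)) := by ring
      _ ≤ ((D * L) * Fm) * (q * z ^ 4) := by
          gcongr
          exact e1.le
  have hLE : t * La D L S Fm y + Ee n D L κ δ t S Fm y ≤ KFc n D L κ Fm * (q * z ^ 4) := by
    have h1 : KEc n D L κ Fm * (q * z ^ 8) ≤ KEc n D L κ Fm * (q * z ^ 4) := by gcongr
    calc _ ≤ ((D * L) * Fm) * (q * z ^ 4) + KEc n D L κ Fm * (q * z ^ 4) :=
          add_le_add hLa (hE.trans h1)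
      _ = _ := by unfold KFc; ring
  have hLE0 : 0 ≤ t * La D L S Fm y + Ee n D L κ δ t S Fm y := add_nonneg hL0 hE0
  have b2 : (t * La D L S Fm y + Ee n D L κ δ t S Fm y) ^ 2 ≤
      KFc n D L κ Fm ^ 2 * (q ^ 2 * z ^ 6) := by
    calc _ ≤ (KFc n D L κ Fm * (q * z ^ 4)) ^ 2 := by gcongr
      _ = KFc n D L κ Fm ^ 2 * (q ^ 2 * z ^ 8) := by ring
      _ ≤ _ := by gcongr
  have b3 : Dt.rho D L κ β δ t y ≤ K1 D L κ * (q ^ 2 * z ^ 6) := by
    calc _ ≤ K1 D L κ * (q * z ^ 8) := by rw [← mul_assoc]; exact hrho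
      _ ≤ _ := by gcongr
  have b4 : (β * t) * ((t * La D L S Fm y + Ee n D L κ δ t S Fm y) *
      ((D + 1) * y * (CB D L * δ))) ≤
      KFc n D L κ Fm * (((D : ℝ) + 1) * CB D L) * (q ^ 2 * z ^ 6) := by
    calc _ = (t * La D L S Fm y + Ee n D L κ δ t S Fm y) * ((((D : ℝ) + 1) * CB D L) *
          (y * (β * t * δ))) := by ring
      _ ≤ (KFc n D L κ Fm * (q * z ^ 4)) * ((((D : ℝ) + 1) * CB D L) * (q * z ^ 3)) := by
          gcongr
          exact e2.le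
      _ = KFc n D L κ Fm * (((D : ℝ) + 1) * CB D L) * (q ^ 2 * z ^ 7) := by ring
      _ ≤ _ := by gcongr
  have b5 : ((D + 1) * ((D + 1) * y) * (D * L) * p0) * (2 * 1 + t * La D L S Fm y +
      (β * t) * (1 * ((D + 1) * y * (CB D L * (2 * N))))) ≤
      ((D : ℝ) + 1) * ((D : ℝ) + 1) * (D * L) * (2 + D * L * Fm +
        ((D : ℝ) + 1) * (CB D L * (2 * N))) * (q ^ 2 * z ^ 6) := by
    have c1 : 2 * 1 + t * La D L S Fm y + (β * t) * (1 * ((D + 1) * y * (CB D L * (2 * N)))) ≤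
        (2 + D * L * Fm + ((D : ℝ) + 1) * (CB D L * (2 * N))) * (q * S) := by
      have hqS : 1 ≤ q * S := one_le_mul_of_one_le_of_one_le hq1 hS1
      have d1 : (2 : ℝ) * 1 ≤ 2 * (q * S) := by linarith
      have z41 : z ^ 4 ≤ 1 := pow_le_one₀ hz0.le hz1
      have d2 : t * La D L S Fm y ≤ D * L * Fm * (q * S) := by
        refine hLa.trans ?_
        have : z ^ 4 ≤ S := z41.trans hS1
        gcongr
      have d3 : (β * t) * (1 * ((D + 1) * y * (CB D L * (2 * N)))) ≤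
          ((D : ℝ) + 1) * (CB D L * (2 * N)) * (q * S) := by
        calc _ = ((D : ℝ) + 1) * (CB D L * (2 * N)) * (y * (β * t)) := by ring
          _ ≤ _ := by gcongr
      calc _ ≤ 2 * (q * S) + D * L * Fm * (q * S) +
            ((D : ℝ) + 1) * (CB D L * (2 * N)) * (q * S) := add_le_add (add_le_add d1 d2) d3
        _ = _ := by ring
    calc _ ≤ ((D + 1) * ((D + 1) * q) * (D * L) * p0) *
          ((2 + D * L * Fm + ((D : ℝ) + 1) * (CB D L * (2 * N))) * (q * S)) := by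
          have : 0 ≤ 2 * 1 + t * La D L S Fm y +
            (β * t) * (1 * ((D + 1) * y * (CB D L * (2 * N)))) := by positivity
          gcongr
      _ = ((D : ℝ) + 1) * ((D : ℝ) + 1) * (D * L) * (2 + D * L * Fm +
          ((D : ℝ) + 1) * (CB D L * (2 * N))) * (q ^ 2 * (p0 * S)) := by ring
      _ ≤ _ := by
          have : p0 * S ≤ z ^ 6 := e6.trans z86
          gcongr
  have hfin : q ^ 2 * z ^ 6 ≤ t * S * z := by
    rw [e1]
    have : (q ^ 2 * z) * z ^ 5 ≤ 1 * z ^ 5 := by gcongr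
    calc q ^ 2 * z ^ 6 = (q ^ 2 * z) * z ^ 5 := by ring
      _ ≤ 1 * z ^ 5 := this
      _ = z ^ 4 * z := by ring
  have hKA := KAc_nonneg (n := n) (D := D) (L := L) (N := N) hκ hF
  calc Rr n D L N κ β δ t p0 S Fm y ≤ KAc n D L N κ Fm * (q ^ 2 * z ^ 6) := by
        unfold Rr KAc
        linarith
    _ ≤ _ := mul_le_mul_of_nonneg_left hfin hKA

/-- the asymptotic inequality -/
lemma asymC {n D L N : ℕ} {κ e Fm β y δ t p0 S : ℝ} (hκ : 0 ≤ κ) (he : 0 < e) (he2 : e ≤ 1 / 20)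
    (hF : 0 ≤ Fm) (hβ : 1 ≤ β) (hy0 : 0 ≤ y) (hy : y ≤ β ^ (e / 16))
    (hδ : δ = β ^ (-1 / 2 + e)) (ht : t = β ^ (-1 / 2 - 4 * e)) (hS : S = β ^ (1 / 2 : ℝ))
    (hp : 0 ≤ p0) (hp4 : p0 ≤ β ^ (-4 : ℝ)) :
    Rr n D L N κ β δ t p0 S Fm y ≤ KAc n D L N κ Fm * (t * S * β ^ (-e)) := by
  have hβ0 : 0 < β := by linarith
  have hpow : ∀ m : ℕ, (β ^ (-e)) ^ m = β ^ (-(e * m)) := by
    intro m
    rw [← Real.rpow_natCast, ← Real.rpow_mul hβ0.le]
    congr 1; ring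
  refine asym_alg (q := β ^ (e / 16)) (z := β ^ (-e)) hκ hF hβ hy0 hy
    (Real.one_le_rpow hβ (by linarith)) (Real.rpow_pos_of_pos hβ0 _)
    (Real.rpow_le_one_of_one_le_of_nonpos hβ (by linarith)) ?_ ?_ ?_ ?_ ?_ ?_ ?_ ?_ ?_ ?_ ?_ ?_ hp
    ?_ ?_
  · rw [← Real.rpow_natCast, ← Real.rpow_mul hβ0.le, ← Real.rpow_add hβ0]
    refine Real.rpow_le_one_of_one_le_of_nonpos hβ ?_
    push_cast; linarith
  · rw [ht]; exact Real.rpow_pos_of_pos hβ0 _
  · rw [hδ]; exact Real.rpow_pos_of_pos hβ0 _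
  · rw [hδ]; exact Real.rpow_le_one_of_one_le_of_nonpos hβ (by linarith)
  · rw [hδ, ht]; exact Real.rpow_le_rpow_of_exponent_le hβ (by linarith)
  · rw [hS]; exact Real.rpow_pos_of_pos hβ0 _
  · rw [hS]; exact Real.one_le_rpow hβ (by norm_num)
  · rw [hpow, ht, hS, ← Real.rpow_add hβ0]
    congr 1; push_cast; ring
  · rw [hpow, ht, hδ]
    nth_rewrite 1 [← Real.rpow_one β]
    rw [← Real.rpow_add hβ0, ← Real.rpow_add hβ0]
    congr 1; push_cast; ring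
  · rw [hpow, ht, ← Real.rpow_natCast, ← Real.rpow_mul hβ0.le]
    nth_rewrite 1 [← Real.rpow_one β]
    rw [← Real.rpow_add hβ0]
    congr 1; push_cast; ring
  · rw [hpow, ht, hδ, ← Real.rpow_natCast, ← Real.rpow_mul hβ0.le]
    nth_rewrite 1 [← Real.rpow_one β]
    rw [← Real.rpow_add hβ0, ← Real.rpow_add hβ0]
    refine Real.rpow_le_rpow_of_exponent_le hβ ?_
    push_cast; linarith
  · rw [hpow, ht, hδ, hS, ← Real.rpow_add hβ0, ← Real.rpow_add hβ0]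
    refine Real.rpow_le_rpow_of_exponent_le hβ ?_
    push_cast; linarith
  · calc p0 * S ≤ β ^ (-4 : ℝ) * β ^ (1 / 2 : ℝ) := by
          rw [hS]
          exact mul_le_mul_of_nonneg_right hp4 (Real.rpow_nonneg hβ0.le _)
      _ ≤ _ := by
          rw [hpow, ← Real.rpow_add hβ0]
          refine Real.rpow_le_rpow_of_exponent_le hβ ?_
          push_cast; linarith
  · rw [ht, hS]
    nth_rewrite 1 [← Real.rpow_one β]
    rw [← Real.rpow_add hβ0]
    exact Real.rpow_le_rpow_of_exponent_le hβ (by linarith)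

/-! ### the covariance -/

variable {D L : ℕ}

/-- the quadratic form of the covariance of the free field in `A` with zero boundary values -/
def qA (A : Finset (Site D)) (f : SF D L) : ℝ :=
  sSup {r | ∃ ω : SF D L, (∀ x, x ∉ A → ω x = 0) ∧ r = 2 * pr A f ω - ∑ x ∈ Ns A, bx ω ω x}

/-- the covariance from the solution -/
lemma qA_eq {A : Finset (Site D)} {f ω : SF D L} (hL : 0 < lam0 L) (hω0 : ∀ x, x ∉ A → ω x = 0)
    (hω : ∀ χ : SF D L, (∀ x, x ∉ A → χ x = 0) → Bf A χ ω = pr A f χ) :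
    qA A f = pr A f ω := by
  have h1 : IsGreatest {r | ∃ ω : SF D L, (∀ x, x ∉ A → ω x = 0) ∧
      r = 2 * pr A f ω - ∑ x ∈ Ns A, bx ω ω x} (pr A f ω) := by
    refine ⟨⟨ω, hω0, ?_⟩, ?_⟩
    · rw [← Bf_apply, hω ω hω0]; ring
    · rintro r ⟨χ, hχ, rfl⟩
      rw [← Bf_apply, ← hω χ hχ]
      have h2 : 0 ≤ Bf A (χ - ω) (χ - ω) := by
        refine le_trans ?_ (coer A (χ - ω) fun x hx => ?_)
        · exact mul_nonneg hL.le (Finset.sum_nonneg fun _ _ =>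
            Finset.sum_nonneg fun _ _ => by positivity)
        · rw [Pi.sub_apply, hχ x hx, hω0 x hx, sub_zero]
      rw [map_sub (Bf A) χ ω, LinearMap.sub_apply, map_sub, map_sub, hω ω hω0, Bf_comm A ω χ] at h2
      linarith
  exact h1.csSup_eq

end

end Pool.Agent.N109.SlabU
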