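import Pool.Agent.N109.SlabU.CltC

/-!
# The central limit theorem for linear observables of the axial field: the theorem
-/

set_option autoImplicit false
set_option linter.unusedSectionVars false
set_option linter.unusedVariables false

open MeasureTheory Finset Function Filter Topology
open scoped Matrix.Norms.Frobenius

namespace Pool.Agent.N109.SlabU

open Pool.Agent.N990 hiding CB CB_nonneg dd_le
open Pool.Agent.N109.Slab
open Pool.Agent.N990.Mach (FU)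

noncomputable section

variable {N D L : ℕ} {G : Subgroup (UU N)} [MeasurableSpace G] [BorelSpace G]

/-- the constant of the boundary term -/
def KBc (D L N : ℕ) (C : ℝ) : ℝ := (((D : ℝ) + 1) * (D + 1)) * (D * L) *
    (((D + 1) * (4 * (D * L) + 16 * (D * D * L))) * C * (2 * N))

/-- the boundary term -/
lemma bd_le {X : Mt N} (nX : ‖X‖ = 1) {α : ℝ} (hα : 0 < α) {β : ℝ} (hβ1 : 1 ≤ β) {R0 : ℕ}
    {ω : SF D L} {C : ℝ} (hC0 : 0 ≤ C)
    (hω3 : ∀ x a, |ω x a| ≤ C * (Real.exp (α * R0) * Real.exp (-(α * dd x 0))))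
    (a2 : (2 * (rad α R0 β : ℝ) + 1) ^ D ≤ β ^ (1 / 2 : ℝ)) (σ : Cf G D L) :
    |pr (bdA (box D (rad α R0 β))) (fun y b => Bf (box D (rad α R0 β)) ω (dl y b)) (sc X σ)| ≤
      KBc D L N C * β ^ (-3 / 2 : ℝ) := by
  have hβ0 : 0 < β := by linarith
  obtain ⟨R, hR⟩ : ∃ R, R = rad α R0 β := ⟨_, rfl⟩
  rw [← hR] at a2 ⊢
  have hcoef : ∀ y ∈ bdA (box D R), ∀ b, |Bf (box D R) ω (dl y b)| ≤
      ((D + 1) * (4 * (D * L) + 16 * (D * D * L))) * (C * β ^ (-2 : ℝ)) := by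
    intro y hy b
    have hy' : y ∉ box D R := (mem_bdA.1 hy).2
    refine Bf_dl_le (box D R) y b ω (by positivity) fun x hx a => ?_
    refine (hω3 x a).trans (mul_le_mul_of_nonneg_left ?_ hC0)
    refine le_trans ?_ (rad_ge' hα hβ1 R0)
    rw [← Real.exp_add]
    apply Real.exp_le_exp.2
    have h2 : R ≤ dd x 0 := by
      by_contra hlt
      push Not at hlt
      apply hy'
      rw [mem_box]
      intro i
      have h3 := dd_le.1 (Nat.le_sub_one_of_lt hlt) i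
      have h4 := dd_le.1 hx i
      rw [Pi.zero_apply, sub_zero] at h3
      have h5 : ((R - 1 : ℕ) : ℤ) ≤ (R : ℤ) - 1 := by omega
      have h6 := abs_le.1 h3
      have h7 := abs_le.1 h4
      push_cast at h7
      constructor <;> linarith [h6.1, h6.2, h7.1, h7.2]
    have h3 : (R : ℝ) ≤ dd x 0 := by exact_mod_cast h2
    have := mul_le_mul_of_nonneg_left h3 hα.le
    rw [← hR]
    linarith
  have h2 := pr_le' (V := bdA (box D R)) (c := fun y b => Bf (box D R) ω (dl y b))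
    (φ := sc X σ) (m := 2 * N) (q := ((D + 1) * (4 * (D * L) + 16 * (D * D * L))) *
      (C * β ^ (-2 : ℝ))) (by positivity) (by positivity) hcoef
    (fun x _ a => (sc_le nX σ x a).trans (Yf_le σ x a))
  refine h2.trans ?_
  have h3 : ((bdA (box D R)).card : ℝ) ≤ ((D : ℝ) + 1) * ((D + 1) * β ^ (1 / 2 : ℝ)) := by
    refine (bdA_card _).trans ?_
    have : ((box D R).card : ℝ) ≤ β ^ (1 / 2 : ℝ) := by
      rw [box_card]; push_cast; exact a2
    gcongr
  calc _ ≤ (((D : ℝ) + 1) * ((D + 1) * β ^ (1 / 2 : ℝ)) * (D * L)) *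
        (((D + 1) * (4 * (D * L) + 16 * (D * D * L))) * (C * β ^ (-2 : ℝ)) * (2 * N)) := by
        gcongr
    _ = KBc D L N C * (β ^ (1 / 2 : ℝ) * β ^ (-2 : ℝ)) := by unfold KBc; ring
    _ = _ := by rw [← Real.rpow_add hβ0]; norm_num

/-- **The central limit theorem**: the core -/
theorem clt_core {n : ℕ} {X : Fin n → Mt N} {γ : Fin n → ℝ → G} {κ : ℝ} (hκ : 0 ≤ κ)
    (hone : ∀ j, OneP (X j) (γ j) κ) (hort : ∀ i j, ip (X i) (X j) = if i = j then 1 else 0)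
    {e : ℝ} (he : 0 < e) (he2 : e ≤ 1 / 20) (hL : 1 ≤ L) {R0 : ℕ} {β : ℝ} (hβ1 : 1 ≤ β)
    {μ : Measure (Cf G D L)} (hμ : Stt G D L e β μ) {Fm W : ℝ} (hFm : 0 < Fm) (hW : 0 < W)
    (a1 : (2 * (rad (alp L) R0 β : ℝ) + 1) ^ D ≤ β ^ (e / 16))
    (a2 : (2 * (rad (alp L) R0 β : ℝ) + 1) ^ D ≤ β ^ (1 / 2 : ℝ))
    (H : ∀ y : ℝ, 0 ≤ y → y ≤ β ^ (e / 16) → ∀ δ t : ℝ,
      δ = β ^ (-1 / 2 + e) → t = β ^ (-1 / 2 - 4 * e) →
      0 < t ∧ 4 * t ≤ δ ∧ δ ≤ 1 ∧ κ * t ≤ 1 ∧ Dt.xi D L κ β δ t y ≤ 1)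
    (b6 : Real.exp (-β ^ (e / 2)) ≤ β ^ (-4 : ℝ))
    {f : Fin n → SF D L} (hf0 : ∀ j x, x ∉ box D R0 → f j x = 0)
    (hf : ∀ j x a, |f j x a| ≤ Fm) (hfW : ∀ j, nsq (box D R0) (f j) / lam0 L ^ 2 ≤ W ^ 2) :
    ‖∫ σ, Complex.exp (Complex.I *
        ((Ph (β ^ (1 / 2 : ℝ)) (box D (rad (alp L) R0 β)) X f σ : ℝ) : ℂ)) ∂μ -
      Complex.exp (-(((∑ j, qA (box D (rad (alp L) R0 β)) (f j)) / 2 : ℝ) : ℂ))‖ ≤
      2 * (n * ((W * KAc n D L N κ Fm + KBc D L N (Fm * Cgr D L (alp L) R0)) * β ^ (-e))) := by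
  classical
  have hlam := lam0_pos hL
  have hα := alp_pos hL
  have hβ0 : 0 < β := by linarith
  have hX : ∀ i, ‖X i‖ = 1 := fun i => (hone i).nX
  have := hμ.shf.prob
  obtain ⟨R, hR⟩ : ∃ R, R = rad (alp L) R0 β := ⟨_, rfl⟩
  have hRR : R0 ≤ R := by rw [hR]; unfold rad; omega
  obtain ⟨V, hV⟩ : ∃ V, V = box D R := ⟨_, rfl⟩
  have hVc : (V.card : ℝ) ≤ β ^ (e / 16) := by
    rw [hV, box_card, hR]; push_cast; exact a1
  rw [← hR, ← hV]
  obtain ⟨δ, hδ⟩ : ∃ δ, δ = β ^ (-1 / 2 + e) := ⟨_, rfl⟩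
  obtain ⟨t, ht⟩ : ∃ t, t = β ^ (-1 / 2 - 4 * e) := ⟨_, rfl⟩
  obtain ⟨S, hS⟩ : ∃ S, S = β ^ (1 / 2 : ℝ) := ⟨_, rfl⟩
  obtain ⟨p0, hp0⟩ : ∃ p0, p0 = Real.exp (-β ^ (e / 2)) := ⟨_, rfl⟩
  have hp00 : 0 ≤ p0 := by rw [hp0]; exact (Real.exp_pos _).le
  rw [← hp0] at b6
  rw [← hS]
  have hS0 : 0 < S := by rw [hS]; exact Real.rpow_pos_of_pos hβ0 _
  have hSβ : S ^ 2 = β := by
    rw [hS, ← Real.rpow_natCast, ← Real.rpow_mul hβ0.le]; norm_num
  obtain ⟨t0, t1, t2, t3, t4⟩ := H V.card (Nat.cast_nonneg _) hVc δ t hδ ht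
  -- the Green functions
  have hC0 := Cgr_nonneg (D := D) (alp_lt hL) R0
  have hex : ∀ j, ∃ ω : SF D L, (∀ x, x ∉ V → ω x = 0) ∧
      (∀ χ : SF D L, (∀ x, x ∉ V → χ x = 0) → Bf V χ ω = pr V (f j) χ) ∧
      (∀ x a, |ω x a| ≤ (Fm * Cgr D L (alp L) R0) *
        (Real.exp (alp L * R0) * Real.exp (-(alp L * dd x 0)))) := by
    intro j
    obtain ⟨ω, h1, h2, h3⟩ := exists_green (D := D) hα (alp_lt hL) R0 (Fm⁻¹ • f j)
      (fun x hx => by rw [Pi.smul_apply, hf0 j x hx, smul_zero])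
      (fun x a => by
        simp only [Pi.smul_apply, smul_eq_mul]
        rw [abs_mul, abs_inv, abs_of_pos hFm, inv_mul_le_iff₀ hFm, mul_one]
        exact hf j x a) R hRR
    rw [← hV] at h1 h2
    refine ⟨Fm • ω, fun x hx => by rw [Pi.smul_apply, h1 x hx, smul_zero], fun χ hχ => ?_,
      fun x a => ?_⟩
    · rw [map_smul, h2 χ hχ, smul_eq_mul]
      unfold pr
      rw [Finset.mul_sum]
      refine Finset.sum_congr rfl fun x _ => ?_
      rw [Finset.mul_sum]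
      refine Finset.sum_congr rfl fun a _ => ?_
      simp only [Pi.smul_apply, smul_eq_mul]
      field_simp
    · simp only [Pi.smul_apply, smul_eq_mul]
      rw [abs_mul, abs_of_pos hFm, mul_assoc]
      exact mul_le_mul_of_nonneg_left (h3 x a) hFm.le
  choose ω hω0 hω2 hω3 using hex
  have hωW : ∀ j x a, |ω j x a| ≤ W := by
    intro j x a
    by_cases hx : x ∈ V
    · obtain ⟨en1, en2⟩ := sol_energy hlam (hω0 j) (hω2 j)
      have hnsq : nsq V (f j) = nsq (box D R0) (f j) := by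
        unfold nsq
        symm
        rw [hV]
        refine Finset.sum_subset (box_mono hRR) fun x _ hx => ?_
        rw [hf0 j x hx]; simp
      rw [hnsq] at en2
      have h2 : ω j x a ^ 2 ≤ W ^ 2 := by
        calc ω j x a ^ 2 ≤ ∑ a, ω j x a ^ 2 :=
              Finset.single_le_sum (f := fun a => ω j x a ^ 2) (fun _ _ => by positivity)
                (Finset.mem_univ a)
          _ ≤ nsq V (ω j) := Finset.single_le_sum (f := fun x => ∑ a, ω j x a ^ 2)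
              (fun _ _ => Finset.sum_nonneg fun _ _ => by positivity) hx
          _ ≤ nsq (box D R0) (f j) / lam0 L ^ 2 := en2
          _ ≤ W ^ 2 := hfW j
      exact abs_le_of_sq_le_sq h2 hW.le
    · rw [hω0 j x hx]; simpa using hW.le
  have hDt : ∀ j, Dt G D L β μ (X j) (γ j) κ δ t p0 V (W⁻¹ • ω j) := by
    intro j
    refine ⟨hμ.shf, hone j, hβ0.le, t0, t1, t2, t3, fun x a => ?_, fun x hx => ?_, fun y a => ?_⟩
    · simp only [Pi.smul_apply, smul_eq_mul]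
      rw [abs_mul, abs_inv, abs_of_pos hW, inv_mul_le_iff₀ hW, mul_one]
      exact hωW j x a
    · rw [Pi.smul_apply, hω0 j x hx, smul_zero]
    · rw [hδ, hp0]; exact hμ.mb y a
  have hbd : ∀ j, ∀ σ : Cf G D L,
      |pr (bdA V) (fun y b => Bf V (ω j) (dl y b)) (sc (X j) σ)| ≤
        KBc D L N (Fm * Cgr D L (alp L) R0) * β ^ (-3 / 2 : ℝ) := by
    intro j σ
    rw [hV, hR]
    exact bd_le (hX j) hα hβ1 (by positivity) (hω3 j) a2 σ
  -- the error
  obtain ⟨η1, hη1⟩ : ∃ η1, η1 =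
      (W * KAc n D L N κ Fm + KBc D L N (Fm * Cgr D L (alp L) R0)) * β ^ (-e) := ⟨_, rfl⟩
  have hKB0 : 0 ≤ KBc D L N (Fm * Cgr D L (alp L) R0) := by unfold KBc; positivity
  have hKA0 := KAc_nonneg (n := n) (D := D) (L := L) (N := N) hκ hFm.le
  have hη10 : 0 ≤ η1 := by
    rw [hη1]
    have := Real.rpow_nonneg hβ0.le (-e)
    positivity
  have herr : W / (t * S) * Rr n D L N κ β δ t p0 S Fm V.card +
      S * (KBc D L N (Fm * Cgr D L (alp L) R0) * β ^ (-3 / 2 : ℝ)) ≤ η1 := by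
    have h1 := asymC (n := n) (D := D) (L := L) (N := N) hκ he he2 hFm.le hβ1
      (Nat.cast_nonneg V.card) hVc hδ ht hS hp00 b6
    have htS : 0 < t * S := mul_pos t0 hS0
    have h2 : W / (t * S) * Rr n D L N κ β δ t p0 S Fm V.card ≤
        W * KAc n D L N κ Fm * β ^ (-e) := by
      calc _ ≤ W / (t * S) * (KAc n D L N κ Fm * (t * S * β ^ (-e))) :=
            mul_le_mul_of_nonneg_left h1 (by positivity)
        _ = _ := by field_simp
    have h3 : S * (KBc D L N (Fm * Cgr D L (alp L) R0) * β ^ (-3 / 2 : ℝ)) ≤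
        KBc D L N (Fm * Cgr D L (alp L) R0) * β ^ (-e) := by
      have h4 : S * β ^ (-3 / 2 : ℝ) ≤ β ^ (-e) := by
        rw [hS, ← Real.rpow_add hβ0]
        exact Real.rpow_le_rpow_of_exponent_le hβ1 (by linarith)
      calc _ = KBc D L N (Fm * Cgr D L (alp L) R0) * (S * β ^ (-3 / 2 : ℝ)) := by ring
        _ ≤ _ := mul_le_mul_of_nonneg_left h4 hKB0
    rw [hη1]
    linarith
  -- the inequality for a pair of functions
  obtain ⟨C, hC⟩ : ∃ C, C = ∑ j, pr V (f j) (ω j) := ⟨_, rfl⟩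
  have hq : ∀ j, qA V (f j) = pr V (f j) (ω j) := fun j => qA_eq hlam (hω0 j) (hω2 j)
  have hCq : ∑ j, qA V (f j) = C := by
    rw [hC]; exact Finset.sum_congr rfl fun j _ => hq j
  have hCn : 0 ≤ C := by
    rw [hC]
    refine Finset.sum_nonneg fun j _ => ?_
    rw [← hω2 j (ω j) (hω0 j)]
    refine le_trans ?_ (coer V (ω j) (hω0 j))
    exact mul_nonneg hlam.le (Finset.sum_nonneg fun _ _ =>
      Finset.sum_nonneg fun _ _ => by positivity)
  have mP := Ph_meas (G := G) S V X f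
  have hbnd := Ph_le (G := G) hS0.le V hX hFm.le hf
  have hpair : ∀ (g g1 : ℝ → ℝ), Measurable g → Measurable g1 → (∀ a, |g a| ≤ 1) →
      (∀ a, |g1 a| ≤ 1) → (∀ a h, |g (a + h) - g a - h * g1 a| ≤ h ^ 2) →
      (∀ a h, |g (a + h) - g a| ≤ |h|) → ∀ s : ℝ, 0 ≤ s → s ≤ 1 →
      |∫ σ, g (s * Ph S V X f σ) * Ph S V X f σ ∂μ - s * C * ∫ σ, g1 (s * Ph S V X f σ) ∂μ| ≤
        n * η1 := by
    intro g g1 mg mg1 hg hg1 hd1 hd2 s hs0 hs1
    have hj : ∀ j, |∫ σ, g (s * Ph S V X f σ) * (S * pr V (f j) (sc (X j) σ)) ∂μ -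
        s * pr V (f j) (ω j) * ∫ σ, g1 (s * Ph S V X f σ) ∂μ| ≤ η1 := fun j =>
      (sd_j' hX (fun i => hort i j) hW (hDt j) hS0 hSβ hFm.le hf (hω2 j) (hbd j) t4 hp00
        mg mg1 hg hg1 hd1 hd2 hs0 hs1).trans herr
    have hint : ∀ j ∈ (Finset.univ : Finset (Fin n)),
        Integrable (fun σ : Cf G D L => g (s * Ph S V X f σ) * (S * pr V (f j) (sc (X j) σ))) μ := by
      intro j _
      refine Integrable.of_bound ((mg.comp (mP.const_mul s)).mul
        ((pr_meas (X j) V (f j)).const_mul S)).aestronglyMeasurable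
        (1 * (S * ((V.card * (D * L)) * (Fm * (2 * N))))) (Filter.Eventually.of_forall fun σ => ?_)
      rw [Real.norm_eq_abs, abs_mul, abs_mul, abs_of_pos hS0]
      refine mul_le_mul (hg _) (mul_le_mul_of_nonneg_left ?_ hS0.le) (by positivity) zero_le_one
      exact pr_le' (by positivity) hFm.le (fun x _ a => hf j x a)
        fun x _ a => (sc_le (hX j) σ x a).trans (Yf_le σ x a)
    have e1 : ∫ σ, g (s * Ph S V X f σ) * Ph S V X f σ ∂μ =
        ∑ j, ∫ σ, g (s * Ph S V X f σ) * (S * pr V (f j) (sc (X j) σ)) ∂μ := by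
      rw [← integral_finsetSum _ hint]
      refine integral_congr_ae (Filter.Eventually.of_forall fun σ => ?_)
      simp only
      rw [← Finset.mul_sum, ← Finset.mul_sum]
      rfl
    rw [e1, hC, Finset.mul_sum, Finset.sum_mul, ← Finset.sum_sub_distrib]
    refine (Finset.abs_sum_le_sum_abs _ _).trans ((Finset.sum_le_sum fun j _ => hj j).trans
      (le_of_eq ?_))
    rw [Finset.sum_const, Finset.card_univ, Fintype.card_fin, nsmul_eq_mul]
  have key := char_of_sd (μ := μ) (Φ := Ph S V X f) mP hbnd hCn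
    (η := n * η1) (by positivity)
    (fun s hs0 hs1 => hpair Real.sin Real.cos Real.measurable_sin Real.measurable_cos
      Real.abs_sin_le_one Real.abs_cos_le_one
      (tayg (g2 := fun x => -Real.sin x) Real.hasDerivAt_sin Real.hasDerivAt_cos
        fun x => by rw [abs_neg]; exact Real.abs_sin_le_one x)
      (lipg Real.hasDerivAt_sin Real.abs_cos_le_one) s hs0 hs1)
    (fun s hs0 hs1 => by
      have h1 := hpair Real.cos (fun x => -Real.sin x) Real.measurable_cos Real.measurable_sin.neg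
        Real.abs_cos_le_one (fun x => by rw [abs_neg]; exact Real.abs_sin_le_one x)
        (tayg (g2 := fun x => -Real.cos x) Real.hasDerivAt_cos
          (fun x => (Real.hasDerivAt_sin x).neg)
          fun x => by rw [abs_neg]; exact Real.abs_cos_le_one x)
        (lipg Real.hasDerivAt_cos fun x => by rw [abs_neg]; exact Real.abs_sin_le_one x) s hs0 hs1
      rw [integral_neg, mul_neg, sub_neg_eq_add] at h1
      exact h1)
  rw [hCq, ← hη1]
  exact key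

/-! ### polynomial bounds -/

lemma PL.lift {f : ℕ → ℝ} (hf : PL f) : P4 fun i => f i.1 := by
  obtain ⟨C, m, hC, H⟩ := hf
  refine ⟨C, m, hC, fun i hi => (H i.1 hi.1).trans ?_⟩
  exact mul_le_mul_of_nonneg_left (pow_le_pow_left₀ (Nat.cast_nonneg _) hi.2.1 m) (by linarith)

lemma P4_KAc (n D N k : ℕ) (κ : ℝ) : P4 fun i => KAc n D i.1 N κ (i.2.2.2 ^ k) := by
  have hY : P4 fun i => i.2.2.2 ^ k := (Pb.sc Pq1).pow k
  have hDL : P4 fun i => (D : ℝ) * (i.1 : ℝ) := (PL_DL D).lift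
  have hK1 : P4 fun i => K1 D i.1 κ := (PL_K1 D κ).lift
  have hCB : P4 fun i => CB D i.1 := (PL_CB D).lift
  have hKE : P4 fun i => KEc n D i.1 κ (i.2.2.2 ^ k) := by
    unfold KEc
    exact (((Pb.cst (n : ℝ)).mul hDL).mul hY).mul (Pb.cst (κ + 2))
  have hKF : P4 fun i => KFc n D i.1 κ (i.2.2.2 ^ k) := by
    unfold KFc
    exact Pb.add Pq1 (hDL.mul hY) hKE
  unfold KAc
  exact Pb.add Pq1 (Pb.add Pq1 (Pb.add Pq1 (Pb.add Pq1 (hK1.pow 2) (Pb.add Pq1 hKE (hKF.pow 2)))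
    hK1) (hKF.mul ((Pb.cst ((D : ℝ) + 1)).mul hCB)))
    (((Pb.cst (((D : ℝ) + 1) * ((D : ℝ) + 1))).mul hDL).mul (Pb.add Pq1 (Pb.add Pq1 (Pb.cst 2)
      (hDL.mul hY)) ((Pb.cst ((D : ℝ) + 1)).mul (hCB.mul (Pb.cst (2 * (N : ℝ)))))))

lemma P4_KBc (D N k : ℕ) : P4 fun i => KBc D i.1 N (i.2.2.2 ^ k * Cgr D i.1 (alp i.1) i.2.1) := by
  unfold KBc
  exact ((Pb.cst (((D : ℝ) + 1) * (D + 1))).mul ((Pb.cst (D : ℝ)).mul P4_L)).mul
    ((((Pb.cst ((D : ℝ) + 1)).mul (Pb.add Pq1 ((Pb.cst 4).mul ((Pb.cst (D : ℝ)).mul P4_L))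
      ((Pb.cst 16).mul ((Pb.cst ((D : ℝ) * D)).mul P4_L)))).mul
        (((Pb.sc Pq1).pow k).mul (P4_Cgr D))).mul (Pb.cst (2 * (N : ℝ))))

/-- **The central limit theorem for linear observables of the axial field**, uniformly in the
thickness: the characteristic function of `√β ∑ j, ⟨f j, X j component of the field⟩` is close to
the one of the free field in a box. -/
theorem cltU' {D : ℕ} (n k : ℕ) {κ : ℝ} (hκ : 0 ≤ κ) {e : ℝ} (he : 0 < e) (he2 : e ≤ 1 / 20) :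
    ∀ᶠ p in FU, ∀ L : ℕ, 1 ≤ L → (L : ℝ) ≤ p.2 → ∀ R0 : ℕ, (R0 : ℝ) + 1 ≤ p.2 →
      ∀ μ : Measure (Cf G D L), Stt G D L e p.1 μ →
      ∀ (X : Fin n → Mt N) (γ : Fin n → ℝ → G), (∀ j, OneP (X j) (γ j) κ) →
      (∀ i j, ip (X i) (X j) = if i = j then 1 else 0) →
      ∀ f : Fin n → SF D L, (∀ j x, x ∉ box D R0 → f j x = 0) →
      (∀ j, nsq (box D R0) (f j) ≤ p.2 ^ k) →
      ‖∫ σ, Complex.exp (Complex.I *
          ((Real.sqrt p.1 * ∑ j, pr (box D R0) (f j) (sc (X j) σ) : ℝ) : ℂ)) ∂μ -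
        Complex.exp (-(((∑ j, qA (box D (rad (alp L) R0 p.1)) (f j)) / 2 : ℝ) : ℂ))‖ ≤
        1 / p.2 ^ k := by
  have hs : ∀ i : ℕ × ℕ × ℝ × ℝ, Pq i → 0 ≤ i.2.2.2 := fun i hi => by linarith [Pq1 i hi]
  have A1 := radU D (a := e / 16) (by linarith)
  have A2 := radU D (a := 1 / 2) (by norm_num)
  have A3 := asymU D N hκ he (by linarith)
  have A4 := (((Pb.cst (2 * (n : ℝ))).mul (Pb.add Pq1 (((Pb.cst 3).mul ((Pb.sc Pq1).pow (k + 2))).mul
    (P4_KAc n D N k κ)) (P4_KBc D N k))).mul ((Pb.sc Pq1).pow k)).ev (a := 0) (b := -e)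
    (by linarith) hs
  have A6 := Pool.Agent.N990.Mach.fu_ev (Pool.Agent.N109.Slab.ev_exp (a := e / 2) 4 (by linarith))
  filter_upwards [A1, A2, A3, A4, A6, Pool.Agent.N990.Mach.fu_ge 1] with ⟨β, Y⟩ a1 a2 a3 a4 a6 hβ1
    L hL hLY R0 hR μ hμ X γ hone hort f hf0 hfY
  dsimp only at a1 a2 a3 a4 a6 hβ1 hLY hR hμ hfY ⊢
  have hL1 : (1 : ℝ) ≤ L := by exact_mod_cast hL
  have hY1 : 1 ≤ Y := hL1.trans hLY
  have hY0 : 0 < Y := by linarith
  have hβ0 : 0 < β := by linarith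
  have hYk : 1 ≤ Y ^ k := one_le_pow₀ hY1
  have hP : Pq (L, R0, 1, Y) := ⟨hL, hLY, hR, one_pos, by rw [div_one]; exact hY1⟩
  have b4 := a4 (L, R0, 1, Y) hP le_rfl
  dsimp only at b4
  rw [Real.rpow_zero] at b4
  have hfle : ∀ j x a, |f j x a| ≤ Y ^ k := by
    intro j x a
    by_cases hx : x ∈ box D R0
    · have h2 : f j x a ^ 2 ≤ (Y ^ k) ^ 2 := by
        calc f j x a ^ 2 ≤ ∑ a, f j x a ^ 2 :=
              Finset.single_le_sum (f := fun a => f j x a ^ 2) (fun _ _ => by positivity)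
                (Finset.mem_univ a)
          _ ≤ nsq (box D R0) (f j) := Finset.single_le_sum (f := fun x => ∑ a, f j x a ^ 2)
              (fun _ _ => Finset.sum_nonneg fun _ _ => by positivity) hx
          _ ≤ Y ^ k := hfY j
          _ ≤ (Y ^ k) ^ 2 := le_self_pow₀ hYk two_ne_zero
      exact abs_le_of_sq_le_sq h2 (by positivity)
    · rw [hf0 j x hx]; simp only [Pi.zero_apply, abs_zero]; positivity
  have hfW : ∀ j, nsq (box D R0) (f j) / lam0 L ^ 2 ≤ (3 * Y ^ (k + 2)) ^ 2 := by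
    intro j
    have h1 : 1 / lam0 L ≤ 9 / 4 * Y ^ 2 := (inv_lam0_le hL).trans (by gcongr)
    have h0 := lam0_pos hL
    have h2 := nsq_nonneg (box D R0) (f j)
    calc nsq (box D R0) (f j) / lam0 L ^ 2 = nsq (box D R0) (f j) * (1 / lam0 L) ^ 2 := by
          rw [div_pow, one_pow, mul_one_div]
      _ ≤ Y ^ k * (9 / 4 * Y ^ 2) ^ 2 := by
          gcongr
          exact hfY j
      _ ≤ (Y ^ k) ^ 2 * (3 * Y ^ 2) ^ 2 := by
          have h3 : Y ^ k ≤ (Y ^ k) ^ 2 := le_self_pow₀ hYk two_ne_zero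
          gcongr
          norm_num
      _ = _ := by rw [pow_add]; ring
  have core := clt_core (W := 3 * Y ^ (k + 2)) hκ hone hort he he2 hL hβ1 hμ (by positivity)
    (by positivity) (a1 L R0 hL hLY hR) (a2 L R0 hL hLY hR)
    (fun y hy0 hy δ t hδ ht => by
      obtain ⟨t0, t1, t2, t3, t4, -, -⟩ := a3 L hL hLY y hy0 hy δ t _ _ hδ ht rfl rfl
      exact ⟨t0, t1, t2, t3, t4⟩) a6 hf0 hfle hfW
  have hRR : R0 ≤ rad (alp L) R0 β := by unfold rad; omega
  have hPh : ∀ σ : Cf G D L, Ph (β ^ (1 / 2 : ℝ)) (box D (rad (alp L) R0 β)) X f σ =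
      Real.sqrt β * ∑ j, pr (box D R0) (f j) (sc (X j) σ) := by
    intro σ
    unfold Ph
    rw [Real.sqrt_eq_rpow]
    congr 1
    exact Finset.sum_congr rfl fun j _ => pr_mono (box_mono hRR) (hf0 j) _
  simp only [hPh] at core
  refine core.trans ?_
  rw [le_div_iff₀ (by positivity)]
  refine le_trans (le_of_eq ?_) b4
  ring

/-- the radius of the box is large -/
lemma rad_low {L : ℕ} (hL : 1 ≤ L) (R0 : ℕ) {β : ℝ} (hβ : 1 ≤ β) :
    (L : ℝ) * Real.log β + R0 ≤ rad (alp L) R0 β := by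
  have h1 := alp_pos hL
  have hlog := Real.log_nonneg hβ
  have h2 : (L : ℝ) ≤ 2 / alp L := by
    rw [le_div_iff₀ h1]
    have hL1 : (1 : ℝ) ≤ L := by exact_mod_cast hL
    have hp := Real.pi_pos
    have hp2 := Real.pi_le_four
    have h3 : alp L ≤ Real.pi / (2 * L + 1) / 2 := by
      unfold alp
      have h4 : Real.sqrt (lam0 L) ≤ Real.pi / (2 * L + 1) := by
        rw [Real.sqrt_le_left (by positivity), lam0_sin]
        have h5 : |Real.sin (Real.pi / (2 * L + 1) / 2)| ≤ |Real.pi / (2 * L + 1) / 2| :=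
          Real.abs_sin_le_abs
        have h6 := sq_le_sq.2 h5
        calc 4 * Real.sin (Real.pi / (2 * L + 1) / 2) ^ 2 ≤
              4 * (Real.pi / (2 * L + 1) / 2) ^ 2 := by linarith
          _ = _ := by ring
      linarith
    calc (L : ℝ) * alp L ≤ L * (Real.pi / (2 * L + 1) / 2) := by gcongr
      _ = Real.pi * (L / (2 * L + 1)) / 2 := by ring
      _ ≤ 4 * 1 / 2 := by
          have : (L : ℝ) / (2 * L + 1) ≤ 1 := by
            rw [div_le_one (by positivity)]; linarith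
          gcongr
      _ = 2 := by norm_num
  unfold rad
  push_cast
  have h3 := Nat.le_ceil (2 / alp L * Real.log β)
  have h4 : (L : ℝ) * Real.log β ≤ 2 / alp L * Real.log β :=
    mul_le_mul_of_nonneg_right h2 hlog
  linarith

/-- **The central limit theorem for linear observables of the axial field**, for Gibbs measures. -/
theorem cltU {D : ℕ} {μ : Measure G} [IsProbabilityMeasure μ] [μ.IsMulLeftInvariant] (hM : MbU D μ) (n k : ℕ) {κ : ℝ}
    (hκ : 0 ≤ κ) :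
    ∀ᶠ p in FU, ∀ L : ℕ, 1 ≤ L → (L : ℝ) ≤ p.2 → ∀ R0 : ℕ, (R0 : ℝ) + 1 ≤ p.2 →
      ∀ Q : Measure (Cf G D L), Pool.Agent.N986.SL.AxGibbs μ Pool.Agent.N986.SL.chi p.1 Q →
      ∀ (X : Fin n → Mt N) (γ : Fin n → ℝ → G), (∀ j, OneP (X j) (γ j) κ) →
      (∀ i j, ip (X i) (X j) = if i = j then 1 else 0) →
      ∀ f : Fin n → SF D L, (∀ j x, x ∉ box D R0 → f j x = 0) →
      (∀ j, nsq (box D R0) (f j) ≤ p.2 ^ k) →
      ‖∫ σ, Complex.exp (Complex.I *
          ((Real.sqrt p.1 * ∑ j, pr (box D R0) (f j) (sc (X j) σ) : ℝ) : ℂ)) ∂Q -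
        Complex.exp (-(((∑ j, qA (box D (rad (alp L) R0 p.1)) (f j)) / 2 : ℝ) : ℂ))‖ ≤
        1 / p.2 ^ k := by
  filter_upwards [hM (1 / 20) (by norm_num),
    cltU' (G := G) (D := D) n k hκ (e := 1 / 20) (by norm_num) le_rfl] with p h1 h2 L hL hLY R0 hR Q hQ
  exact h2 L hL hLY R0 hR Q ⟨shf_of_ax hQ, h1 L hL hLY Q hQ⟩

/-- curves with tangent in the Lie algebra -/
lemma oneP_lie (S : LieG G) {X : Mt N} (hX : X ∈ S.g) (nX : ‖X‖ = 1) :
    OneP X (fun s => S.E (s • ⟨X, hX⟩)) 1 := by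
  refine ⟨nX, ?_, zero_le_one, fun s hs => ?_⟩
  · have h1 := S.E_est 0 (by simp)
    rw [zero_smul]
    have h2 : ‖mt (S.E 0) - 1‖ ≤ 0 := by simpa using h1
    have h3 : mt (S.E 0) = 1 := by
      have := norm_le_zero_iff.1 h2
      exact sub_eq_zero.1 this
    exact mt_inj (h3.trans mt_one.symm)
  · have hn : ‖(s • (⟨X, hX⟩ : S.g))‖ = |s| := by
      rw [norm_smul, Real.norm_eq_abs]
      show |s| * ‖X‖ = |s|
      rw [nX, mul_one]
    have h1 := S.E_est (s • ⟨X, hX⟩) (by rw [hn]; exact hs)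
    rw [hn] at h1
    rw [one_mul, ← sq_abs]
    exact h1

end

end Pool.Agent.N109.SlabU
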