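import Pool.Agent.N109.Slab.Ratio
import Pool.Agent.N109.SlabU.Basic

/-!
# The slab, uniformly in the thickness: the error of the observable
-/

set_option autoImplicit false
set_option linter.unusedSectionVars false
set_option linter.unusedVariables false

open MeasureTheory Finset Function Filter Topology

namespace Pool.Agent.N109.SlabU

open Pool.Agent.N990 Pool.Agent.N109.Slab

noncomputable section

variable {D L : ℕ}

lemma hh_sq (m : ℝ) (k : ℤ) : hh m k ^ 2 = Real.exp (-(2 * m)) ^ k.natAbs := by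
  unfold hh
  rw [← Real.exp_nat_mul, ← Real.exp_nat_mul, Nat.cast_natAbs]
  congr 1
  push_cast; ring

lemma T1_mono (m : ℝ) : Monotone (T1 m) := by
  intro R R' h
  unfold T1
  refine Finset.sum_le_sum_of_subset_of_nonneg (Finset.Icc_subset_Icc (by omega) (by omega))
    fun _ _ _ => by positivity

lemma T1_nonneg (m : ℝ) (R : ℕ) : 0 ≤ T1 m R := Finset.sum_nonneg fun _ _ => by positivity

lemma T1_le {m : ℝ} (hm : 0 < m) (hm1 : m ≤ 1) (R : ℕ) : T1 m R ≤ 3 / m := by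
  have hs : Summable fun n : ℕ => Real.exp (-(2 * m)) ^ n :=
    summable_geometric_of_lt_one (Real.exp_pos _).le (by
      rw [← Real.exp_zero]; exact Real.exp_lt_exp.2 (by linarith))
  have h0 : T1 m R ≤ 2 * ∑' n : ℕ, Real.exp (-(2 * m)) ^ n := by
    unfold T1
    have h1 : ∑ k ∈ Finset.Icc (-(R : ℤ)) R, hh m k ^ 2 ≤
        ∑ k ∈ (Finset.range (R + 1)).image (fun n : ℕ => (n : ℤ)) ∪
          (Finset.range (R + 1)).image (fun n : ℕ => -(n : ℤ)), hh m k ^ 2 := by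
      refine Finset.sum_le_sum_of_subset_of_nonneg (fun k hk => ?_) fun _ _ _ => by positivity
      rw [Finset.mem_Icc] at hk
      rw [Finset.mem_union, Finset.mem_image, Finset.mem_image]
      rcases le_total 0 k with h | h
      · left; exact ⟨k.toNat, Finset.mem_range.2 (by omega), by omega⟩
      · right; exact ⟨(-k).toNat, Finset.mem_range.2 (by omega), by omega⟩
    refine h1.trans ?_
    have h2 : ∑ k ∈ (Finset.range (R + 1)).image (fun n : ℕ => (n : ℤ)), hh m k ^ 2 ≤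
        ∑' n : ℕ, Real.exp (-(2 * m)) ^ n := by
      rw [Finset.sum_image (fun a _ b _ h => by exact_mod_cast h)]
      simp only [hh_sq, Int.natAbs_natCast]
      exact hs.sum_le_tsum _ fun _ _ => by positivity
    have h3 : ∑ k ∈ (Finset.range (R + 1)).image (fun n : ℕ => -(n : ℤ)), hh m k ^ 2 ≤
        ∑' n : ℕ, Real.exp (-(2 * m)) ^ n := by
      rw [Finset.sum_image (fun a _ b _ h => by
        have : (a : ℤ) = b := by simpa using h
        exact_mod_cast this)]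
      simp only [hh_sq, Int.natAbs_neg, Int.natAbs_natCast]
      exact hs.sum_le_tsum _ fun _ _ => by positivity
    have h4 : ∑ k ∈ (Finset.range (R + 1)).image (fun n : ℕ => (n : ℤ)) ∪
        (Finset.range (R + 1)).image (fun n : ℕ => -(n : ℤ)), hh m k ^ 2 ≤
        ∑ k ∈ (Finset.range (R + 1)).image (fun n : ℕ => (n : ℤ)), hh m k ^ 2 +
        ∑ k ∈ (Finset.range (R + 1)).image (fun n : ℕ => -(n : ℤ)), hh m k ^ 2 := by
      rw [← Finset.sum_union_inter]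
      exact le_add_of_nonneg_right (Finset.sum_nonneg fun _ _ => by positivity)
    linarith
  refine h0.trans ?_
  rw [tsum_geometric_of_lt_one (Real.exp_pos _).le (by
      rw [← Real.exp_zero]; exact Real.exp_lt_exp.2 (by linarith))]
  have h5 : 2 * m / (1 + 2 * m) ≤ 1 - Real.exp (-(2 * m)) := by
    have h6 : Real.exp (-(2 * m)) ≤ 1 / (1 + 2 * m) := by
      rw [Real.exp_neg, ← one_div]
      refine one_div_le_one_div_of_le (by linarith) ?_
      have := Real.add_one_le_exp (2 * m)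
      linarith
    have h7 : 1 - 1 / (1 + 2 * m) = 2 * m / (1 + 2 * m) := by
      field_simp
      ring
    linarith
  have h8 : (1 - Real.exp (-(2 * m)))⁻¹ ≤ (2 * m / (1 + 2 * m))⁻¹ :=
    inv_anti₀ (by positivity) h5
  have h9 : 2 * (2 * m / (1 + 2 * m))⁻¹ = (1 + 2 * m) / m := by
    field_simp
  calc 2 * (1 - Real.exp (-(2 * m)))⁻¹ ≤ 2 * (2 * m / (1 + 2 * m))⁻¹ := by linarith
    _ = (1 + 2 * m) / m := h9
    _ ≤ 3 / m := div_le_div_of_nonneg_right (by linarith) hm.le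

lemma T1_diff {m : ℝ} (hm : 0 < m) (R : ℕ) :
    T1 m (R + 2) - T1 m R ≤ 2 / (m * (R + 1)) := by
  unfold T1
  have hsub : Finset.Icc (-(R : ℤ)) R ⊆ Finset.Icc (-((R + 2 : ℕ) : ℤ)) ((R + 2 : ℕ) : ℤ) :=
    Finset.Icc_subset_Icc (by push_cast; omega) (by push_cast; omega)
  rw [← Finset.sum_sdiff hsub, add_sub_cancel_right]
  have h1 : ∀ k ∈ Finset.Icc (-((R + 2 : ℕ) : ℤ)) ((R + 2 : ℕ) : ℤ) \ Finset.Icc (-(R : ℤ)) R,
      hh m k ^ 2 ≤ 1 / (2 * m * (R + 1)) := by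
    intro k hk
    rw [Finset.mem_sdiff, Finset.mem_Icc, Finset.mem_Icc] at hk
    have h2 : R + 1 ≤ k.natAbs := by omega
    have h3 : ((R : ℝ) + 1) ≤ |(k : ℝ)| := by
      have h4 : ((R + 1 : ℕ) : ℝ) ≤ (k.natAbs : ℝ) := by exact_mod_cast h2
      rw [Nat.cast_natAbs] at h4
      push_cast at h4
      exact h4
    unfold hh
    rw [← Real.exp_nat_mul]
    have h4 : Real.exp (((2 : ℕ) : ℝ) * -(m * |(k : ℝ)|)) ≤ Real.exp (-(2 * m * (R + 1))) := by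
      apply Real.exp_le_exp.2
      push_cast
      nlinarith
    refine h4.trans ?_
    rw [Real.exp_neg, ← one_div]
    refine one_div_le_one_div_of_le (by positivity) ?_
    have := Real.add_one_le_exp (2 * m * (R + 1))
    linarith
  refine (Finset.sum_le_card_nsmul _ _ _ h1).trans ?_
  have h5 : (Finset.Icc (-((R + 2 : ℕ) : ℤ)) ((R + 2 : ℕ) : ℤ) \ Finset.Icc (-(R : ℤ)) R).card = 4 := by
    rw [Finset.card_sdiff_of_subset hsub, Int.card_Icc, Int.card_Icc]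
    push_cast
    omega
  rw [h5, nsmul_eq_mul]
  refine le_of_eq ?_
  push_cast
  field_simp
  norm_num

lemma pow_diff {a : ℝ} (ha : 4 ≤ a) (n : ℕ) : a ^ n - (a - 4) ^ n ≤ 4 * n * a ^ n / a := by
  have ha0 : 0 < a := by linarith
  have h1 := one_add_mul_le_pow (a := -(4 / a)) (by
    have : 4 / a ≤ 1 := (div_le_one ha0).2 ha
    linarith) n
  have h2 : (a - 4) ^ n = a ^ n * (1 + -(4 / a)) ^ n := by
    rw [← mul_pow]
    congr 1
    field_simp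
    ring
  have h3 : a ^ n * (1 + n * -(4 / a)) ≤ (a - 4) ^ n := by
    rw [h2]
    exact mul_le_mul_of_nonneg_left h1 (by positivity)
  have h4 : a ^ n * (1 + n * -(4 / a)) = a ^ n - 4 * n * a ^ n / a := by
    field_simp
    ring
  linarith

/-- the difference of the sums over the boxes -/
lemma SR_diff (n : ℕ) (i0 : Fin (n + 1)) {m : ℝ} (hm : 0 < m) (hm1 : m ≤ 1) (R : ℕ) :
    SR (n + 1) i0 m (R + 2) - SR (n + 1) i0 m R ≤
      2 ^ n * (2 * (R : ℝ) + 3) ^ n * ((2 + 6 * n) / (m * (R + 1))) := by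
  have hSR : ∀ R : ℕ, SR (n + 1) i0 m R = T1 m R * (2 * (R : ℝ) + 1) ^ n := by
    intro R
    have h1 := SR_eq i0 m R
    have h2 : (2 * (R : ℝ) + 1) ≠ 0 := by positivity
    rw [pow_succ] at h1
    have h3 : (2 * (R : ℝ) + 1) * SR (n + 1) i0 m R =
        (2 * (R : ℝ) + 1) * (T1 m R * (2 * (R : ℝ) + 1) ^ n) := by rw [h1]; ring
    exact mul_left_cancel₀ h2 h3
  rw [hSR, hSR]
  obtain ⟨a, ha⟩ : ∃ a : ℝ, a = 2 * (R : ℝ) + 5 := ⟨_, rfl⟩
  have hR0 : (0 : ℝ) ≤ R := Nat.cast_nonneg R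
  have ha4 : 4 ≤ a := by rw [ha]; linarith
  have ha0 : 0 < a := by linarith
  have e1 : 2 * ((R + 2 : ℕ) : ℝ) + 1 = a := by rw [ha]; push_cast; ring
  have e2 : 2 * (R : ℝ) + 1 = a - 4 := by rw [ha]; ring
  rw [e1, e2]
  have h1 : T1 m (R + 2) * a ^ n - T1 m R * (a - 4) ^ n =
      (T1 m (R + 2) - T1 m R) * a ^ n + T1 m R * (a ^ n - (a - 4) ^ n) := by ring
  rw [h1]
  have h2 := T1_diff hm R
  have h3 := T1_le hm hm1 R
  have h4 := pow_diff ha4 n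
  have hT := T1_nonneg m R
  have h5 : 0 ≤ 4 * n * a ^ n / a := by positivity
  have h6 : (T1 m (R + 2) - T1 m R) * a ^ n ≤ 2 / (m * (R + 1)) * a ^ n :=
    mul_le_mul_of_nonneg_right h2 (by positivity)
  have h7 : T1 m R * (a ^ n - (a - 4) ^ n) ≤ 3 / m * (4 * n * a ^ n / a) :=
    (mul_le_mul_of_nonneg_left h4 hT).trans (mul_le_mul_of_nonneg_right h3 h5)
  have h8 : 3 / m * (4 * n * a ^ n / a) ≤ 6 * n / (m * (R + 1)) * a ^ n := by
    have e3 : 3 / m * (4 * n * a ^ n / a) = 12 * n * a ^ n / (m * a) := by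
      field_simp
      ring
    have e4 : 6 * n / (m * (R + 1)) * a ^ n = 12 * n * a ^ n / (m * (2 * (R + 1))) := by
      field_simp
      ring
    rw [e3, e4]
    refine div_le_div_of_nonneg_left (by positivity) (by positivity) ?_
    refine mul_le_mul_of_nonneg_left ?_ hm.le
    rw [ha]
    linarith
  have h9 : a ^ n ≤ 2 ^ n * (2 * (R : ℝ) + 3) ^ n := by
    rw [← mul_pow]
    refine pow_le_pow_left₀ ha0.le ?_ n
    rw [ha]
    linarith
  calc (T1 m (R + 2) - T1 m R) * a ^ n + T1 m R * (a ^ n - (a - 4) ^ n) ≤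
        2 / (m * (R + 1)) * a ^ n + 6 * n / (m * (R + 1)) * a ^ n := by linarith
    _ = a ^ n * ((2 + 6 * n) / (m * (R + 1))) := by field_simp
    _ ≤ _ := mul_le_mul_of_nonneg_right h9 (by positivity)

/-- the norm of the lowest mode -/
lemma u0_sum_ge (hL : 1 ≤ L) : 4 / (9 * (L : ℝ) ^ 2) ≤ ∑ s : Fin L, u0 s ^ 2 := by
  have hL' : (1 : ℝ) ≤ L := by exact_mod_cast hL
  have hp := Real.pi_pos
  have h1 : u0 (⟨0, hL⟩ : Fin L) ^ 2 ≤ ∑ s : Fin L, u0 s ^ 2 :=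
    Finset.single_le_sum (f := fun s : Fin L => u0 s ^ 2) (fun _ _ => by positivity)
      (Finset.mem_univ _)
  refine le_trans ?_ h1
  unfold u0
  have h2 : 2 / Real.pi * th L ≤ Real.sin (th L) := by
    refine Real.mul_le_sin (th_pos L).le ?_
    unfold th
    exact div_le_div_of_nonneg_left hp.le (by norm_num) (by linarith)
  have h3 : 2 / Real.pi * th L = 2 / (2 * L + 1) := by
    unfold th
    field_simp
  rw [h3] at h2
  have h4 : 2 / (3 * (L : ℝ)) ≤ 2 / (2 * L + 1) :=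
    div_le_div_of_nonneg_left (by norm_num) (by positivity) (by linarith)
  have h5 : (2 / (3 * (L : ℝ))) ^ 2 ≤ Real.sin (th L) ^ 2 :=
    pow_le_pow_left₀ (by positivity) (h4.trans h2) 2
  have h6 : (2 / (3 * (L : ℝ))) ^ 2 = 4 / (9 * (L : ℝ) ^ 2) := by
    field_simp
    norm_num
  rw [h6] at h5
  simpa using h5

lemma u0_sum_le : ∑ s : Fin L, u0 s ^ 2 ≤ L := by
  calc ∑ s : Fin L, u0 s ^ 2 ≤ ∑ _s : Fin L, (1 : ℝ) := by
        refine Finset.sum_le_sum fun s _ => ?_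
        rw [← sq_abs]
        exact pow_le_one₀ (abs_nonneg _) (u0_le s)
    _ = L := by simp

/-- the parameters: thickness, mass, error, bound -/
def Pm (i : ℕ × ℝ × ℝ × ℝ) : Prop :=
  1 ≤ i.1 ∧ (i.1 : ℝ) ≤ i.2.2.2 ∧ 0 < i.2.1 ∧ 2 * Real.cosh i.2.1 - 2 = lam0 i.1 ∧
    0 < i.2.2.1 ∧ 1 / i.2.2.1 ≤ i.2.2.2

abbrev PM (f : ℕ × ℝ × ℝ × ℝ → ℝ) : Prop := Pb (fun i => i.2.2.2) Pm f

lemma Pm1 : ∀ i, Pm i → 1 ≤ i.2.2.2 := fun i hi => by
  have h1 : (1 : ℝ) ≤ i.1 := by exact_mod_cast hi.1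
  exact h1.trans hi.2.1

lemma PM_Y : PM fun i => i.2.2.2 := Pb.sc Pm1

lemma PM_L : PM fun i => (i.1 : ℝ) :=
  PM_Y.mono0 (fun i _ => Nat.cast_nonneg _) fun i hi => hi.2.1

lemma PM_η : PM fun i => 1 / i.2.2.1 :=
  PM_Y.mono0 (fun i hi => by have := hi.2.2.2.2.1; positivity) fun i hi => hi.2.2.2.2.2

lemma PM_im : PM fun i => 1 / i.2.1 :=
  ((Pb.cst 3).mul PM_L).mono0 (fun i hi => by have := hi.2.2.1; positivity)
    fun i hi => inv_mass_le hi.1 hi.2.2.1 hi.2.2.2.1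

lemma PM_C3 (D : ℕ) : PM fun i => C3 D i.1 i.2.1 := by
  unfold C3
  refine Pb.add Pm1 (Pb.mul ((Pb.cst ((D : ℝ) + 1)).mul (Pb.add Pm1 ((Pb.cst 4).mul
    ((Pb.cst (D : ℝ)).mul PM_L)) ((Pb.cst 16).mul ((Pb.cst ((D : ℝ) * D)).mul PM_L)))) ?_)
    ((Pb.cst 2).mul ?_)
  · exact (Pb.cst (Real.exp 1)).mono0 (fun i _ => (Real.exp_pos _).le) fun i hi =>
      Real.exp_le_exp.2 (mass_le hi.1 hi.2.2.1 hi.2.2.2.1)
  · exact (Pb.cst (Real.sinh 1)).mono0 (fun i hi => Real.sinh_nonneg_iff.2 hi.2.2.1.le)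
      fun i hi => Real.sinh_le_sinh.2 (mass_le hi.1 hi.2.2.1 hi.2.2.2.1)

/-- the required radius -/
def Qr (n L : ℕ) (m η : ℝ) : ℝ := (((n + 1 : ℕ) : ℝ) * L) * C3 (n + 1) L m ^ 2 *
  (2 ^ n * (2 + 6 * n)) * (1 / m) * (1 / η) * (9 / 4 * (L : ℝ) ^ 2)

lemma PM_Qr (n : ℕ) : PM fun i => Qr n i.1 i.2.1 i.2.2.1 := by
  unfold Qr
  exact ((((((Pb.cst (((n + 1 : ℕ) : ℝ))).mul PM_L).mul ((PM_C3 (n + 1)).pow 2)).mul
    (Pb.cst (2 ^ n * (2 + 6 * (n : ℝ))))).mul PM_im).mul PM_η).mul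
      ((Pb.cst (9 / 4)).mul (PM_L.pow 2))

/-- **The error is small relative to the observable**, with polynomial bounds. -/
theorem rR_smallU (D : ℕ) : ∃ C : ℝ, ∃ k : ℕ, 1 ≤ C ∧ 1 ≤ k ∧
    ∀ (L : ℕ), 1 ≤ L → ∀ {i0 i1 : Fin D}, i0 ≠ i1 → ∀ {m : ℝ}, 0 < m →
    2 * Real.cosh m - 2 = lam0 L → ∀ {η Y : ℝ}, 0 < η → (L : ℝ) ≤ Y → 1 / η ≤ Y →
    ∃ R : ℕ, 3 ≤ R ∧ (R : ℝ) + 2 ≤ C * Y ^ k ∧
      nsq (L := L) (box D (R + 1)) (rR i0 i1 m R) ≤
        η * nsq (L := L) (box D (R + 1)) (fR i0 i1 R 0) ∧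
      0 < nsq (L := L) (box D (R + 1)) (fR i0 i1 R 0) ∧
      nsq (L := L) (box D (R + 1)) (fR i0 i1 R 0) ≤ C * Y ^ k ∧
      1 / nsq (L := L) (box D (R + 1)) (fR i0 i1 R 0) ≤ C * Y ^ k := by
  rcases Nat.eq_zero_or_pos D with hD | hD
  · subst hD
    exact ⟨1, 1, le_rfl, le_rfl, fun L hL i0 => i0.elim0⟩
  obtain ⟨n, rfl⟩ : ∃ n, D = n + 1 := ⟨D - 1, by omega⟩
  -- the bounds
  have hR1 : PM fun i => Qr n i.1 i.2.1 i.2.2.1 + 6 := Pb.add Pm1 (PM_Qr n) (Pb.cst 6)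
  have hF1 : PM fun i => (i.1 : ℝ) * (2 * (Qr n i.1 i.2.1 i.2.2.1 + 6) + 3) ^ n :=
    PM_L.mul ((Pb.add Pm1 ((Pb.cst 2).mul hR1) (Pb.cst 3)).pow n)
  have hF2 : PM fun i => 9 / 4 * (i.1 : ℝ) ^ 2 := (Pb.cst (9 / 4)).mul (PM_L.pow 2)
  obtain ⟨C1, k1, hC1, H1⟩ := hR1
  obtain ⟨C2, k2, hC2, H2⟩ := hF1
  obtain ⟨C3', k3, hC3, H3⟩ := hF2
  refine ⟨C1 + C2 + C3', k1 + k2 + k3 + 1, by linarith, by omega, ?_⟩
  intro L hL i0 i1 h01 m hm0 hm η Y hη hLY hηY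
  have hP : Pm (L, m, η, Y) := ⟨hL, hLY, hm0, hm, hη, hηY⟩
  have hL' : (1 : ℝ) ≤ L := by exact_mod_cast hL
  have hY1 : 1 ≤ Y := hL'.trans hLY
  have hm1 := mass_le hL hm0 hm
  have g1 := H1 _ hP
  have g2 := H2 _ hP
  have g3 := H3 _ hP
  dsimp only at g1 g2 g3
  have hpow : ∀ {k : ℕ}, k ≤ k1 + k2 + k3 + 1 → Y ^ k ≤ Y ^ (k1 + k2 + k3 + 1) := fun h =>
    pow_le_pow_right₀ hY1 h
  have hYp : 0 ≤ Y ^ (k1 + k2 + k3 + 1) := by positivity
  have f1 : C1 * Y ^ k1 ≤ (C1 + C2 + C3') * Y ^ (k1 + k2 + k3 + 1) :=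
    mul_le_mul (by linarith) (hpow (by omega)) (by positivity) (by linarith)
  have f2 : C2 * Y ^ k2 ≤ (C1 + C2 + C3') * Y ^ (k1 + k2 + k3 + 1) :=
    mul_le_mul (by linarith) (hpow (by omega)) (by positivity) (by linarith)
  have f3 : C3' * Y ^ k3 ≤ (C1 + C2 + C3') * Y ^ (k1 + k2 + k3 + 1) :=
    mul_le_mul (by linarith) (hpow (by omega)) (by positivity) (by linarith)
  obtain ⟨Q, hQ⟩ : ∃ Q, Q = Qr n L m η := ⟨_, rfl⟩
  rw [← hQ] at g1 g2
  have hC3 : 0 ≤ C3 (n + 1) L m := by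
    unfold C3
    have hs : 0 ≤ Real.sinh m := Real.sinh_nonneg_iff.2 hm0.le
    positivity
  have hQ0 : 0 ≤ Q := by
    rw [hQ]
    unfold Qr
    positivity
  obtain ⟨R, hR⟩ : ∃ R : ℕ, R = ⌈Q⌉₊ + 2 := ⟨_, rfl⟩
  have hRQ : Q ≤ R + 1 := by
    have := Nat.le_ceil Q
    rw [hR]
    push_cast
    linarith
  have hRQ2 : (R : ℝ) ≤ Q + 3 := by
    have := (Nat.ceil_lt_add_one hQ0).le
    rw [hR]
    push_cast
    linarith
  have hU := u0_sum_ge hL
  have hU2 := u0_sum_le (L := L)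
  obtain ⟨S, hS⟩ : ∃ S, S = ∑ s : Fin L, u0 s ^ 2 := ⟨_, rfl⟩
  rw [← hS] at hU hU2
  have hS0 : 0 < S := lt_of_lt_of_le (by positivity) hU
  have hf : nsq (L := L) (box (n + 1) (R + 1 + 1)) (fR i0 i1 (R + 1) 0) =
      S * (2 * (R : ℝ) + 3) ^ n := by
    have h1 := fR_nsq (L := L) (i0 := i0) (i1 := i1) (R := R + 1) (R' := R + 1 + 1)
      (Nat.le_succ _) (k := 0) (by constructor <;> push_cast <;> linarith [Nat.cast_nonneg (α := ℤ) R])
    have e : (2 * ((R + 1 : ℕ) : ℝ) + 1) = 2 * (R : ℝ) + 3 := by push_cast; ring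
    rw [e, pow_succ, ← hS] at h1
    have h2 : (2 * (R : ℝ) + 3) ≠ 0 := by positivity
    have h3 : (2 * (R : ℝ) + 3) * nsq (L := L) (box (n + 1) (R + 1 + 1)) (fR i0 i1 (R + 1) 0) =
      (2 * (R : ℝ) + 3) * (S * (2 * (R : ℝ) + 3) ^ n) := by
      rw [h1]; ring
    exact mul_left_cancel₀ h2 h3
  refine ⟨R + 1, by omega, ?_, ?_, ?_, ?_, ?_⟩
  · push_cast
    refine le_trans ?_ (((le_abs_self _).trans g1).trans f1)
    linarith
  · refine (rR_nsq h01 hm0.le hm R).trans ?_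
    rw [hf]
    have h2 := SR_diff n i0 hm0 hm1 R
    have hd : 0 ≤ (((n + 1 : ℕ) : ℝ) * L) * C3 (n + 1) L m ^ 2 := by positivity
    refine (mul_le_mul_of_nonneg_left h2 hd).trans ?_
    have hRp : (0 : ℝ) < R + 1 := by positivity
    -- `Q ≤ R + 1`
    have h3 : (((n + 1 : ℕ) : ℝ) * L) * C3 (n + 1) L m ^ 2 * (2 ^ n * (2 + 6 * n)) * (1 / m) *
        (1 / η) * (1 / S) ≤ R + 1 := by
      refine le_trans ?_ hRQ
      rw [hQ]
      unfold Qr
      refine mul_le_mul_of_nonneg_left ?_ (by positivity)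
      refine (one_div_le_one_div_of_le (by positivity) hU).trans (le_of_eq ?_)
      field_simp
    have h4 := mul_le_mul_of_nonneg_right h3
      (by positivity : 0 ≤ η * S * (2 * (R : ℝ) + 3) ^ n / (R + 1))
    have e1 : (R + 1 : ℝ) * (η * S * (2 * (R : ℝ) + 3) ^ n / (R + 1)) =
        η * (S * (2 * (R : ℝ) + 3) ^ n) := by
      field_simp
    have e2 : (((n + 1 : ℕ) : ℝ) * L) * C3 (n + 1) L m ^ 2 * (2 ^ n * (2 + 6 * n)) * (1 / m) *
        (1 / η) * (1 / S) * (η * S * (2 * (R : ℝ) + 3) ^ n / (R + 1)) =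
        (((n + 1 : ℕ) : ℝ) * L) * C3 (n + 1) L m ^ 2 *
          (2 ^ n * (2 * (R : ℝ) + 3) ^ n * ((2 + 6 * n) / (m * (R + 1)))) := by
      field_simp
    rw [e1, e2] at h4
    exact h4
  · rw [hf]
    positivity
  · rw [hf]
    refine le_trans ?_ (((le_abs_self _).trans g2).trans f2)
    have h5 : (2 * (R : ℝ) + 3) ^ n ≤ (2 * (Q + 6) + 3) ^ n :=
      pow_le_pow_left₀ (by positivity) (by linarith) n
    exact mul_le_mul hU2 h5 (by positivity) (by positivity)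
  · rw [hf]
    refine le_trans ?_ (((le_abs_self _).trans g3).trans f3)
    have h6 : 4 / (9 * (L : ℝ) ^ 2) ≤ S * (2 * (R : ℝ) + 3) ^ n := by
      refine hU.trans (le_mul_of_one_le_right hS0.le (one_le_pow₀ ?_))
      have : (0 : ℝ) ≤ R := Nat.cast_nonneg R
      linarith
    refine (one_div_le_one_div_of_le (by positivity) h6).trans (le_of_eq ?_)
    field_simp

end

end Pool.Agent.N109.SlabU
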