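import Pool.Agent.N109.SlabU.VarB
import Pool.Agent.N109.SlabU.RSmall

/-!
# The slab, uniformly in the thickness: the covariances at the distances two and zero
-/

set_option autoImplicit false
set_option linter.unusedSectionVars false
set_option linter.unusedVariables false

open MeasureTheory Finset Function Filter Topology

namespace Pool.Agent.N109.SlabU

open Pool.Agent.N990 Pool.Agent.N109.Slab
open Pool.Agent.N990.Mach (FU)

noncomputable section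

variable {N D L : ℕ} {G : Subgroup (UU N)} [MeasurableSpace G] [BorelSpace G]

lemma ratio_core {X : Mt N} {γ : ℝ → G} {κ : ℝ} (h1 : OneP X γ κ) {e : ℝ} (he : 0 < e)
    (hL : 1 ≤ L) {i0 i1 : Fin D} (h01 : i0 ≠ i1) {m : ℝ} (hm0 : 0 < m)
    (hm : 2 * Real.cosh m - 2 = lam0 L) {m' : ℝ} (hmm : m < m') {K s τ F : ℝ} {R : ℕ}
    (hK : K = 1 / lam0 L + 1) (hs : s = 2 * Real.sinh m) (hτ0 : 0 < τ) (hτ1 : τ ≤ 1)
    (hτ2' : Real.exp (-(2 * m')) * (1 + τ + τ * K) < Real.exp (-(2 * m)) - τ * (1 + K + s))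
    (hR3 : 3 ≤ R)
    (hF : F = nsq (L := L) (box D (R + 1)) (fR i0 i1 R 0))
    (hR1 : nsq (L := L) (box D (R + 1)) (rR i0 i1 m R) ≤ τ ^ 2 * F) (hR2 : 0 < F)
    {β : ℝ} (hβ1 : 1 ≤ β) {μ : Measure (Cf G D L)} (hμ : Stt G D L e β μ)
    (H1 : ∀ (V : Finset (Site D)) (ω c : SF D L), (V.card : ℝ) ≤ β ^ (e / 16) →
      (∀ x a, |ω x a| ≤ 1) → (∀ x, x ∉ V → ω x = 0) → (∀ x a, |c x a| ≤ 1) →
      |β * ∫ σ, pr V c (sc X σ) * Bf V ω (sc X σ) ∂μ - pr V c ω| ≤ β ^ (-(e / 4)) ∧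
      |β * ∫ σ, Bf V ω (sc X σ) ∂μ| ≤ β ^ (1 / 2 - e))
    (H2 : β * ∫ σ, pr (box D (R + 1)) (fR i0 i1 R 0) (sc X σ) ^ 2 ∂μ ≤
        nsq (L := L) (box D (R + 1)) (fR i0 i1 R 0) / lam0 L + min (τ ^ 2 * F) (τ * Real.sqrt F) ∧
      |β * ∫ σ, pr (box D (R + 1)) (fR i0 i1 R 0) (sc X σ) ∂μ| ≤
        min (τ ^ 2 * F) (τ * Real.sqrt F) * β ^ (1 / 2 : ℝ))
    (H3 : β * ∫ σ, pr (box D (R + 1)) (fR i0 i1 R 2) (sc X σ) ^ 2 ∂μ ≤
        nsq (L := L) (box D (R + 1)) (fR i0 i1 R 2) / lam0 L + min (τ ^ 2 * F) (τ * Real.sqrt F) ∧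
      |β * ∫ σ, pr (box D (R + 1)) (fR i0 i1 R 2) (sc X σ) ∂μ| ≤
        min (τ ^ 2 * F) (τ * Real.sqrt F) * β ^ (1 / 2 : ℝ))
    (H4 : β * ∫ σ, pr (box D (R + 1)) (rR i0 i1 m R) (sc X σ) ^ 2 ∂μ ≤
        nsq (L := L) (box D (R + 1)) (rR i0 i1 m R) / lam0 L + τ ^ 2 * F ∧
      |β * ∫ σ, pr (box D (R + 1)) (rR i0 i1 m R) (sc X σ) ∂μ| ≤
        τ ^ 2 * F * β ^ (1 / 2 : ℝ))
    (hF2 : nsq (L := L) (box D (R + 1)) (fR i0 i1 R 2) = F)
    (d1 : ((box D R).card : ℝ) ≤ β ^ (e / 16)) (d2 : 1 / (τ * F) * β ^ (-(e / 4)) ≤ 1) :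
      0 < ∫ σ, pr (box D (R + 1)) (fR i0 i1 R 0) (sc X σ) ^ 2 ∂μ -
          (∫ σ, pr (box D (R + 1)) (fR i0 i1 R 0) (sc X σ) ∂μ) ^ 2 ∧
      0 < ∫ σ, pr (box D (R + 1)) (fR i0 i1 R 2) (sc X σ) *
            pr (box D (R + 1)) (fR i0 i1 R 0) (sc X σ) ∂μ -
          (∫ σ, pr (box D (R + 1)) (fR i0 i1 R 0) (sc X σ) ∂μ) *
            ∫ σ, pr (box D (R + 1)) (fR i0 i1 R 0) (sc X σ) ∂μ ∧
      Real.exp (-(2 * m')) * (∫ σ, pr (box D (R + 1)) (fR i0 i1 R 0) (sc X σ) ^ 2 ∂μ -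
          (∫ σ, pr (box D (R + 1)) (fR i0 i1 R 0) (sc X σ) ∂μ) ^ 2) ≤
        ∫ σ, pr (box D (R + 1)) (fR i0 i1 R 2) (sc X σ) *
            pr (box D (R + 1)) (fR i0 i1 R 0) (sc X σ) ∂μ -
          (∫ σ, pr (box D (R + 1)) (fR i0 i1 R 0) (sc X σ) ∂μ) *
            ∫ σ, pr (box D (R + 1)) (fR i0 i1 R 0) (sc X σ) ∂μ := by
  have hlam : 0 < lam0 L := lam0_pos hL
  have hs0 : 0 < s := by rw [hs]; have := Real.sinh_pos_iff.2 hm0; positivity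
  obtain ⟨q, hq⟩ : ∃ q, q = Real.exp (-(2 * m)) := ⟨_, rfl⟩
  obtain ⟨q', hq'⟩ : ∃ q', q' = Real.exp (-(2 * m')) := ⟨_, rfl⟩
  have hq0 : 0 < q := by rw [hq]; exact Real.exp_pos _
  have hq'0 : 0 < q' := by rw [hq']; exact Real.exp_pos _
  have hτ2 : q' * (1 + τ + τ * K) < q - τ * (1 + K + s) := by rw [hq, hq']; exact hτ2'
  have hβ0 : 0 < β := by linarith
  have := hμ.shf.prob
  have hw1 : ∀ x a, |wR (L := L) i0 i1 m R x a| ≤ 1 := fun x a =>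
    (wR_le hm0.le R x a).trans (hh_le hm0.le _)
  have hw0 : ∀ x, x ∉ box D R → wR (L := L) i0 i1 m R x = 0 := fun x hx => by
    funext a; unfold wR; rw [if_neg hx]; rfl
  obtain ⟨s0, -⟩ := H1 (box D R) (wR i0 i1 m R) (fR i0 i1 R 0) d1 hw1 hw0 fR_le
  obtain ⟨s2, -⟩ := H1 (box D R) (wR i0 i1 m R) (fR i0 i1 R 2) d1 hw1 hw0 fR_le
  obtain ⟨v0, e0⟩ := H2
  obtain ⟨v2, e2⟩ := H3
  obtain ⟨vr, -⟩ := H4
  rw [fR_wR] at s0 s2
  have hFR : nsq (L := L) (box D R) (fR i0 i1 R 0) = F := by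
    rw [hF]; exact (nsq_mono_box (Nat.le_succ R) fun x hx => fR_out hx).symm
  have hFR2 : nsq (L := L) (box D R) (fR i0 i1 R 2) = F := by
    rw [← hF2]; exact (nsq_mono_box (Nat.le_succ R) fun x hx => fR_out hx).symm
  have hh0 : hh m 0 = 1 := by unfold hh; simp
  have hh2 : hh m 2 = q := by
    rw [hq]; unfold hh
    congr 1
    rw [abs_of_pos (by norm_num)]; push_cast; ring
  rw [hFR, hh0, one_mul] at s0
  rw [hFR2, hh2] at s2
  rw [← hF] at v0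
  rw [hF2] at v2
  -- abbreviations
  set F0 : Cf G D L → ℝ := fun σ => pr (box D (R + 1)) (fR i0 i1 R 0) (sc X σ) with hF0
  set F2 : Cf G D L → ℝ := fun σ => pr (box D (R + 1)) (fR i0 i1 R 2) (sc X σ) with hF2'
  set Fr : Cf G D L → ℝ := fun σ => pr (box D (R + 1)) (rR i0 i1 m R) (sc X σ) with hFr
  have hprk : ∀ k : ℤ, ∀ σ : Cf G D L, pr (box D R) (fR i0 i1 R k) (sc X σ) =
      pr (box D (R + 1)) (fR i0 i1 R k) (sc X σ) := fun k σ =>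
    (pr_mono (box_mono (Nat.le_succ R)) (fun x hx => fR_out hx) _).symm
  have i00 := int_prod (μ := μ) h1.nX (box D (R + 1)) (box D (R + 1)) (fR (L := L) i0 i1 R 0)
    (fR i0 i1 R 0)
  have i20 := int_prod (μ := μ) h1.nX (box D (R + 1)) (box D (R + 1)) (fR (L := L) i0 i1 R 2)
    (fR i0 i1 R 0)
  have i0r := int_prod (μ := μ) h1.nX (box D (R + 1)) (box D (R + 1)) (fR (L := L) i0 i1 R 0)
    (rR i0 i1 m R)
  have i2r := int_prod (μ := μ) h1.nX (box D (R + 1)) (box D (R + 1)) (fR (L := L) i0 i1 R 2)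
    (rR i0 i1 m R)
  have E0 : ∫ σ, pr (box D R) (fR i0 i1 R 0) (sc X σ) * Bf (box D R) (wR i0 i1 m R) (sc X σ) ∂μ =
      s * ∫ σ, F0 σ ^ 2 ∂μ + ∫ σ, F0 σ * Fr σ ∂μ := by
    have : ∀ σ : Cf G D L, pr (box D R) (fR i0 i1 R 0) (sc X σ) *
        Bf (box D R) (wR i0 i1 m R) (sc X σ) = s * (F0 σ * F0 σ) + F0 σ * Fr σ := by
      intro σ; rw [hprk, Bf_wR, ← hs]; ring
    simp only [this]
    rw [integral_add (i00.const_mul s) i0r, integral_const_mul]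
    simp only [sq]
    rfl
  have E2 : ∫ σ, pr (box D R) (fR i0 i1 R 2) (sc X σ) * Bf (box D R) (wR i0 i1 m R) (sc X σ) ∂μ =
      s * ∫ σ, F2 σ * F0 σ ∂μ + ∫ σ, F2 σ * Fr σ ∂μ := by
    have : ∀ σ : Cf G D L, pr (box D R) (fR i0 i1 R 2) (sc X σ) *
        Bf (box D R) (wR i0 i1 m R) (sc X σ) = s * (F2 σ * F0 σ) + F2 σ * Fr σ := by
      intro σ; rw [hprk, Bf_wR, ← hs]; ring
    simp only [this]
    rw [integral_add (i20.const_mul s) i2r, integral_const_mul]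
  rw [E0] at s0
  rw [E2] at s2
  have k0 := cs_tau (μ := μ) h1.nX (box D (R + 1)) (box D (R + 1)) (fR (L := L) i0 i1 R 0)
    (rR i0 i1 m R) hτ0
  have k2 := cs_tau (μ := μ) h1.nX (box D (R + 1)) (box D (R + 1)) (fR (L := L) i0 i1 R 2)
    (rR i0 i1 m R) hτ0
  have hsm : β ^ (-(e / 4)) ≤ τ * F := by
    have h2 : β ^ (-(e / 4)) = (1 / (τ * F) * β ^ (-(e / 4))) * (τ * F) := by field_simp
    rw [h2]
    calc _ ≤ 1 * (τ * F) := mul_le_mul_of_nonneg_right d2 (by positivity)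
      _ = _ := one_mul _
  have hββ : β ^ (1 / 2 : ℝ) * β ^ (1 / 2 : ℝ) = β := by
    rw [← Real.rpow_add hβ0]; norm_num
  have hB0 : 0 ≤ β ^ (1 / 2 : ℝ) := Real.rpow_nonneg hβ0.le _
  rw [← hq']
  have hq1 : q < 1 := by
    rw [hq, ← Real.exp_zero]; exact Real.exp_lt_exp.2 (by linarith)
  exact num_aux hR2 hK hlam hs0 hq'0 hτ0 hτ1 hτ2 hq1 hβ0 (Real.mul_self_sqrt hR2.le)
    (Real.sqrt_nonneg _) hB0 hββ
    (v0.trans (by gcongr; exact min_le_left _ _)) (v2.trans (by gcongr; exact min_le_left _ _))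
    hR1 vr k0 k2 (s0.trans hsm) (s2.trans hsm)
    (e0.trans (mul_le_mul_of_nonneg_right (min_le_right _ _) hB0))
    (e0.trans (mul_le_mul_of_nonneg_right (min_le_right _ _) hB0))

/-- the choice of a small parameter -/
lemma exists_tauU {ε : ℝ} (hε : 0 < ε) (hε1 : ε ≤ 1) : ∃ C : ℝ, ∃ k : ℕ, 1 ≤ C ∧
    ∀ L : ℕ, 1 ≤ L → ∀ {m : ℝ}, 0 < m → 2 * Real.cosh m - 2 = lam0 L → ∀ {K s : ℝ},
      K = 1 / lam0 L + 1 → s = 2 * Real.sinh m →
      ∃ τ : ℝ, 0 < τ ∧ τ ≤ 1 ∧ 1 / τ ≤ C * (L : ℝ) ^ k ∧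
      Real.exp (-(2 * ((1 + ε) * m))) * (1 + τ + τ * K) < Real.exp (-(2 * m)) - τ * (1 + K + s) := by
  obtain ⟨C0, hC0⟩ : ∃ C0, C0 = 1 + 2 * (Real.exp 2 * (3 / (2 * ε)) * 3) *
    (2 * (9 / 4 + 2) + 2 * Real.sinh 1) := ⟨_, rfl⟩
  have hsh : 0 < Real.sinh 1 := Real.sinh_pos_iff.2 one_pos
  refine ⟨C0, 3, ?_, ?_⟩
  · rw [hC0]
    have : 0 ≤ 2 * (Real.exp 2 * (3 / (2 * ε)) * 3) * (2 * (9 / 4 + 2) + 2 * Real.sinh 1) := by
      positivity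
    linarith
  intro L hL m hm0 hm K s hK hs
  have hm1 := mass_le hL hm0 hm
  have hL' : (1 : ℝ) ≤ L := by exact_mod_cast hL
  have hlam := lam0_pos hL
  obtain ⟨q, hq⟩ : ∃ q, q = Real.exp (-(2 * m)) := ⟨_, rfl⟩
  obtain ⟨q', hq'⟩ : ∃ q', q' = Real.exp (-(2 * ((1 + ε) * m))) := ⟨_, rfl⟩
  rw [← hq, ← hq']
  have hq'0 : 0 < q' := by rw [hq']; exact Real.exp_pos _
  have hq'1 : q' ≤ 1 := by
    rw [hq', Real.exp_le_one_iff]
    have : 0 ≤ 2 * ((1 + ε) * m) := by positivity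
    linarith
  have hs0 : 0 < s := by rw [hs]; have := Real.sinh_pos_iff.2 hm0; positivity
  have hs1 : s ≤ 2 * Real.sinh 1 := by
    rw [hs]
    have := Real.sinh_le_sinh.2 hm1
    linarith
  have hK0 : 0 < K := by rw [hK]; positivity
  have hK1 : K ≤ (9 / 4 + 1) * (L : ℝ) ^ 2 := by
    rw [hK]
    have h1 := inv_lam0_le hL
    have h2 : 1 ≤ (L : ℝ) ^ 2 := one_le_pow₀ hL'
    linarith
  -- the difference
  have hd : Real.exp (-2) * (2 * ε * m / 3) ≤ q - q' := by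
    have e1 : q' = q * Real.exp (-(2 * ε * m)) := by
      rw [hq, hq', ← Real.exp_add]
      congr 1
      ring
    have e2 : Real.exp (-(2 * ε * m)) ≤ 1 / (1 + 2 * ε * m) := by
      rw [Real.exp_neg, ← one_div]
      refine one_div_le_one_div_of_le (by positivity) ?_
      have := Real.add_one_le_exp (2 * ε * m)
      linarith
    have e3 : 2 * ε * m / 3 ≤ 1 - Real.exp (-(2 * ε * m)) := by
      have e4 : 2 * ε * m ≤ 2 := by
        have : ε * m ≤ 1 * 1 := mul_le_mul hε1 hm1 hm0.le zero_le_one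
        linarith
      have e5 : 1 - 1 / (1 + 2 * ε * m) = 2 * ε * m / (1 + 2 * ε * m) := by
        field_simp
        ring
      have e6 : 2 * ε * m / 3 ≤ 2 * ε * m / (1 + 2 * ε * m) :=
        div_le_div_of_nonneg_left (by positivity) (by positivity) (by linarith)
      linarith
    have e7 : Real.exp (-2) ≤ q := by
      rw [hq]
      exact Real.exp_le_exp.2 (by linarith)
    calc Real.exp (-2) * (2 * ε * m / 3) ≤ q * (1 - Real.exp (-(2 * ε * m))) :=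
          mul_le_mul e7 e3 (by positivity) (by rw [hq]; exact (Real.exp_pos _).le)
      _ = q - q' := by rw [e1]; ring
  have hd0 : 0 < q - q' := lt_of_lt_of_le (by positivity) hd
  have hd1 : 1 / (q - q') ≤ Real.exp 2 * (3 / (2 * ε)) * 3 * L := by
    refine (one_div_le_one_div_of_le (by positivity) hd).trans ?_
    have e1 : 1 / (Real.exp (-2) * (2 * ε * m / 3)) = Real.exp 2 * (3 / (2 * ε)) * (1 / m) := by
      rw [Real.exp_neg]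
      field_simp
    rw [e1, mul_assoc _ 3 (L : ℝ)]
    exact mul_le_mul_of_nonneg_left (inv_mass_le hL hm0 hm) (by positivity)
  obtain ⟨Z, hZ⟩ : ∃ Z, Z = q' * (1 + K) + (1 + K + s) := ⟨_, rfl⟩
  have hZ0 : 0 < Z := by rw [hZ]; positivity
  have hZ1 : Z ≤ (2 * (9 / 4 + 2) + 2 * Real.sinh 1) * (L : ℝ) ^ 2 := by
    rw [hZ]
    have h2 : 1 ≤ (L : ℝ) ^ 2 := one_le_pow₀ hL'
    have h3 : q' * (1 + K) ≤ 1 + K := mul_le_of_le_one_left (by positivity) hq'1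
    nlinarith
  obtain ⟨τ, hτ⟩ : ∃ τ, τ = min 1 ((q - q') / (2 * Z)) := ⟨_, rfl⟩
  have hτ0 : 0 < τ := by rw [hτ]; exact lt_min one_pos (by positivity)
  have h2 : τ * Z ≤ (q - q') / 2 := by
    rw [hτ]
    calc min 1 ((q - q') / (2 * Z)) * Z ≤ (q - q') / (2 * Z) * Z :=
          mul_le_mul_of_nonneg_right (min_le_right _ _) hZ0.le
      _ = (q - q') / 2 := by field_simp
  refine ⟨τ, hτ0, by rw [hτ]; exact min_le_left _ _, ?_, ?_⟩
  · have h3 : 1 / τ ≤ 1 + 2 * (1 / (q - q')) * Z := by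
      have e1 : 2 * (1 / (q - q')) * Z = 1 / ((q - q') / (2 * Z)) := by
        field_simp
      rcases min_choice 1 ((q - q') / (2 * Z)) with h | h
      · rw [hτ, h]
        have : 0 ≤ 2 * (1 / (q - q')) * Z := by positivity
        norm_num
        simpa using this
      · rw [hτ, h, e1]
        linarith
    refine h3.trans ?_
    have h4 : 2 * (1 / (q - q')) * Z ≤ 2 * (Real.exp 2 * (3 / (2 * ε)) * 3 * L) *
        ((2 * (9 / 4 + 2) + 2 * Real.sinh 1) * (L : ℝ) ^ 2) :=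
      mul_le_mul (by linarith) hZ1 hZ0.le (by positivity)
    have h5 : (1 : ℝ) ≤ (L : ℝ) ^ 3 := one_le_pow₀ hL'
    calc 1 + 2 * (1 / (q - q')) * Z ≤ (L : ℝ) ^ 3 + 2 * (Real.exp 2 * (3 / (2 * ε)) * 3 * L) *
        ((2 * (9 / 4 + 2) + 2 * Real.sinh 1) * (L : ℝ) ^ 2) := by linarith
      _ = C0 * (L : ℝ) ^ 3 := by rw [hC0]; ring
  · have h3 : q' * (1 + τ + τ * K) + τ * (1 + K + s) = q' + τ * Z := by rw [hZ]; ring
    linarith

/-- **The covariances at the distances two and zero**, uniformly in the thickness. -/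
theorem ratioU {D : ℕ} {X : Mt N} {γ : ℝ → G} {κ : ℝ} (h1 : OneP X γ κ) {e : ℝ} (he : 0 < e)
    (he2 : e ≤ 1 / 10) {ε : ℝ} (hε : 0 < ε) (hε1 : ε ≤ 1) :
    ∀ᶠ p in FU, ∀ L : ℕ, 1 ≤ L → (L : ℝ) ≤ p.2 → ∀ {i0 i1 : Fin D}, i0 ≠ i1 → ∀ {m : ℝ}, 0 < m →
      2 * Real.cosh m - 2 = lam0 L →
    ∃ R : ℕ, 3 ≤ R ∧ ∀ μ : Measure (Cf G D L), Stt G D L e p.1 μ →
      0 < ∫ σ, pr (box D (R + 1)) (fR i0 i1 R 0) (sc X σ) ^ 2 ∂μ -
          (∫ σ, pr (box D (R + 1)) (fR i0 i1 R 0) (sc X σ) ∂μ) ^ 2 ∧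
      0 < ∫ σ, pr (box D (R + 1)) (fR i0 i1 R 2) (sc X σ) *
            pr (box D (R + 1)) (fR i0 i1 R 0) (sc X σ) ∂μ -
          (∫ σ, pr (box D (R + 1)) (fR i0 i1 R 0) (sc X σ) ∂μ) *
            ∫ σ, pr (box D (R + 1)) (fR i0 i1 R 0) (sc X σ) ∂μ ∧
      Real.exp (-(2 * ((1 + ε) * m))) * (∫ σ, pr (box D (R + 1)) (fR i0 i1 R 0) (sc X σ) ^ 2 ∂μ -
          (∫ σ, pr (box D (R + 1)) (fR i0 i1 R 0) (sc X σ) ∂μ) ^ 2) ≤
        ∫ σ, pr (box D (R + 1)) (fR i0 i1 R 2) (sc X σ) *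
            pr (box D (R + 1)) (fR i0 i1 R 0) (sc X σ) ∂μ -
          (∫ σ, pr (box D (R + 1)) (fR i0 i1 R 0) (sc X σ) ∂μ) *
            ∫ σ, pr (box D (R + 1)) (fR i0 i1 R 0) (sc X σ) ∂μ := by
  obtain ⟨Ct, kt, hCt, Ht⟩ := exists_tauU hε hε1
  obtain ⟨Cr, kr, hCr, hkr, Hr⟩ := rR_smallU D
  -- the bounds as functions of `Y`
  obtain ⟨T, hT⟩ : ∃ T : ℝ → ℝ, T = fun Y => Ct * Y ^ kt := ⟨_, rfl⟩
  obtain ⟨B, hB⟩ : ∃ B : ℝ → ℝ, B = fun Y => Cr * (T Y ^ 2 + Y) ^ kr := ⟨_, rfl⟩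
  have hs : ∀ Y : ℝ, 1 ≤ Y → 1 ≤ id Y := fun Y h => h
  have hs0 : ∀ Y : ℝ, 1 ≤ Y → 0 ≤ id Y := fun Y h => by
    show 0 ≤ Y
    linarith
  have pY : Pb (id : ℝ → ℝ) (fun Y => 1 ≤ Y) id := Pb.sc hs
  have pT : Pb (id : ℝ → ℝ) (fun Y => 1 ≤ Y) T := by
    rw [hT]
    exact (Pb.cst Ct).mul (pY.pow kt)
  have pB : Pb (id : ℝ → ℝ) (fun Y => 1 ≤ Y) B := by
    rw [hB]
    exact (Pb.cst Cr).mul ((Pb.add hs (pT.pow 2) pY).pow kr)
  have pW : Pb (id : ℝ → ℝ) (fun Y => 1 ≤ Y)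
      (fun Y => (T Y) ^ 2 * B Y + T Y * (1 + B Y) + B Y + id Y) :=
    Pb.add hs (Pb.add hs (Pb.add hs ((pT.pow 2).mul pB)
      (pT.mul (Pb.add hs (Pb.cst 1) pB))) pB) pY
  have A1' := (((Pb.cst 3).mul pB).pow D).le (a := e / 16) (by linarith) hs0
  have A2 := (pT.mul pB).ev (a := 0) (b := -(e / 4)) (by linarith) hs0
  obtain ⟨C, k, hC, HW⟩ := pW
  have Hv := (fu_comp hC k).eventually (var_bdU (D := D) h1 he he2)
  filter_upwards [Hv, sd_limU (D := D) h1 he he2, A1', A2, Pool.Agent.N990.Mach.fu_ge 1,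
    Pool.Agent.N990.Mach.fu_one] with ⟨β, Y⟩ Hv Hs a1 a2 hβ1 hY1 L hL hLY i0 i1 h01 m hm0 hm
  dsimp only at Hv Hs a1 a2 hβ1 hY1 hLY ⊢
  have hlam : 0 < lam0 L := lam0_pos hL
  have hL' : (1 : ℝ) ≤ L := by exact_mod_cast hL
  obtain ⟨τ, hτ0, hτ1, hτT, hτ2⟩ := Ht L hL hm0 hm rfl rfl
  have hτT' : 1 / τ ≤ T Y := by
    rw [hT]
    refine hτT.trans ?_
    exact mul_le_mul_of_nonneg_left (pow_le_pow_left₀ (by linarith) hLY kt) (by linarith)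
  have hT1 : 1 ≤ T Y := by
    rw [hT]
    exact one_le_mul_of_one_le_of_one_le hCt (one_le_pow₀ hY1)
  have hη : 1 / τ ^ 2 ≤ T Y ^ 2 + Y := by
    have : 1 / τ ^ 2 = (1 / τ) ^ 2 := by rw [div_pow, one_pow]
    rw [this]
    have h3 : (1 / τ) ^ 2 ≤ T Y ^ 2 := pow_le_pow_left₀ (by positivity) hτT' 2
    linarith
  have hLY2 : (L : ℝ) ≤ T Y ^ 2 + Y := by
    have : 0 ≤ T Y ^ 2 := by positivity
    linarith
  obtain ⟨R, hR3, hRB, hR1, hR2, hFB, hFB'⟩ := Hr L hL h01 hm0 hm (η := τ ^ 2) (by positivity)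
    hLY2 hη
  have hBY : B Y = Cr * (T Y ^ 2 + Y) ^ kr := by rw [hB]
  rw [← hBY] at hRB hFB hFB'
  obtain ⟨F, hF⟩ : ∃ F, F = nsq (L := L) (box D (R + 1)) (fR i0 i1 R 0) := ⟨_, rfl⟩
  rw [← hF] at hR1 hR2 hFB hFB'
  have hB1 : 1 ≤ B Y := by
    have : (0 : ℝ) ≤ R := Nat.cast_nonneg R
    linarith
  have hF2 : nsq (L := L) (box D (R + 1)) (fR i0 i1 R 2) = F := by
    have a1 := fR_nsq (L := L) (i0 := i0) (i1 := i1) (R := R) (R' := R + 1)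
      (Nat.le_succ _) (k := 0) (by constructor <;> linarith [Nat.cast_nonneg (α := ℤ) R])
    have a2 := fR_nsq (L := L) (i0 := i0) (i1 := i1) (R := R) (R' := R + 1)
      (Nat.le_succ _) (k := 2) (by
        have : (3 : ℤ) ≤ R := by exact_mod_cast hR3
        constructor <;> linarith)
    rw [← a1] at a2
    have h2 : (2 * (R : ℝ) + 1) ≠ 0 := by positivity
    rw [hF]
    exact mul_left_cancel₀ h2 a2
  have hout : ∀ k : ℤ, ∀ x, x ∉ box D (R + 1) → fR (L := L) i0 i1 R k x = 0 := fun k x hx =>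
    fR_out fun h => hx (box_mono (Nat.le_succ R) h)
  have hrout : ∀ x, x ∉ box D (R + 1) → rR (L := L) i0 i1 m R x = 0 := fun x hx => by
    funext b; exact rR_out hx b
  -- the common bound
  have hWY := (le_abs_self _).trans (HW Y hY1)
  have hWY' : (T Y) ^ 2 * B Y + T Y * (1 + B Y) + B Y + Y ≤ C * Y ^ k := hWY
  have w0 : 0 ≤ (T Y) ^ 2 * B Y := by positivity
  have w1 : 0 ≤ T Y * (1 + B Y) := by positivity
  have g1 : Y ≤ C * Y ^ k := by linarith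
  have g2 : B Y ≤ C * Y ^ k := by linarith
  have g3 : (T Y) ^ 2 * B Y + T Y * (1 + B Y) ≤ C * Y ^ k := by linarith
  have hL2 : (L : ℝ) ≤ C * Y ^ k := hLY.trans g1
  have hRR : ((R + 1 : ℕ) : ℝ) + 1 ≤ C * Y ^ k := by
    push_cast
    linarith
  have i1' : 1 / (τ ^ 2 * F) ≤ (T Y) ^ 2 * B Y := by
    have : 1 / (τ ^ 2 * F) = (1 / τ) ^ 2 * (1 / F) := by
      rw [div_pow, one_pow, div_mul_div_comm, one_mul]
    rw [this]
    exact mul_le_mul (pow_le_pow_left₀ (by positivity) hτT' 2) hFB' (by positivity) (by positivity)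
  have i2 : 1 / (τ * Real.sqrt F) ≤ T Y * (1 + B Y) := by
    have e1 : 1 / (τ * Real.sqrt F) = (1 / τ) * (1 / Real.sqrt F) := by
      rw [div_mul_div_comm, one_mul]
    have hsF : 0 < Real.sqrt F := Real.sqrt_pos.2 hR2
    have e2 : 1 / Real.sqrt F ≤ 1 + 1 / F := by
      have e3 : (1 / Real.sqrt F) ^ 2 = 1 / F := by
        rw [div_pow, one_pow, Real.sq_sqrt hR2.le]
      rw [← e3]
      nlinarith [sq_nonneg (1 / Real.sqrt F - 1), sq_nonneg (1 / Real.sqrt F)]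
    rw [e1]
    exact mul_le_mul hτT' (e2.trans (by linarith)) (by positivity) (by positivity)
  have hE : 0 < τ ^ 2 * F := by positivity
  have hE2 : 0 < τ * Real.sqrt F := by positivity
  have hmin : 1 / min (τ ^ 2 * F) (τ * Real.sqrt F) ≤ C * Y ^ k := by
    rcases min_choice (τ ^ 2 * F) (τ * Real.sqrt F) with h | h
    · rw [h]; linarith
    · rw [h]; linarith
  have hr1 : nsq (L := L) (box D (R + 1)) (rR i0 i1 m R) ≤ C * Y ^ k := by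
    refine hR1.trans ?_
    have h3 : τ ^ 2 ≤ 1 := pow_le_one₀ hτ0.le hτ1
    have h4 : τ ^ 2 * F ≤ F := mul_le_of_le_one_left hR2.le h3
    linarith
  refine ⟨R, hR3, fun μ hμ => ?_⟩
  refine ratio_core h1 he hL h01 hm0 hm (by nlinarith) rfl rfl hτ0 hτ1 hτ2 hR3 hF hR1 hR2 hβ1 hμ
    (Hs L hL hLY μ hμ)
    (Hv L (R + 1) _ hL hL2 hRR (lt_min hE hE2) hmin μ hμ _ (hout 0) ?_)
    (Hv L (R + 1) _ hL hL2 hRR (lt_min hE hE2) hmin μ hμ _ (hout 2) ?_)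
    (Hv L (R + 1) _ hL hL2 hRR hE (by linarith) μ hμ _ hrout hr1) hF2 ?_ ?_
  · rw [← hF]; linarith
  · rw [hF2]; linarith
  · have h5 := a1 Y hY1 le_rfl
    refine le_trans ?_ h5
    rw [box_card]
    push_cast
    refine pow_le_pow_left₀ (by positivity) ?_ D
    linarith
  · have h5 := a2 Y hY1 le_rfl
    rw [Real.rpow_zero] at h5
    refine le_trans ?_ h5
    refine mul_le_mul_of_nonneg_right ?_ (Real.rpow_nonneg (by linarith) _)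
    have : 1 / (τ * F) = (1 / τ) * (1 / F) := by rw [div_mul_div_comm, one_mul]
    rw [this]
    exact mul_le_mul hτT' hFB' (by positivity) (by linarith)

end

end Pool.Agent.N109.SlabU
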