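import Pool.Agent.N109.SlabU.UpperU
import Pool.Agent.N986.U.Infl

/-!
# The slab, uniformly in the thickness: the upper bound in the form of the final theorem
-/

set_option autoImplicit false
set_option linter.unusedSectionVars false
set_option linter.unusedVariables false
set_option linter.style.haveILetI false

open MeasureTheory Matrix Finset Filter
open scoped Matrix.Norms.Frobenius ENNReal

namespace Pool.Agent.N109.SlabU

open Pool.Agent.N109.Slab
open Pool.Agent.N986.SL
open Pool.Agent.N990.Mach (FU)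

noncomputable section

variable {N D : ℕ} {G : Subgroup (N990.UU N)} [MeasurableSpace G] [BorelSpace G]

/-- **The upper bound**, in the form of the final theorem -/
theorem upU (hG : IsClosed (G : Set (N990.UU N))) (μ : Measure G)
    [IsProbabilityMeasure μ] [μ.IsMulLeftInvariant] (hM : Infinite G → MbU D μ) : UpU D μ := by
  intro ε hε
  by_cases hi : Infinite G ∧ 2 ≤ D
  · obtain ⟨hi1, hi2⟩ := hi
    obtain ⟨ε', hε', hε1, hε2⟩ : ∃ ε' : ℝ, 0 < ε' ∧ ε' ≤ 1 ∧ ε' ≤ ε :=
      ⟨min 1 ε, lt_min one_pos hε, min_le_left _ _, min_le_right _ _⟩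
    filter_upwards [upperU_of (D := D) hG μ (hM hi1) hε' hε1] with p H L hL hLp m hm0 hm i _ _
    have : Nontrivial (Fin D) := Fin.nontrivial_iff_two_le.2 hi2
    obtain ⟨i1, hi3⟩ := exists_ne i
    obtain ⟨F, hF, -, hF', hF2⟩ := H L hL hLp (Ne.symm hi3) hm0 hm
    refine ⟨F, hF, hF', fun P hP => ?_⟩
    obtain ⟨a1, a2⟩ := hF2 P hP
    refine ⟨a1, le_trans (mul_le_mul_of_nonneg_right (Real.exp_le_exp.2 ?_) a1.le) a2⟩
    have : ε' * m ≤ ε * m := mul_le_mul_of_nonneg_right hε2 hm0.le
    linarith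
  · exact Filter.Eventually.of_forall fun p L _ _ m _ _ i h1 h2 => absurd ⟨h1, h2⟩ hi

/-- the upper bound from the coarse system -/
theorem upU_of_sys (hG : IsClosed (G : Set (N990.UU N))) (μ : Measure G)
    [IsProbabilityMeasure μ] [μ.IsMulLeftInvariant] {Cc : ℝ} (hCc : 1 ≤ Cc)
    (hS : SysCU D μ Cc) : UpU D μ :=
  upU hG μ fun _ e he => mbU_of hG hCc hS he

end

end Pool.Agent.N109.SlabU
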